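import Mathlib

namespace Pool.Agent.P.MP_c09308_co

/-- The reciprocal of the central binomial coefficient `C(2n-2, n-1)`. -/
noncomputable def pp (n : ℕ) : ℝ := 1 / ((2 * n - 2).choose (n - 1) : ℝ)

theorem pp_pos (n : ℕ) : 0 < pp n := by
  have h : 0 < (2 * n - 2).choose (n - 1) := Nat.choose_pos (by omega)
  unfold pp
  positivity

theorem num_step (k : ℕ) :
    2 * (k + 1) * k.choose (k / 2) ≤ (k + 2) * (k + 1).choose ((k + 1) / 2) := by
  rcases Nat.even_or_odd' k with ⟨j, rfl | rfl⟩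
  · have h1 : 2 * j / 2 = j := by omega
    have h2 : (2 * j + 1) / 2 = j := by omega
    rw [h1, h2]
    have h3 := Nat.add_one_mul_choose_eq (2 * j) j
    rw [Nat.choose_symm_half] at h3
    nlinarith [h3]
  · have h1 : (2 * j + 1) / 2 = j := by omega
    have h2 : (2 * j + 1 + 1) / 2 = j + 1 := by omega
    rw [h1, h2, Nat.choose_succ_succ' (2 * j + 1) j, Nat.choose_symm_half]
    nlinarith [Nat.zero_le ((2 * j + 1).choose j)]

theorem num_steps (k d : ℕ) :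
    2 ^ d * ((k + 1) * k.choose (k / 2)) ≤ (k + d + 1) * (k + d).choose ((k + d) / 2) := by
  induction d with
  | zero => simp
  | succ d ih =>
    have h := num_step (k + d)
    have e1 : k + (d + 1) = k + d + 1 := by ring
    rw [e1, pow_succ]
    nlinarith [h, ih]

theorem weight_bound {n K s t i j : ℕ} (hs : s + i = n) (ht : t + j = n) (hi : 1 ≤ i)
    (hj : 1 ≤ j) (hK : i + j ≤ K + 1) :
    (1 - (K : ℝ) / n) * pp n ≤ (1 / 2 : ℝ) ^ (i + j - 2) * (1 / ((s + t).choose s : ℝ)) := by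
  obtain ⟨d, hd⟩ : ∃ d, i + j - 2 = d := ⟨_, rfl⟩
  rw [hd]
  have hkd : s + t + d = 2 * n - 2 := by omega
  have h1 := num_steps (s + t) d
  have h2 : (s + t).choose s ≤ (s + t).choose ((s + t) / 2) := Nat.choose_le_middle _ _
  have h3 : (2 * n - 2) / 2 = n - 1 := by omega
  rw [hkd, h3] at h1
  have h4 : 2 ^ d * ((s + t + 1) * (s + t).choose s)
      ≤ (2 * n - 2 + 1) * (2 * n - 2).choose (n - 1) :=
    le_trans (Nat.mul_le_mul_left _ (Nat.mul_le_mul_left _ h2)) h1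
  have hn : 1 ≤ n := by omega
  have hc : (0 : ℝ) < ((s + t).choose s : ℝ) := by
    exact_mod_cast Nat.choose_pos (Nat.le_add_right _ _)
  have hC : (0 : ℝ) < ((2 * n - 2).choose (n - 1) : ℝ) := by
    exact_mod_cast Nat.choose_pos (by omega)
  have h5 : (2 : ℝ) ^ d * ((((s + t : ℕ) : ℝ) + 1) * ((s + t).choose s : ℝ))
      ≤ (((s + t : ℕ) : ℝ) + d + 1) * ((2 * n - 2).choose (n - 1) : ℝ) := by
    rw [← hkd] at h4 ⊢
    exact_mod_cast h4
  have hn' : (1 : ℝ) ≤ n := by exact_mod_cast hn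
  have hsum : ((s + t : ℕ) : ℝ) + d + 2 = 2 * n := by
    have : s + t + d + 2 = 2 * n := by omega
    exact_mod_cast this
  have hdK : (d : ℝ) ≤ K := by
    have : d ≤ K := by omega
    exact_mod_cast this
  have hd0 : (0 : ℝ) ≤ d := Nat.cast_nonneg _
  set k : ℝ := ((s + t : ℕ) : ℝ) with hk
  have hk0 : 0 ≤ k := Nat.cast_nonneg _
  have h6 : 1 - (K : ℝ) / n ≤ (k + 1) / (k + d + 1) := by
    have e1 : (k + 1) / (k + d + 1) = 1 - d / (k + d + 1) := by
      field_simp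
      ring
    rw [e1]
    have : (d : ℝ) / (k + d + 1) ≤ K / n :=
      div_le_div₀ (Nat.cast_nonneg _) hdK (by linarith) (by linarith)
    linarith
  have h7 : (k + 1) / (k + d + 1) * pp n ≤ (1 / 2 : ℝ) ^ d * (1 / ((s + t).choose s : ℝ)) := by
    unfold pp
    rw [one_div_pow, div_mul_div_comm, div_mul_div_comm, div_le_div_iff₀ (by positivity)
      (by positivity)]
    nlinarith [h5]
  exact le_trans (mul_le_mul_of_nonneg_right h6 (pp_pos n).le) h7

theorem num_cb (k r : ℕ) : Nat.centralBinom (k + r) ≤ 4 ^ r * Nat.centralBinom k := by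
  induction r with
  | zero => simp
  | succ r ih =>
    have h := Nat.succ_mul_centralBinom_succ (k + r)
    have h2 : Nat.centralBinom (k + r + 1) ≤ 4 * Nat.centralBinom (k + r) := by
      apply Nat.le_of_mul_le_mul_left (c := k + r + 1) _ (by omega)
      nlinarith [h, Nat.zero_le (Nat.centralBinom (k + r))]
    rw [← add_assoc, pow_succ]
    nlinarith [h2, ih]

theorem num_up (k j : ℕ) (hj : j ≤ k) :
    3 ^ j * (2 * k).choose k ≤ 2 ^ j * (2 * k + j).choose k := by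
  induction j with
  | zero => simp
  | succ j ih =>
    have ih' := ih (by omega)
    have h := Nat.choose_mul_succ_eq (2 * k + j) k
    have e : 2 * k + j + 1 - k = k + j + 1 := by omega
    rw [e] at h
    have h2 : 3 * (2 * k + j).choose k ≤ 2 * (2 * k + j + 1).choose k := by
      apply Nat.le_of_mul_le_mul_left (c := k + j + 1) _ (by omega)
      have h3 : 3 * (k + j + 1) ≤ 2 * (2 * k + j + 1) := by omega
      nlinarith [h, Nat.mul_le_mul_left ((2 * k + j).choose k) h3]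
    rw [← add_assoc, pow_succ, pow_succ]
    nlinarith [ih', Nat.mul_le_mul_left (2 ^ j) h2]

theorem far_bound {n K : ℕ} (hK : 1 ≤ K) (h : 5 * K ≤ n) :
    1 / ((((n - K) + ((n - K) + 4 * K)).choose (n - K) : ℕ) : ℝ) ≤ (64 / 81 : ℝ) ^ K * pp n := by
  obtain ⟨k, hk⟩ : ∃ k, n - K = k := ⟨_, rfl⟩
  rw [hk]
  have h1 := num_up k (4 * K) (by omega)
  have h2 := num_cb k (K - 1)
  have e1 : k + (K - 1) = n - 1 := by omega
  have e2 : 2 * (n - 1) = 2 * n - 2 := by omega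
  have e3 : k + (k + 4 * K) = 2 * k + 4 * K := by ring
  rw [e1, Nat.centralBinom_eq_two_mul_choose, Nat.centralBinom_eq_two_mul_choose, e2] at h2
  rw [e3]
  have h3 : (2 * n - 2).choose (n - 1) ≤ 4 ^ K * (2 * k).choose k :=
    h2.trans (Nat.mul_le_mul_right _ (Nat.pow_le_pow_right (by norm_num) (by omega)))
  have h4 : 81 ^ K * (2 * n - 2).choose (n - 1) ≤ 64 ^ K * (2 * k + 4 * K).choose k := by
    rw [pow_mul, pow_mul] at h1
    have e4 : (64 : ℕ) ^ K = 4 ^ K * (2 ^ 4) ^ K := by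
      rw [← mul_pow]
      norm_num
    have e5 : (81 : ℕ) ^ K = (3 ^ 4) ^ K := by norm_num
    rw [e4, e5]
    calc (3 ^ 4) ^ K * (2 * n - 2).choose (n - 1)
        ≤ (3 ^ 4) ^ K * (4 ^ K * (2 * k).choose k) := Nat.mul_le_mul_left _ h3
      _ = 4 ^ K * ((3 ^ 4) ^ K * (2 * k).choose k) := by ring
      _ ≤ 4 ^ K * ((2 ^ 4) ^ K * (2 * k + 4 * K).choose k) := Nat.mul_le_mul_left _ h1
      _ = _ := by ring
  have hc : (0 : ℝ) < ((2 * k + 4 * K).choose k : ℝ) := by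
    exact_mod_cast Nat.choose_pos (by omega)
  have hC : (0 : ℝ) < ((2 * n - 2).choose (n - 1) : ℝ) := by
    exact_mod_cast Nat.choose_pos (by omega)
  have h5 : (81 : ℝ) ^ K * ((2 * n - 2).choose (n - 1) : ℝ)
      ≤ 64 ^ K * ((2 * k + 4 * K).choose k : ℝ) := by exact_mod_cast h4
  unfold pp
  rw [div_pow, div_mul_div_comm, div_le_div_iff₀ hc (by positivity)]
  nlinarith [h5]

theorem num_large {ε : ℝ} (hε : 0 < ε) : ∃ M : ℕ, ∀ m : ℕ, M ≤ m → 10 ^ 6 ≤ m ∧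
    10 ^ 6 * 512 * ((m : ℝ) ^ 12 * (64 / 81 : ℝ) ^ m) ≤ 1 ∧
    160 * 512 ^ 5 * ((m : ℝ) ^ 46 * (1 / 2 : ℝ) ^ m) ≤ ε / 4 ∧ 3 / (m : ℝ) ≤ ε / 4 := by
  have t1 := (tendsto_pow_const_mul_const_pow_of_abs_lt_one 12 (r := 64 / 81)
    (by rw [abs_of_pos] <;> norm_num)).const_mul (10 ^ 6 * 512 : ℝ)
  have t2 := (tendsto_pow_const_mul_const_pow_of_abs_lt_one 46 (r := 1 / 2)
    (by rw [abs_of_pos] <;> norm_num)).const_mul (160 * 512 ^ 5 : ℝ)
  have t3 := tendsto_const_div_atTop_nhds_zero_nat (3 : ℝ)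
  rw [mul_zero] at t1 t2
  have e1 := t1.eventually (ge_mem_nhds (show (0 : ℝ) < 1 by norm_num))
  have e2 := t2.eventually (ge_mem_nhds (show (0 : ℝ) < ε / 4 by positivity))
  have e3 := t3.eventually (ge_mem_nhds (show (0 : ℝ) < ε / 4 by positivity))
  have e4 := Filter.eventually_ge_atTop (10 ^ 6 : ℕ)
  exact Filter.eventually_atTop.1 (e4.and (e1.and (e2.and e3)))

theorem asymp {ε : ℝ} (hε : 0 < ε) : ∃ N : ℕ, ∀ n : ℕ, N ≤ n → ∃ m : ℕ, 10 ^ 6 ≤ m ∧ m ^ 9 ≤ n ∧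
    10 ^ 6 * (n : ℝ) * (m : ℝ) ^ 3 * (64 / 81 : ℝ) ^ m ≤ 1 ∧
    ∀ v : ℝ, (1 - 3 / ((n : ℝ) * m)) * v ≤ ((2 * n - 2).choose (n - 1) : ℝ) / 2
        + 10 * (n : ℝ) ^ 3 * m * 4 ^ n / 2 ^ m →
      v ≤ (1 + ε / n) * (((2 * n - 2).choose (n - 1) : ℝ) / 2) := by
  obtain ⟨M, hM⟩ := num_large hε
  refine ⟨M ^ 9, fun n hn => ?_⟩
  have hm1 : (Nat.nthRoot 9 n) ^ 9 ≤ n := Nat.pow_nthRoot_le (Or.inl (by norm_num))
  have hm2 : n < (Nat.nthRoot 9 n + 1) ^ 9 := Nat.lt_pow_nthRoot_add_one (by norm_num) n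
  set m := Nat.nthRoot 9 n with hm
  have hMm : M ≤ m := by
    by_contra hlt
    have : (m + 1) ^ 9 ≤ M ^ 9 := Nat.pow_le_pow_left (by omega) 9
    omega
  obtain ⟨h6, hA, hB, hC⟩ := hM m hMm
  have hn512 : n ≤ 512 * m ^ 9 := by
    have : (m + 1) ^ 9 ≤ (2 * m) ^ 9 := Nat.pow_le_pow_left (by omega) 9
    rw [mul_pow] at this
    omega
  have hn2 : 2 ≤ n := by
    have : 2 ^ 9 ≤ m ^ 9 := Nat.pow_le_pow_left (by omega) 9
    omega
  have hnR : (n : ℝ) ≤ 512 * (m : ℝ) ^ 9 := by exact_mod_cast hn512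
  have hn1 : (1 : ℝ) ≤ n := by exact_mod_cast (by omega : 1 ≤ n)
  have hmR : (10 : ℝ) ^ 6 ≤ m := by exact_mod_cast h6
  have hm0 : (0 : ℝ) < m := by linarith [show (0 : ℝ) < 10 ^ 6 by norm_num]
  refine ⟨m, h6, hm1, ?_, fun v hv => ?_⟩
  · calc 10 ^ 6 * (n : ℝ) * (m : ℝ) ^ 3 * (64 / 81 : ℝ) ^ m
        ≤ 10 ^ 6 * (512 * (m : ℝ) ^ 9) * (m : ℝ) ^ 3 * (64 / 81 : ℝ) ^ m := by gcongr
      _ = 10 ^ 6 * 512 * ((m : ℝ) ^ 12 * (64 / 81 : ℝ) ^ m) := by ring
      _ ≤ 1 := hA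
  · have h4 := Nat.four_pow_le_two_mul_self_mul_centralBinom (n - 1) (by omega)
    have e2 : 2 * (n - 1) = 2 * n - 2 := by omega
    rw [Nat.centralBinom_eq_two_mul_choose, e2] at h4
    have h5 : 4 ^ n ≤ 8 * n * (2 * n - 2).choose (n - 1) := by
      have e3 : 4 ^ n = 4 * 4 ^ (n - 1) := by
        rw [← pow_succ']
        congr 1
        omega
      have h7 : (2 * n - 2) * (2 * n - 2).choose (n - 1) ≤ 2 * n * (2 * n - 2).choose (n - 1) :=
        Nat.mul_le_mul_right _ (by omega)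
      rw [e3]
      nlinarith [h4, h7]
    set L : ℝ := ((2 * n - 2).choose (n - 1) : ℝ) / 2 with hL
    have hL0 : 0 ≤ L := by positivity
    have h8 : (4 : ℝ) ^ n ≤ 16 * n * L := by
      have : (4 : ℝ) ^ n ≤ 8 * n * ((2 * n - 2).choose (n - 1) : ℝ) := by exact_mod_cast h5
      rw [hL]
      linarith
    have h9 : 160 * (n : ℝ) ^ 5 * m / 2 ^ m ≤ ε / 4 := by
      calc 160 * (n : ℝ) ^ 5 * m / 2 ^ m ≤ 160 * (512 * (m : ℝ) ^ 9) ^ 5 * m / 2 ^ m := by gcongr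
        _ = 160 * 512 ^ 5 * ((m : ℝ) ^ 46 * (1 / 2 : ℝ) ^ m) := by
          rw [one_div_pow]
          ring
        _ ≤ ε / 4 := hB
    have h10 : 10 * (n : ℝ) ^ 3 * m * 4 ^ n / 2 ^ m ≤ ε / 4 / n * L := by
      calc 10 * (n : ℝ) ^ 3 * m * 4 ^ n / 2 ^ m
          ≤ 10 * (n : ℝ) ^ 3 * m * (16 * n * L) / 2 ^ m := by gcongr
        _ = (160 * (n : ℝ) ^ 5 * m / 2 ^ m) / n * L := by
          field_simp
          ring
        _ ≤ ε / 4 / n * L := by gcongr
    have ha : 3 / (m : ℝ) ≤ 1 / 4 := by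
      rw [div_le_div_iff₀ hm0 (by norm_num)]
      linarith [show (12 : ℝ) ≤ 10 ^ 6 by norm_num]
    set a : ℝ := 3 / (m : ℝ) with ha'
    have ha0 : 0 ≤ a := by positivity
    set x : ℝ := 1 / (n : ℝ) with hx
    have hx0 : 0 < x := by positivity
    have hx1 : x ≤ 1 := by
      rw [hx, div_le_one (by linarith)]
      exact hn1
    have e5 : 3 / ((n : ℝ) * m) = a * x := by
      rw [ha', hx]
      field_simp
    have e6 : ε / 4 / n = ε / 4 * x := by
      rw [hx]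
      field_simp
    have e7 : ε / n = ε * x := by
      rw [hx]
      field_simp
    rw [e5] at hv
    rw [e6] at h10
    rw [e7]
    have hax : a * x ≤ 1 / 4 := by nlinarith
    have hpos : 0 < 1 - a * x := by linarith
    have key : 1 + ε / 4 * x ≤ (1 - a * x) * (1 + ε * x) := by
      have k1 : a * x ≤ ε / 4 * x := mul_le_mul_of_nonneg_right hC hx0.le
      have k2 : a * x * (ε * x) ≤ 1 / 4 * (ε * x) :=
        mul_le_mul_of_nonneg_right hax (by positivity)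
      have k3 : 0 ≤ ε * x := by positivity
      nlinarith
    have fin : (1 - a * x) * v ≤ (1 - a * x) * ((1 + ε * x) * L) := by
      calc (1 - a * x) * v ≤ L + ε / 4 * x * L := by linarith
        _ = (1 + ε / 4 * x) * L := by ring
        _ ≤ (1 - a * x) * (1 + ε * x) * L := mul_le_mul_of_nonneg_right key hL0
        _ = _ := by ring
    exact le_of_mul_le_mul_left fin hpos

theorem tuza_gap {n : ℕ} (hn : 2 ≤ n) :
    (1 + (1 / 2 : ℝ) / n) * (((2 * n - 2).choose (n - 1) : ℝ) / 2)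
      < 2 * ((2 * n - 4).choose (n - 2) : ℝ) := by
  obtain ⟨r, rfl⟩ : ∃ r, n = r + 2 := ⟨n - 2, by omega⟩
  have h := Nat.succ_mul_centralBinom_succ r
  rw [Nat.centralBinom_eq_two_mul_choose, Nat.centralBinom_eq_two_mul_choose] at h
  have e1 : 2 * (r + 2) - 2 = 2 * (r + 1) := by omega
  have e2 : r + 2 - 1 = r + 1 := by omega
  have e3 : 2 * (r + 2) - 4 = 2 * r := by omega
  have e4 : r + 2 - 2 = r := by omega
  rw [e1, e2, e3, e4]
  have hc : (0 : ℝ) < ((2 * r).choose r : ℝ) := by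
    exact_mod_cast Nat.choose_pos (by omega)
  have h' : ((r : ℝ) + 1) * ((2 * (r + 1)).choose (r + 1) : ℝ)
      = 2 * (2 * r + 1) * ((2 * r).choose r : ℝ) := by exact_mod_cast h
  have hr : (0 : ℝ) ≤ r := Nat.cast_nonneg _
  have e5 : ((2 * (r + 1)).choose (r + 1) : ℝ)
      = 2 * (2 * r + 1) * ((2 * r).choose r : ℝ) / (r + 1) := by
    rw [← h']
    field_simp
  rw [e5]
  push_cast
  have e6 : (1 + (1 / 2 : ℝ) / (r + 2)) * (2 * (2 * r + 1) * ((2 * r).choose r : ℝ) / (r + 1) / 2)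
      = ((2 * r + 5) * (2 * r + 1) / (2 * (r + 2) * (r + 1))) * ((2 * r).choose r : ℝ) := by
    field_simp
    ring
  rw [e6]
  apply mul_lt_mul_of_pos_right _ hc
  rw [div_lt_iff₀ (by positivity)]
  nlinarith

end Pool.Agent.P.MP_c09308_co
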