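import Mathlib

namespace Pool.Agent.P.MP_c09308_co

open Finset

variable {V : Type*} [Fintype V] [LinearOrder V]

/-- The orderings that put all of `a` before all of `b`. -/
def Ev (a b : Finset V) : Finset (Equiv.Perm V) :=
  Finset.univ.filter fun σ => ∀ x ∈ a, ∀ y ∈ b, σ x < σ y

/-- Uniform probability of a set of orderings. -/
noncomputable def pr (G : Finset (Equiv.Perm V)) : ℝ :=
  (G.card : ℝ) / (Fintype.card (Equiv.Perm V) : ℝ)

theorem mem_Ev {a b : Finset V} {σ : Equiv.Perm V} :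
    σ ∈ Ev a b ↔ ∀ x ∈ a, ∀ y ∈ b, σ x < σ y := by
  simp [Ev]

theorem cardPerm_pos : (0 : ℝ) < (Fintype.card (Equiv.Perm V) : ℝ) := by
  exact_mod_cast Fintype.card_pos

theorem pr_nonneg (G : Finset (Equiv.Perm V)) : 0 ≤ pr G :=
  div_nonneg (Nat.cast_nonneg _) cardPerm_pos.le

theorem pr_empty : pr (∅ : Finset (Equiv.Perm V)) = 0 := by simp [pr]

theorem pr_mono {G H : Finset (Equiv.Perm V)} (h : G ⊆ H) : pr G ≤ pr H :=
  div_le_div_of_nonneg_right (by exact_mod_cast card_le_card h) cardPerm_pos.le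

theorem pr_union_le (G H : Finset (Equiv.Perm V)) : pr (G ∪ H) ≤ pr G + pr H := by
  unfold pr
  rw [← add_div]
  exact div_le_div_of_nonneg_right (by exact_mod_cast card_union_le G H) cardPerm_pos.le

theorem pr_sdiff_add_inter (G H : Finset (Equiv.Perm V)) : pr (G \ H) + pr (G ∩ H) = pr G := by
  unfold pr
  rw [← add_div]
  congr 1
  exact_mod_cast card_sdiff_add_card_inter G H

theorem pr_biUnion_le {ι : Type*} (I : Finset ι) (G : ι → Finset (Equiv.Perm V)) :
    pr (I.biUnion G) ≤ ∑ i ∈ I, pr (G i) := by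
  unfold pr
  rw [← sum_div]
  exact div_le_div_of_nonneg_right (by exact_mod_cast card_biUnion_le) cardPerm_pos.le

/-- A set covered by finitely many events has at most the total probability. -/
theorem pr_le_sum_of_cover {ι : Type*} (I : Finset ι) (G : ι → Finset (Equiv.Perm V))
    (H : Finset (Equiv.Perm V)) (h : ∀ σ ∈ H, ∃ i ∈ I, σ ∈ G i) :
    pr H ≤ ∑ i ∈ I, pr (G i) :=
  (pr_mono fun σ hσ => mem_biUnion.2 (h σ hσ)).trans (pr_biUnion_le I G)

/-- A pointwise bound on a weighted count of occurring events gives the bound in expectation. -/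
theorem sum_pr_le_of_pointwise {ι : Type*} (I : Finset ι) (G : ι → Finset (Equiv.Perm V))
    (c : ι → ℝ) (C : ℝ) (h : ∀ σ, ∑ i ∈ I, (if σ ∈ G i then c i else 0) ≤ C) :
    ∑ i ∈ I, c i * pr (G i) ≤ C := by
  have h1 : ∀ i, c i * ((G i).card : ℝ) = ∑ σ : Equiv.Perm V, (if σ ∈ G i then c i else 0) := by
    intro i
    rw [← sum_filter]
    simp [mul_comm]
  have h2 : ∑ i ∈ I, c i * ((G i).card : ℝ) ≤ C * Fintype.card (Equiv.Perm V) := by
    simp_rw [h1]
    rw [sum_comm]
    calc _ ≤ ∑ _σ : Equiv.Perm V, C := sum_le_sum fun σ _ => h σ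
      _ = _ := by simp [mul_comm]
  unfold pr
  simp_rw [← mul_div_assoc]
  rw [← sum_div, div_le_iff₀ cardPerm_pos]
  exact h2

/-- Pairwise disjoint events inside `H` have total probability at most that of `H`. -/
theorem sum_pr_le_of_disjoint {ι : Type*} (I : Finset ι) (G : ι → Finset (Equiv.Perm V))
    (H : Finset (Equiv.Perm V)) (hd : ∀ i ∈ I, ∀ j ∈ I, i ≠ j → Disjoint (G i) (G j))
    (hH : ∀ i ∈ I, G i ⊆ H) : ∑ i ∈ I, pr (G i) ≤ pr H := by
  unfold pr
  rw [← sum_div]
  refine div_le_div_of_nonneg_right ?_ cardPerm_pos.le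
  have h1 : (I.biUnion G).card = ∑ i ∈ I, (G i).card :=
    card_biUnion fun i hi j hj hij => hd i hi j hj hij
  have h2 : (I.biUnion G).card ≤ H.card := card_le_card (biUnion_subset.2 hH)
  exact_mod_cast h1 ▸ h2

theorem pr_le_one (G : Finset (Equiv.Perm V)) : pr G ≤ 1 := by
  unfold pr
  rw [div_le_one cardPerm_pos]
  exact_mod_cast card_le_univ G

theorem Ev_anti {a b a' b' : Finset V} (ha : a ⊆ a') (hb : b ⊆ b') : Ev a' b' ⊆ Ev a b :=
  fun _ h => mem_Ev.2 fun x hx y hy => mem_Ev.1 h x (ha hx) y (hb hy)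

theorem disjoint_of_mem_Ev {a b : Finset V} {σ : Equiv.Perm V} (h : σ ∈ Ev a b) :
    Disjoint a b :=
  disjoint_left.2 fun x hx hy => lt_irrefl _ (mem_Ev.1 h x hx x hy)

/-- Two events that occur together have one pair of opposite sides disjoint. -/
theorem co_occur {a b a' b' : Finset V} {σ : Equiv.Perm V} (h : σ ∈ Ev a b)
    (h' : σ ∈ Ev a' b') : Disjoint a b' ∨ Disjoint a' b := by
  by_contra hc
  rw [not_or, not_disjoint_iff, not_disjoint_iff] at hc
  obtain ⟨⟨x, hx, hx'⟩, ⟨y, hy, hy'⟩⟩ := hc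
  exact lt_asymm (mem_Ev.1 h x hx y hy') (mem_Ev.1 h' y hy x hx')

/-- The number of orderings depends only on the sizes of the two sides. -/
theorem card_Ev_le_of_card_eq {a b a' b' : Finset V} (h : Disjoint a b) (h' : Disjoint a' b')
    (ha : a'.card = a.card) (hb : b'.card = b.card) : (Ev a b).card ≤ (Ev a' b').card := by
  let e₁ : a' ≃ a := Fintype.equivOfCardEq (by simpa using ha)
  let e₂ : b' ≃ b := Fintype.equivOfCardEq (by simpa using hb)
  have hf : Function.Injective (Sum.elim (fun x : a' => (x : V)) (fun y : b' => (y : V))) := by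
    refine Function.Injective.sumElim Subtype.val_injective Subtype.val_injective ?_
    intro x y hxy
    exact disjoint_left.1 h' x.2 (hxy ▸ y.2)
  have hg : Function.Injective
      (Sum.elim (fun x : a' => (e₁ x : V)) (fun y : b' => (e₂ y : V))) := by
    refine Function.Injective.sumElim (Subtype.val_injective.comp e₁.injective)
      (Subtype.val_injective.comp e₂.injective) ?_
    intro x y hxy
    exact disjoint_left.1 h (e₁ x).2 (hxy ▸ (e₂ y).2)
  obtain ⟨π, hπ⟩ := Equiv.Perm.exists_extending_pair _ _ hf hg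
  refine card_le_card_of_injOn (fun σ => σ * π) ?_ ?_
  · intro σ hσ
    rw [mem_coe, mem_Ev] at hσ ⊢
    intro x hx y hy
    have h1 : π x = e₁ ⟨x, hx⟩ := hπ (Sum.inl ⟨x, hx⟩)
    have h2 : π y = e₂ ⟨y, hy⟩ := hπ (Sum.inr ⟨y, hy⟩)
    simp only [Equiv.Perm.coe_mul, Function.comp_apply, h1, h2]
    exact hσ _ (e₁ _).2 _ (e₂ _).2
  · intro σ _ τ _ hστ
    exact mul_right_cancel hστ

theorem exists_initial (U : Finset V) (σ : Equiv.Perm V) :
    ∀ k ≤ U.card, ∃ a ⊆ U, a.card = k ∧ σ ∈ Ev a (U \ a) := by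
  intro k
  induction k with
  | zero => exact fun _ => ⟨∅, empty_subset _, rfl, mem_Ev.2 (by simp)⟩
  | succ k ih =>
    intro hk
    obtain ⟨a, haU, hac, hσ⟩ := ih (by omega)
    have hne : (U \ a).Nonempty := by
      rw [← card_pos, card_sdiff_of_subset haU]
      omega
    obtain ⟨w, hw, hmin⟩ := exists_min_image (U \ a) σ hne
    rw [mem_sdiff] at hw
    refine ⟨insert w a, insert_subset hw.1 haU, by rw [card_insert_of_notMem hw.2, hac], ?_⟩
    rw [mem_Ev] at hσ ⊢
    intro x hx y hy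
    rw [mem_sdiff, mem_insert, not_or] at hy
    have hy' : y ∈ U \ a := mem_sdiff.2 ⟨hy.1, hy.2.2⟩
    rcases mem_insert.1 hx with rfl | hx
    · exact lt_of_le_of_ne (hmin y hy') fun h => hy.2.1 (σ.injective h).symm
    · exact hσ x hx y hy'

theorem initial_unique {U a a' : Finset V} {σ : Equiv.Perm V} (ha : a ⊆ U) (ha' : a' ⊆ U)
    (hc : a.card = a'.card) (h : σ ∈ Ev a (U \ a)) (h' : σ ∈ Ev a' (U \ a')) : a = a' := by
  rcases co_occur h h' with hd | hd
  · refine eq_of_subset_of_card_le (fun x hx => ?_) hc.ge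
    by_contra hx'
    exact disjoint_left.1 hd hx (mem_sdiff.2 ⟨ha hx, hx'⟩)
  · refine (eq_of_subset_of_card_le (fun x hx => ?_) hc.le).symm
    by_contra hx'
    exact disjoint_left.1 hd hx (mem_sdiff.2 ⟨ha' hx, hx'⟩)

theorem card_Ev_mul {a b : Finset V} (h : Disjoint a b) :
    (a.card + b.card).choose a.card * (Ev a b).card = Fintype.card (Equiv.Perm V) := by
  set U := a ∪ b with hU
  have hUc : U.card = a.card + b.card := card_union_of_disjoint h
  have h1 : ∀ s ∈ powersetCard a.card U, (Ev s (U \ s)).card = (Ev a b).card := by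
    intro s hs
    rw [mem_powersetCard] at hs
    have hc : (U \ s).card = b.card := by rw [card_sdiff_of_subset hs.1]; omega
    exact le_antisymm (card_Ev_le_of_card_eq disjoint_sdiff h hs.2.symm hc.symm)
      (card_Ev_le_of_card_eq h disjoint_sdiff hs.2 hc)
  have h2 : (powersetCard a.card U).biUnion (fun s => Ev s (U \ s)) = univ := by
    refine eq_univ_of_forall fun σ => ?_
    obtain ⟨s, hs, hc, hσ⟩ := exists_initial U σ a.card (by omega)
    exact mem_biUnion.2 ⟨s, mem_powersetCard.2 ⟨hs, hc⟩, hσ⟩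
  have h3 := card_biUnion (s := powersetCard a.card U) (t := fun s => Ev s (U \ s)) (by
    intro s hs s' hs' hne
    rw [mem_coe, mem_powersetCard] at hs hs'
    exact disjoint_left.2 fun σ h1 h2 =>
      hne (initial_unique hs.1 hs'.1 (hs.2.trans hs'.2.symm) h1 h2))
  rw [h2, sum_congr rfl h1, sum_const, card_powersetCard, hUc, smul_eq_mul, card_univ] at h3
  exact h3.symm

theorem pr_Ev {a b : Finset V} (h : Disjoint a b) :
    pr (Ev a b) = 1 / ((a.card + b.card).choose a.card : ℝ) := by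
  have h1 : (0 : ℝ) < ((a.card + b.card).choose a.card : ℝ) := by
    exact_mod_cast Nat.choose_pos (Nat.le_add_right _ _)
  unfold pr
  rw [div_eq_div_iff cardPerm_pos.ne' h1.ne', one_mul, mul_comm]
  exact_mod_cast card_Ev_mul h

theorem choose_add_mono {s t s' t' : ℕ} (hs : s ≤ s') (ht : t ≤ t') :
    (s + t).choose s ≤ (s' + t').choose s' :=
  calc (s + t).choose s ≤ (s + t').choose s := Nat.choose_le_choose _ (by omega)
    _ = (s + t').choose t' := Nat.choose_symm_add
    _ ≤ (s' + t').choose t' := Nat.choose_le_choose _ (by omega)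
    _ = (s' + t').choose s' := Nat.choose_symm_add.symm

theorem pr_Ev_le {a b : Finset V} {s t : ℕ} (hs : s ≤ a.card) (ht : t ≤ b.card) :
    pr (Ev a b) ≤ 1 / ((s + t).choose s : ℝ) := by
  by_cases h : Disjoint a b
  · rw [pr_Ev h]
    refine one_div_le_one_div_of_le ?_ ?_
    · exact_mod_cast Nat.choose_pos (Nat.le_add_right _ _)
    · exact_mod_cast choose_add_mono hs ht
  · have : Ev a b = ∅ := eq_empty_of_forall_notMem fun σ hσ => h (disjoint_of_mem_Ev hσ)
    rw [this, pr_empty]
    positivity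

theorem pr_Ev_ge {a b : Finset V} (h : Disjoint a b) {s t : ℕ} (hs : a.card ≤ s)
    (ht : b.card ≤ t) : 1 / ((s + t).choose s : ℝ) ≤ pr (Ev a b) := by
  rw [pr_Ev h]
  refine one_div_le_one_div_of_le ?_ ?_
  · exact_mod_cast Nat.choose_pos (Nat.le_add_right _ _)
  · exact_mod_cast choose_add_mono hs ht

omit [Fintype V] [LinearOrder V] in
theorem card_low_rank {W : Type*} [LinearOrder W] (f : V → W) (hf : Function.Injective f)
    (Γ : Finset V) (k : ℕ) :
    (Γ.filter fun u => (Γ.filter fun v => f v < f u).card < k).card ≤ k := by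
  have hlt : ∀ u ∈ Γ, ∀ u' ∈ Γ, f u < f u' →
      (Γ.filter fun v => f v < f u).card < (Γ.filter fun v => f v < f u').card := by
    intro u hu u' _ h
    refine card_lt_card ⟨fun v hv => ?_, fun hsub => ?_⟩
    · rw [mem_filter] at hv ⊢
      exact ⟨hv.1, hv.2.trans h⟩
    · exact lt_irrefl _ (mem_filter.1 (hsub (mem_filter.2 ⟨hu, h⟩))).2
  calc _ ≤ (range k).card := by
        refine card_le_card_of_injOn (fun u => (Γ.filter fun v => f v < f u).card) ?_ ?_
        · intro u hu
          rw [mem_coe, mem_filter] at hu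
          exact mem_coe.2 (mem_range.2 hu.2)
        · intro u hu u' hu' h
          rw [mem_coe, mem_filter] at hu hu'
          rcases lt_trichotomy (f u) (f u') with h1 | h1 | h1
          · exact absurd h (hlt u hu.1 u' hu'.1 h1).ne
          · exact hf h1
          · exact absurd h (hlt u' hu'.1 u hu.1 h1).ne'
    _ = k := card_range k

omit [Fintype V] in
theorem rank_count {W : Type*} [LinearOrder W] (φ : V → W) (hφ : Function.Injective φ)
    (G : Finset (Equiv.Perm V)) (Γ : Finset V)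
    (hG : ∀ σ ∈ G, ∀ u ∈ Γ, ∀ u' ∈ Γ, σ * Equiv.swap u u' ∈ G) {u : V} (hu : u ∈ Γ) (k : ℕ) :
    (G.filter fun σ => (Γ.filter fun v => φ (σ v) < φ (σ u)).card < k).card * Γ.card
      ≤ k * G.card := by
  have h1 : ∀ u' ∈ Γ, (G.filter fun σ => (Γ.filter fun v => φ (σ v) < φ (σ u)).card < k).card
      ≤ (G.filter fun σ => (Γ.filter fun v => φ (σ v) < φ (σ u')).card < k).card := by
    intro u' hu'
    refine card_le_card_of_injOn (fun σ => σ * Equiv.swap u u') ?_ ?_
    · intro σ hσ
      rw [mem_coe, mem_filter] at hσ ⊢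
      refine ⟨hG σ hσ.1 u hu u' hu', lt_of_le_of_lt ?_ hσ.2⟩
      refine card_le_card_of_injOn (Equiv.swap u u') ?_ (Equiv.injective _).injOn
      intro v hv
      rw [mem_coe, mem_filter] at hv ⊢
      refine ⟨?_, by simpa using hv.2⟩
      rw [Equiv.swap_apply_def]
      split_ifs
      · exact hu'
      · exact hu
      · exact hv.1
    · intro σ _ τ _ hστ
      exact mul_right_cancel hστ
  calc _ = ∑ _u' ∈ Γ,
        (G.filter fun σ => (Γ.filter fun v => φ (σ v) < φ (σ u)).card < k).card := by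
        rw [sum_const, smul_eq_mul, mul_comm]
    _ ≤ ∑ u' ∈ Γ, (G.filter fun σ => (Γ.filter fun v => φ (σ v) < φ (σ u')).card < k).card :=
        sum_le_sum h1
    _ = ∑ σ ∈ G, (Γ.filter fun u' => (Γ.filter fun v => φ (σ v) < φ (σ u')).card < k).card := by
        simp_rw [card_filter]
        exact sum_comm
    _ ≤ ∑ _σ ∈ G, k :=
        sum_le_sum fun σ _ => card_low_rank (fun v => φ (σ v)) (hφ.comp σ.injective) Γ k
    _ = k * G.card := by rw [sum_const, smul_eq_mul, mul_comm]

omit [Fintype V] in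
theorem swap_mem_of {s : Finset V} {u u' x : V} (hu : u ∈ s) (hu' : u' ∈ s) (hx : x ∈ s) :
    Equiv.swap u u' x ∈ s := by
  rw [Equiv.swap_apply_def]
  split_ifs
  · exact hu'
  · exact hu
  · exact hx

theorem pr_mul_le_of_card {G H : Finset (Equiv.Perm V)} {s k : ℕ}
    (h : G.card * s ≤ k * H.card) : pr G * s ≤ k * pr H := by
  unfold pr
  rw [div_mul_eq_mul_div, ← mul_div_assoc]
  exact div_le_div_of_nonneg_right (by exact_mod_cast h) cardPerm_pos.le

/-- Given `a` before `b`, a fixed point of `b` is among the first `k` of `b` with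
conditional probability at most `k / |b|`. -/
theorem rank_right {a b : Finset V} {u : V} (hu : u ∈ b) (k : ℕ) :
    pr ((Ev a b).filter fun σ => (b.filter fun v => σ v < σ u).card < k) * b.card
      ≤ k * pr (Ev a b) := by
  refine pr_mul_le_of_card (rank_count id Function.injective_id (Ev a b) b ?_ hu k)
  intro σ hσ w hw w' hw'
  have hd := disjoint_of_mem_Ev hσ
  rw [mem_Ev] at hσ ⊢
  intro x hx y hy
  have hx' : Equiv.swap w w' x = x :=
    Equiv.swap_apply_of_ne_of_ne (fun h => disjoint_left.1 hd hx (h ▸ hw))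
      (fun h => disjoint_left.1 hd hx (h ▸ hw'))
  simp only [Equiv.Perm.coe_mul, Function.comp_apply, hx']
  exact hσ x hx _ (swap_mem_of hw hw' hy)

/-- Given `a` before `b`, a fixed point of `a` is among the last `k` of `a` with
conditional probability at most `k / |a|`. -/
theorem rank_left {a b : Finset V} {u : V} (hu : u ∈ a) (k : ℕ) :
    pr ((Ev a b).filter fun σ => (a.filter fun v => σ u < σ v).card < k) * a.card
      ≤ k * pr (Ev a b) := by
  refine pr_mul_le_of_card
    (rank_count OrderDual.toDual OrderDual.toDual.injective (Ev a b) a ?_ hu k)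
  intro σ hσ w hw w' hw'
  have hd := disjoint_of_mem_Ev hσ
  rw [mem_Ev] at hσ ⊢
  intro x hx y hy
  have hy' : Equiv.swap w w' y = y :=
    Equiv.swap_apply_of_ne_of_ne (fun h => disjoint_left.1 hd hw (h ▸ hy))
      (fun h => disjoint_left.1 hd hw' (h ▸ hy))
  simp only [Equiv.Perm.coe_mul, Function.comp_apply, hy']
  exact hσ _ (swap_mem_of hw hw' hx) y hy

theorem inter_subset_right_union {a b a' b' : Finset V} :
    Ev a b ∩ Ev a' b' ⊆ Ev a (b ∪ b') ∪ Ev a' (b ∪ b') := by
  intro σ hσ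
  rw [mem_inter, mem_Ev, mem_Ev] at hσ
  rw [mem_union, mem_Ev, mem_Ev]
  by_contra hc
  push Not at hc
  obtain ⟨⟨x, hx, y, hy, hxy⟩, ⟨x', hx', y', hy', hxy'⟩⟩ := hc
  have h1 : y ∈ b' := by
    rcases mem_union.1 hy with h | h
    · exact absurd (hσ.1 x hx y h) (not_lt.2 hxy)
    · exact h
  have h2 : y' ∈ b := by
    rcases mem_union.1 hy' with h | h
    · exact h
    · exact absurd (hσ.2 x' hx' y' h) (not_lt.2 hxy')
  exact lt_irrefl _ (((hσ.1 x hx y' h2).trans_le hxy').trans ((hσ.2 x' hx' y h1).trans_le hxy))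

theorem inter_subset_left_union {a b a' b' : Finset V} :
    Ev a b ∩ Ev a' b' ⊆ Ev (a ∪ a') b ∪ Ev (a ∪ a') b' := by
  intro σ hσ
  rw [mem_inter, mem_Ev, mem_Ev] at hσ
  rw [mem_union, mem_Ev, mem_Ev]
  by_contra hc
  push Not at hc
  obtain ⟨⟨x, hx, y, hy, hxy⟩, ⟨x', hx', y', hy', hxy'⟩⟩ := hc
  have h1 : x ∈ a' := by
    rcases mem_union.1 hx with h | h
    · exact absurd (hσ.1 x h y hy) (not_lt.2 hxy)
    · exact h
  have h2 : x' ∈ a := by
    rcases mem_union.1 hx' with h | h
    · exact h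
    · exact absurd (hσ.2 x' h y' hy') (not_lt.2 hxy')
  exact lt_irrefl _ (((hσ.1 x' h2 y hy).trans_le hxy).trans ((hσ.2 x h1 y' hy').trans_le hxy'))

/-- Two events whose right sides differ in many points rarely occur together. -/
theorem far_right {a b a' b' : Finset V} {k l : ℕ} (ha : k ≤ a.card) (ha' : k ≤ a'.card)
    (hb' : k ≤ b'.card) (hl : l ≤ (b \ b').card) :
    pr (Ev a b ∩ Ev a' b') ≤ 2 / ((k + (k + l)).choose k : ℝ) := by
  have hc : k + l ≤ (b ∪ b').card := by
    rw [← card_sdiff_add_card]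
    omega
  have h1 := pr_Ev_le ha hc
  have h2 := pr_Ev_le ha' hc
  have h3 := (pr_mono (inter_subset_right_union (a := a) (b := b) (a' := a') (b' := b'))).trans
    (pr_union_le _ _)
  calc _ ≤ 1 / ((k + (k + l)).choose k : ℝ) + 1 / ((k + (k + l)).choose k : ℝ) := by linarith
    _ = _ := by ring

/-- Two events whose left sides differ in many points rarely occur together. -/
theorem far_left {a b a' b' : Finset V} {k l : ℕ} (hb : k ≤ b.card) (ha' : k ≤ a'.card)
    (hb' : k ≤ b'.card) (hl : l ≤ (a \ a').card) :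
    pr (Ev a b ∩ Ev a' b') ≤ 2 / ((k + (k + l)).choose k : ℝ) := by
  have hc : k + l ≤ (a ∪ a').card := by
    rw [← card_sdiff_add_card]
    omega
  have h1 := pr_Ev_le hc hb
  have h2 := pr_Ev_le hc hb'
  have h4 : (k + l + k).choose (k + l) = (k + (k + l)).choose k := by
    rw [Nat.choose_symm_add, add_comm]
  rw [h4] at h1 h2
  have h3 := (pr_mono (inter_subset_left_union (a := a) (b := b) (a' := a') (b' := b'))).trans
    (pr_union_le _ _)
  calc _ ≤ 1 / ((k + (k + l)).choose k : ℝ) + 1 / ((k + (k + l)).choose k : ℝ) := by linarith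
    _ = _ := by ring

end Pool.Agent.P.MP_c09308_co
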