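import Mathlib
import Pool.Agent.P.MP_c09308_co.Perm
import Pool.Agent.P.MP_c09308_co.Num

namespace Pool.Agent.P.MP_c09308_co

open Finset

variable {V : Type*} [Fintype V] [LinearOrder V]

/-- The first point of `b` lies in `b'` and the last point of `a` lies in `a'`. -/
def Agree (a b a' b' : Finset V) (σ : Equiv.Perm V) : Prop :=
  (∃ u ∈ b ∩ b', ∀ v ∈ b, σ u ≤ σ v) ∧ (∃ w ∈ a ∩ a', ∀ v ∈ a, σ v ≤ σ w)

open Classical in
/-- The clean portion of the event `i`: every occurring event agrees with it at the cut. -/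
noncomputable def Cl {ι : Type*} (E : Finset ι) (α β : ι → Finset V) (i : ι) :
    Finset (Equiv.Perm V) :=
  (Ev (α i) (β i)).filter fun σ =>
    ∀ j ∈ E, σ ∈ Ev (α j) (β j) → Agree (α i) (β i) (α j) (β j) σ

theorem mem_Cl {ι : Type*} {E : Finset ι} {α β : ι → Finset V} {i : ι} {σ : Equiv.Perm V} :
    σ ∈ Cl E α β i ↔ σ ∈ Ev (α i) (β i) ∧
      ∀ j ∈ E, σ ∈ Ev (α j) (β j) → Agree (α i) (β i) (α j) (β j) σ := by
  simp [Cl]

theorem Cl_subset {ι : Type*} (E : Finset ι) (α β : ι → Finset V) (i : ι) :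
    Cl E α β i ⊆ Ev (α i) (β i) := fun _ h => (mem_Cl.1 h).1

omit [Fintype V] in
theorem Agree.left {a b a' b' : Finset V} {σ : Equiv.Perm V} (h : Agree a b a' b' σ) :
    (a ∩ a').Nonempty := by
  obtain ⟨_, w, hw, _⟩ := h
  exact ⟨w, hw⟩

omit [Fintype V] in
theorem Agree.right {a b a' b' : Finset V} {σ : Equiv.Perm V} (h : Agree a b a' b' σ) :
    (b ∩ b').Nonempty := by
  obtain ⟨⟨u, hu, _⟩, _⟩ := h
  exact ⟨u, hu⟩

theorem Agree.mem_left {a b a' b' : Finset V} {σ : Equiv.Perm V} (h : Agree a b a' b' σ)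
    (h' : σ ∈ Ev a' b') : σ ∈ Ev a' b := by
  obtain ⟨⟨u, hu, hmin⟩, _⟩ := h
  exact mem_Ev.2 fun x hx y hy => (mem_Ev.1 h' x hx u (mem_inter.1 hu).2).trans_le (hmin y hy)

theorem Agree.mem_right {a b a' b' : Finset V} {σ : Equiv.Perm V} (h : Agree a b a' b' σ)
    (h' : σ ∈ Ev a' b') : σ ∈ Ev a b' := by
  obtain ⟨_, w, hw, hmax⟩ := h
  exact mem_Ev.2 fun x hx y hy => (hmax x hx).trans_lt (mem_Ev.1 h' w (mem_inter.1 hw).2 y hy)

omit [Fintype V] in
theorem agree_self {a b : Finset V} (ha : a.Nonempty) (hb : b.Nonempty) (σ : Equiv.Perm V) :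
    Agree a b a b σ := by
  obtain ⟨u, hu, hmin⟩ := exists_min_image b σ hb
  obtain ⟨w, hw, hmax⟩ := exists_max_image a σ ha
  exact ⟨⟨u, mem_inter.2 ⟨hu, hu⟩, hmin⟩, w, mem_inter.2 ⟨hw, hw⟩, hmax⟩

theorem pp_le_pr {n : ℕ} {a b : Finset V} (h : Disjoint a b) (ha : a.card ≤ n - 1)
    (hb : b.card ≤ n - 1) : pp n ≤ pr (Ev a b) := by
  have := pr_Ev_ge h ha hb
  rwa [show n - 1 + (n - 1) = 2 * n - 2 by omega] at this

open Classical in
theorem unclean_right {n k l : ℕ} {η : ℝ} (hk : 1 ≤ k)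
    (hη : 1 / ((k + (k + l)).choose k : ℝ) ≤ η * pp n) {a b a' b' : Finset V}
    (hp : pp n ≤ pr (Ev a b)) (ha : k ≤ a.card) (hb : k ≤ b.card) (ha' : k ≤ a'.card)
    (hb' : k ≤ b'.card) :
    pr ((Ev a b ∩ Ev a' b').filter fun σ => ¬ ∃ u ∈ b ∩ b', ∀ v ∈ b, σ u ≤ σ v)
      ≤ (l / k + 2 * η) * pr (Ev a b) := by
  have hk' : (0 : ℝ) < k := by exact_mod_cast hk
  have hc : (0 : ℝ) < ((k + (k + l)).choose k : ℝ) := by
    exact_mod_cast Nat.choose_pos (Nat.le_add_right _ _)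
  have hη0 : 0 ≤ η := by
    by_contra hneg
    have := mul_neg_of_neg_of_pos (not_le.1 hneg) (pp_pos n)
    have h2 : (0 : ℝ) < 1 / ((k + (k + l)).choose k : ℝ) := by positivity
    linarith
  have hE := pr_nonneg (Ev a b)
  by_cases hl : l ≤ (b \ b').card
  · have h1 := far_right (b := b) ha ha' hb' hl
    have h2 : (2 : ℝ) / ((k + (k + l)).choose k : ℝ) = 2 * (1 / ((k + (k + l)).choose k : ℝ)) := by
      ring
    have h3 : η * pp n ≤ η * pr (Ev a b) := mul_le_mul_of_nonneg_left hp hη0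
    have h4 : 0 ≤ (l : ℝ) / k * pr (Ev a b) := by positivity
    calc _ ≤ pr (Ev a b ∩ Ev a' b') := pr_mono (filter_subset _ _)
      _ ≤ _ := by nlinarith
  · have hbne : b.Nonempty := card_pos.1 (by omega)
    have hbk : (k : ℝ) ≤ b.card := by exact_mod_cast hb
    have h1 := pr_le_sum_of_cover (b \ b')
      (fun u => (Ev a b).filter fun σ => (b.filter fun v => σ v < σ u).card < 1)
      ((Ev a b ∩ Ev a' b').filter fun σ => ¬ ∃ u ∈ b ∩ b', ∀ v ∈ b, σ u ≤ σ v) (by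
        intro σ hσ
        rw [mem_filter, mem_inter] at hσ
        obtain ⟨u, hu, hmin⟩ := exists_min_image b σ hbne
        refine ⟨u, mem_sdiff.2 ⟨hu, fun hu' => hσ.2 ⟨u, mem_inter.2 ⟨hu, hu'⟩, hmin⟩⟩, ?_⟩
        rw [mem_filter, Nat.lt_one_iff, card_eq_zero, filter_eq_empty_iff]
        exact ⟨hσ.1.1, fun v hv => not_lt.2 (hmin v hv)⟩)
    have h2 : ∀ u ∈ b \ b',
        pr ((Ev a b).filter fun σ => (b.filter fun v => σ v < σ u).card < 1)
          ≤ pr (Ev a b) / k := by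
      intro u hu
      have h3 := rank_right (a := a) (mem_sdiff.1 hu).1 1
      rw [le_div_iff₀ hk']
      have h4 := mul_le_mul_of_nonneg_left hbk
        (pr_nonneg ((Ev a b).filter fun σ => (b.filter fun v => σ v < σ u).card < 1))
      simpa using h4.trans h3
    have h3 := h1.trans (sum_le_sum h2)
    rw [sum_const, nsmul_eq_mul] at h3
    have h4 : ((b \ b').card : ℝ) ≤ l := by exact_mod_cast (not_le.1 hl).le
    have h5 : ((b \ b').card : ℝ) * (pr (Ev a b) / k) ≤ l * (pr (Ev a b) / k) :=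
      mul_le_mul_of_nonneg_right h4 (by positivity)
    have h6 : (l : ℝ) * (pr (Ev a b) / k) = l / k * pr (Ev a b) := by ring
    nlinarith [mul_nonneg hη0 hE]

open Classical in
theorem unclean_left {n k l : ℕ} {η : ℝ} (hk : 1 ≤ k)
    (hη : 1 / ((k + (k + l)).choose k : ℝ) ≤ η * pp n) {a b a' b' : Finset V}
    (hp : pp n ≤ pr (Ev a b)) (ha : k ≤ a.card) (hb : k ≤ b.card) (ha' : k ≤ a'.card)
    (hb' : k ≤ b'.card) :
    pr ((Ev a b ∩ Ev a' b').filter fun σ => ¬ ∃ w ∈ a ∩ a', ∀ v ∈ a, σ v ≤ σ w)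
      ≤ (l / k + 2 * η) * pr (Ev a b) := by
  have hk' : (0 : ℝ) < k := by exact_mod_cast hk
  have hc : (0 : ℝ) < ((k + (k + l)).choose k : ℝ) := by
    exact_mod_cast Nat.choose_pos (Nat.le_add_right _ _)
  have hη0 : 0 ≤ η := by
    by_contra hneg
    have := mul_neg_of_neg_of_pos (not_le.1 hneg) (pp_pos n)
    have h2 : (0 : ℝ) < 1 / ((k + (k + l)).choose k : ℝ) := by positivity
    linarith
  have hE := pr_nonneg (Ev a b)
  by_cases hl : l ≤ (a \ a').card
  · have h1 := far_left (a := a) hb ha' hb' hl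
    have h2 : (2 : ℝ) / ((k + (k + l)).choose k : ℝ) = 2 * (1 / ((k + (k + l)).choose k : ℝ)) := by
      ring
    have h3 : η * pp n ≤ η * pr (Ev a b) := mul_le_mul_of_nonneg_left hp hη0
    have h4 : 0 ≤ (l : ℝ) / k * pr (Ev a b) := by positivity
    calc _ ≤ pr (Ev a b ∩ Ev a' b') := pr_mono (filter_subset _ _)
      _ ≤ _ := by nlinarith
  · have hane : a.Nonempty := card_pos.1 (by omega)
    have hak : (k : ℝ) ≤ a.card := by exact_mod_cast ha
    have h1 := pr_le_sum_of_cover (a \ a')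
      (fun u => (Ev a b).filter fun σ => (a.filter fun v => σ u < σ v).card < 1)
      ((Ev a b ∩ Ev a' b').filter fun σ => ¬ ∃ w ∈ a ∩ a', ∀ v ∈ a, σ v ≤ σ w) (by
        intro σ hσ
        rw [mem_filter, mem_inter] at hσ
        obtain ⟨u, hu, hmax⟩ := exists_max_image a σ hane
        refine ⟨u, mem_sdiff.2 ⟨hu, fun hu' => hσ.2 ⟨u, mem_inter.2 ⟨hu, hu'⟩, hmax⟩⟩, ?_⟩
        rw [mem_filter, Nat.lt_one_iff, card_eq_zero, filter_eq_empty_iff]
        exact ⟨hσ.1.1, fun v hv => not_lt.2 (hmax v hv)⟩)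
    have h2 : ∀ u ∈ a \ a',
        pr ((Ev a b).filter fun σ => (a.filter fun v => σ u < σ v).card < 1)
          ≤ pr (Ev a b) / k := by
      intro u hu
      have h3 := rank_left (b := b) (mem_sdiff.1 hu).1 1
      rw [le_div_iff₀ hk']
      have h4 := mul_le_mul_of_nonneg_left hak
        (pr_nonneg ((Ev a b).filter fun σ => (a.filter fun v => σ u < σ v).card < 1))
      simpa using h4.trans h3
    have h3 := h1.trans (sum_le_sum h2)
    rw [sum_const, nsmul_eq_mul] at h3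
    have h4 : ((a \ a').card : ℝ) ≤ l := by exact_mod_cast (not_le.1 hl).le
    have h5 : ((a \ a').card : ℝ) * (pr (Ev a b) / k) ≤ l * (pr (Ev a b) / k) :=
      mul_le_mul_of_nonneg_right h4 (by positivity)
    have h6 : (l : ℝ) * (pr (Ev a b) / k) = l / k * pr (Ev a b) := by ring
    nlinarith [mul_nonneg hη0 hE]

/-- Most of an event with few neighbours is clean. -/
theorem pr_Cl_ge {ι : Type*} {n k l R : ℕ} {η : ℝ} (hk : 1 ≤ k)
    (hη : 1 / ((k + (k + l)).choose k : ℝ) ≤ η * pp n) (E N : Finset ι) (α β : ι → Finset V)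
    (hα : ∀ j ∈ E, k ≤ (α j).card) (hβ : ∀ j ∈ E, k ≤ (β j).card) {i : ι} (hi : i ∈ E)
    (hp : pp n ≤ pr (Ev (α i) (β i))) (hNE : N ⊆ E) (hR : N.card ≤ R)
    (hN : ∀ j ∈ E, ∀ σ ∈ Ev (α i) (β i), σ ∈ Ev (α j) (β j) → j ∈ N) :
    (1 - R * (2 * l / k + 4 * η)) * pr (Ev (α i) (β i)) ≤ pr (Cl E α β i) := by
  classical
  have hk' : (0 : ℝ) < k := by exact_mod_cast hk
  have hc : (0 : ℝ) < ((k + (k + l)).choose k : ℝ) := by
    exact_mod_cast Nat.choose_pos (Nat.le_add_right _ _)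
  have hη0 : 0 ≤ η := by
    by_contra hneg
    have := mul_neg_of_neg_of_pos (not_le.1 hneg) (pp_pos n)
    have h2 : (0 : ℝ) < 1 / ((k + (k + l)).choose k : ℝ) := by positivity
    linarith
  have hE := pr_nonneg (Ev (α i) (β i))
  have h1 := pr_le_sum_of_cover N
    (fun j => ((Ev (α i) (β i) ∩ Ev (α j) (β j)).filter
        fun σ => ¬ ∃ u ∈ β i ∩ β j, ∀ v ∈ β i, σ u ≤ σ v) ∪
      ((Ev (α i) (β i) ∩ Ev (α j) (β j)).filter
        fun σ => ¬ ∃ w ∈ α i ∩ α j, ∀ v ∈ α i, σ v ≤ σ w))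
    (Ev (α i) (β i) \ Cl E α β i) (by
      intro σ hσ
      rw [mem_sdiff, mem_Cl, not_and] at hσ
      have h2 := hσ.2 hσ.1
      simp only [not_forall] at h2
      obtain ⟨j, hj, hσj, hna⟩ := h2
      refine ⟨j, hN j hj σ hσ.1 hσj, ?_⟩
      rw [mem_union, mem_filter, mem_filter, mem_inter]
      rcases not_and_or.1 hna with h | h
      · exact Or.inl ⟨⟨hσ.1, hσj⟩, h⟩
      · exact Or.inr ⟨⟨hσ.1, hσj⟩, h⟩)
  have h2 : pr (Ev (α i) (β i) \ Cl E α β i)
      ≤ ∑ _j ∈ N, (2 * l / k + 4 * η) * pr (Ev (α i) (β i)) := by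
    refine h1.trans (sum_le_sum fun j hj => (pr_union_le _ _).trans ?_)
    have h3 := unclean_right hk hη hp (hα i hi) (hβ i hi) (hα j (hNE hj)) (hβ j (hNE hj))
    have h4 := unclean_left hk hη hp (hα i hi) (hβ i hi) (hα j (hNE hj)) (hβ j (hNE hj))
    have h5 : (2 * l / k + 4 * η : ℝ) * pr (Ev (α i) (β i))
        = (l / k + 2 * η) * pr (Ev (α i) (β i)) + (l / k + 2 * η) * pr (Ev (α i) (β i)) := by
      ring
    rw [h5]
    exact add_le_add h3 h4
  rw [sum_const, nsmul_eq_mul] at h2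
  have h3 := pr_sdiff_add_inter (Ev (α i) (β i)) (Cl E α β i)
  rw [inter_eq_right.2 (Cl_subset E α β i)] at h3
  have h4 : (N.card : ℝ) * ((2 * l / k + 4 * η) * pr (Ev (α i) (β i)))
      ≤ R * ((2 * l / k + 4 * η) * pr (Ev (α i) (β i))) :=
    mul_le_mul_of_nonneg_right (by exact_mod_cast hR) (by positivity)
  nlinarith

theorem pr_insert_left {n k : ℕ} {a b : Finset V} {g : V} (h : Disjoint a b) (hg : g ∉ a)
    (ha : a.card + 1 ≤ n) (hb : k ≤ b.card) :
    pr (Ev (insert g a) b) * (n + k) ≤ n * pr (Ev a b) := by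
  have h1 := pr_Ev_le (a := insert g a) (b := b) (s := a.card + 1) (t := b.card)
    (by rw [card_insert_of_notMem hg]) le_rfl
  rw [pr_Ev h]
  have h2 := Nat.add_one_mul_choose_eq (a.card + b.card) a.card
  rw [show a.card + b.card + 1 = a.card + 1 + b.card by omega] at h2
  have h3 : (0 : ℝ) < ((a.card + b.card).choose a.card : ℝ) := by
    exact_mod_cast Nat.choose_pos (Nat.le_add_right _ _)
  have h4 : (0 : ℝ) < ((a.card + 1 + b.card).choose (a.card + 1) : ℝ) := by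
    exact_mod_cast Nat.choose_pos (Nat.le_add_right _ _)
  refine (mul_le_mul_of_nonneg_right h1 (by positivity)).trans ?_
  rw [one_div_mul_eq_div, mul_one_div, div_le_div_iff₀ h4 h3]
  have h5 : (n + k) * (a.card + b.card).choose a.card * (a.card + 1)
      ≤ n * (a.card + 1 + b.card).choose (a.card + 1) * (a.card + 1) := by
    rw [mul_assoc n, ← h2, ← mul_assoc, mul_right_comm]
    refine Nat.mul_le_mul_right _ ?_
    nlinarith [Nat.mul_le_mul ha hb]
  exact_mod_cast Nat.le_of_mul_le_mul_right h5 (Nat.succ_pos _)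

theorem pr_insert_right {n k : ℕ} {a b : Finset V} {g : V} (h : Disjoint a b) (hg : g ∉ b)
    (hb : b.card + 1 ≤ n) (ha : k ≤ a.card) :
    pr (Ev a (insert g b)) * (n + k) ≤ n * pr (Ev a b) := by
  by_cases hga : g ∈ a
  · have : Ev a (insert g b) = ∅ := eq_empty_of_forall_notMem fun σ hσ =>
      disjoint_left.1 (disjoint_of_mem_Ev hσ) hga (mem_insert_self _ _)
    rw [this, pr_empty, zero_mul]
    exact mul_nonneg (Nat.cast_nonneg _) (pr_nonneg _)
  · have h1 := pr_insert_left h.symm hg hb ha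
    have hd : Disjoint a (insert g b) := disjoint_insert_right.2 ⟨hga, h⟩
    rw [pr_Ev hd.symm, pr_Ev h.symm, Nat.choose_symm_add, add_comm (insert g b).card,
      Nat.choose_symm_add (a := b.card), add_comm b.card] at h1
    rw [pr_Ev hd, pr_Ev h]
    exact h1

/-- The clean portion of `i` overlaps an event `j` that is not contained in it on about half. -/
theorem pr_Cl_inter_le {ι : Type*} {n k : ℕ} (E : Finset ι) (α β : ι → Finset V) {i j : ι}
    (hj : j ∈ E) (hd : Disjoint (α i) (β i)) (ha : (α i).card + 1 ≤ n) (hb : (β i).card + 1 ≤ n)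
    (ha' : k ≤ (α i).card) (hb' : k ≤ (β i).card) (h : ¬ α j ⊆ α i ∨ ¬ β j ⊆ β i) :
    pr (Cl E α β i ∩ Ev (α j) (β j)) * (n + k) ≤ n * pr (Ev (α i) (β i)) := by
  rcases h with h | h
  · obtain ⟨g, hg, hg'⟩ := not_subset.1 h
    refine le_trans (mul_le_mul_of_nonneg_right (pr_mono ?_) (by positivity))
      (pr_insert_left hd hg' ha hb')
    intro σ hσ
    rw [mem_inter, mem_Cl] at hσ
    have h1 := (hσ.1.2 j hj hσ.2).mem_left hσ.2
    refine mem_Ev.2 fun x hx y hy => ?_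
    rcases mem_insert.1 hx with rfl | hx
    · exact mem_Ev.1 h1 x hg y hy
    · exact mem_Ev.1 hσ.1.1 x hx y hy
  · obtain ⟨g, hg, hg'⟩ := not_subset.1 h
    refine le_trans (mul_le_mul_of_nonneg_right (pr_mono ?_) (by positivity))
      (pr_insert_right hd hg' hb ha')
    intro σ hσ
    rw [mem_inter, mem_Cl] at hσ
    have h1 := (hσ.1.2 j hj hσ.2).mem_right hσ.2
    refine mem_Ev.2 fun x hx y hy => ?_
    rcases mem_insert.1 hy with rfl | hy
    · exact mem_Ev.1 h1 x hx y hg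
    · exact mem_Ev.1 hσ.1.1 x hx y hy

/-- The inequality of Bollobás in the form used for the first kind of pivots. -/
theorem bollobas_half {ι : Type*} (J : Finset ι) (P Q : ι → Finset V)
    (hd : ∀ i ∈ J, Disjoint (P i) (Q i)) (hne : ∀ i ∈ J, 1 ≤ (P i).card + (Q i).card)
    (hc : ∀ i ∈ J, ∀ j ∈ J, i ≠ j → ¬ Disjoint (P i) (Q j)) :
    ∑ i ∈ J, (1 / 2 : ℝ) ^ ((P i).card + (Q i).card) ≤ 1 / 2 := by
  have h1 := (sum_pr_le_of_disjoint J (fun i => Ev (P i) (Q i)) univ (by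
    intro i hi j hj hij
    refine disjoint_left.2 fun σ h1 h2 => ?_
    rcases co_occur h1 h2 with h | h
    · exact hc i hi j hj hij h
    · exact hc j hj i hi hij.symm h) fun _ _ => subset_univ _).trans (pr_le_one _)
  have h2 : ∀ i ∈ J, (1 / 2 : ℝ) ^ ((P i).card + (Q i).card) ≤ 1 / 2 * pr (Ev (P i) (Q i)) := by
    intro i hi
    rw [pr_Ev (hd i hi)]
    obtain ⟨m, hm⟩ : ∃ m, (P i).card + (Q i).card = m + 1 := ⟨_, (Nat.sub_add_cancel (hne i hi)).symm⟩
    have h3 : (0 : ℝ) < (((P i).card + (Q i).card).choose (P i).card : ℝ) := by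
      exact_mod_cast Nat.choose_pos (Nat.le_add_right _ _)
    rw [hm] at h3 ⊢
    rw [pow_succ', one_div_pow]
    refine mul_le_mul_of_nonneg_left (one_div_le_one_div_of_le h3 ?_) (by norm_num)
    exact_mod_cast Nat.choose_succ_le_two_pow m (P i).card
  have h3 := sum_le_sum h2
  rw [← mul_sum] at h3
  linarith

omit [Fintype V] in
/-- Two pivots all of whose edges contain one of their cores cannot share an edge. -/
theorem rigid_pair {n : ℕ} {F : Finset (Finset V)}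
    (hint : ∀ C ∈ F, ∀ C' ∈ F, (C ∩ C').Nonempty)
    (hτ : ∀ T : Finset V, T.card < n → ∃ C ∈ F, Disjoint C T) {S a b a' b' : Finset V} {x y : V}
    (hS : S ∈ F) (hSn : S.card = n) (hx : x ∈ S) (hy : y ∈ S) (hxy : x ≠ y) (ha : a ⊆ S)
    (hxa : x ∉ a) (hya : y ∉ a) (haa : (a ∩ a').Nonempty) (hbb : (b ∩ b').Nonempty)
    (h1 : ∀ C ∈ F, x ∈ C → a ⊆ C ∨ b ⊆ C) (h2 : ∀ C ∈ F, y ∈ C → a' ⊆ C ∨ b' ⊆ C) : False := by
  obtain ⟨u, hu⟩ := hbb
  obtain ⟨w, hw⟩ := haa
  rw [mem_inter] at hu hw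
  have hy' : y ∈ S.erase x := mem_erase.2 ⟨hxy.symm, hy⟩
  have hc : (insert u ((S.erase x).erase y)).card < n := by
    have h3 := card_insert_le u ((S.erase x).erase y)
    have h4 := card_erase_add_one hy'
    have h5 := card_erase_add_one hx
    omega
  obtain ⟨C, hC, hd⟩ := hτ _ hc
  have hu' : u ∉ C := fun h => disjoint_left.1 hd h (mem_insert_self _ _)
  have hw' : w ∉ C := fun h => disjoint_left.1 hd h (mem_insert_of_mem (mem_erase.2
    ⟨fun e => hya (e ▸ hw.1), mem_erase.2 ⟨fun e => hxa (e ▸ hw.1), ha hw.1⟩⟩))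
  obtain ⟨z, hz⟩ := hint C hC S hS
  rw [mem_inter] at hz
  by_cases hzx : z = x
  · rcases h1 C hC (hzx ▸ hz.1) with h | h
    · exact hw' (h hw.1)
    · exact hu' (h hu.1)
  · by_cases hzy : z = y
    · rcases h2 C hC (hzy ▸ hz.1) with h | h
      · exact hw' (h hw.2)
      · exact hu' (h hu.2)
    · exact disjoint_left.1 hd hz.1
        (mem_insert_of_mem (mem_erase.2 ⟨hzy, mem_erase.2 ⟨hzx, hz.2⟩⟩))

end Pool.Agent.P.MP_c09308_co
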