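import Mathlib
import Pool.Agent.P.MP_c09308_co.Perm
import Pool.Agent.P.MP_c09308_co.Num

namespace Pool.Agent.P.MP_c09308_co

open Finset

variable {V : Type*} [Fintype V] [LinearOrder V]

theorem hat_pr_G {n : ℕ} (hn : 1 ≤ n) {c d : Finset V} (hc : c.card = n - 1)
    (hd : d.card = n - 1) (hcd : Disjoint c d) : pr (Ev c d) = pp n := by
  rw [pr_Ev hcd, hc, hd, pp, show n - 1 + (n - 1) = 2 * n - 2 by omega]

theorem hat_pr_H {n : ℕ} (hn : 2 ≤ n) {a b : Finset V} (ha : a.card = n - 2)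
    (hb : b.card = n) (hab : Disjoint a b) : pr (Ev a b) = pp n * n / (n - 1) := by
  rw [pr_Ev hab, ha, hb, pp, show n - 2 + n = 2 * n - 2 by omega]
  have h1 := Nat.choose_succ_right_eq (2 * n - 2) (n - 2)
  rw [show n - 2 + 1 = n - 1 by omega, show 2 * n - 2 - (n - 2) = n by omega] at h1
  have h2 : ((2 * n - 2).choose (n - 1) : ℝ) * ((n : ℝ) - 1)
      = ((2 * n - 2).choose (n - 2) : ℝ) * n := by
    have : ((n - 1 : ℕ) : ℝ) = (n : ℝ) - 1 := by
      rw [Nat.cast_sub (by omega)]; simp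
    rw [← this]
    exact_mod_cast h1
  have h3 : (0 : ℝ) < (2 * n - 2).choose (n - 1) := by
    exact_mod_cast Nat.choose_pos (by omega)
  have h4 : (0 : ℝ) < (2 * n - 2).choose (n - 2) := by
    exact_mod_cast Nat.choose_pos (by omega)
  have h5 : (0 : ℝ) < (n : ℝ) - 1 := by
    have : (2 : ℝ) ≤ n := by exact_mod_cast hn
    linarith
  field_simp
  linarith

theorem hat_N1 {a b c d : Finset V} {u : V} {l : ℕ} (hu : u ∈ c) (h : (b \ d).card < l) :
    Ev a b ∩ Ev c d ⊆ (Ev a b).filter fun σ => (b.filter fun v => σ v < σ u).card < l := by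
  intro σ hσ
  rw [mem_inter] at hσ
  refine mem_filter.2 ⟨hσ.1, lt_of_le_of_lt (card_le_card fun v hv => ?_) h⟩
  rw [mem_filter] at hv
  exact mem_sdiff.2 ⟨hv.1, fun hd => lt_asymm hv.2 (mem_Ev.1 hσ.2 u hu v hd)⟩

theorem hat_N2 {a b c d : Finset V} {u : V} {l : ℕ} (hu : u ∈ b) (h : (c \ a).card < l) :
    Ev a b ∩ Ev c d ⊆ (Ev c d).filter fun σ => (c.filter fun v => σ u < σ v).card < l := by
  intro σ hσ
  rw [mem_inter] at hσ
  refine mem_filter.2 ⟨hσ.2, lt_of_le_of_lt (card_le_card fun v hv => ?_) h⟩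
  rw [mem_filter] at hv
  exact mem_sdiff.2 ⟨hv.1, fun hd => lt_asymm hv.2 (mem_Ev.1 hσ.1 v hd u hu)⟩

theorem hat_local {ι κ : Type*} (n k l D' : ℕ) (η θ : ℝ) (hn : 3 ≤ n) (hk : k + 2 ≤ n)
    (hθ : 0 < θ) (hη : 1 / ((k + (k + l)).choose k : ℝ) ≤ η * pp n)
    (e : V) (I : Finset ι) (J : Finset κ) (a b : ι → Finset V) (c d : κ → Finset V)
    (ha : ∀ i ∈ I, (a i).card = n - 2) (hb : ∀ i ∈ I, (b i).card = n - 1)
    (hab : ∀ i ∈ I, Disjoint (a i) (insert e (b i))) (heb : ∀ i ∈ I, e ∉ b i)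
    (hc : ∀ j ∈ J, (c j).card = n - 1) (hd : ∀ j ∈ J, (d j).card = n - 1)
    (hcd : ∀ j ∈ J, Disjoint (c j) (d j)) (hed : ∀ j ∈ J, e ∈ d j)
    (hcb : ∀ i ∈ I, ∀ j ∈ J, (c j ∩ b i).Nonempty)
    (hI : ∀ i ∈ I, ∀ i' ∈ I, i ≠ i' →
      Disjoint (Ev (a i) (insert e (b i))) (Ev (a i') (insert e (b i'))))
    (hJ : ∀ j ∈ J, ∀ j' ∈ J, j ≠ j' → Disjoint (Ev (c j) (d j)) (Ev (c j') (d j')))
    (hD : I.card ≤ D') :
    ∑ i ∈ I, ∑ j ∈ J, pr (Ev (a i) (insert e (b i)) ∩ Ev (c j) (d j))
      ≤ pp n * ((θ + 2 * η * D') * J.card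
        + (4 * l / n + 8 * D' * l ^ 3 / n ^ 2 : ℝ) / θ * I.card) := by
  have hp := pp_pos n
  have hn3 : (3 : ℝ) ≤ n := by exact_mod_cast hn
  have hn1 : (0 : ℝ) < (n : ℝ) - 1 := by linarith
  have hcast : ((n - 1 : ℕ) : ℝ) = (n : ℝ) - 1 := by
    rw [Nat.cast_sub (by omega)]; simp
  have hηp : 0 ≤ η * pp n := le_trans (by positivity) hη
  have hbh : ∀ i ∈ I, (insert e (b i)).card = n := by
    intro i hi
    rw [card_insert_of_notMem (heb i hi), hb i hi]
    omega
  have hH : ∀ i ∈ I, pr (Ev (a i) (insert e (b i))) = pp n * n / (n - 1) := fun i hi =>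
    hat_pr_H (by omega) (ha i hi) (hbh i hi) (hab i hi)
  have hG : ∀ j ∈ J, pr (Ev (c j) (d j)) = pp n := fun j hj =>
    hat_pr_G (by omega) (hc j hj) (hd j hj) (hcd j hj)
  obtain ⟨q, hq⟩ : ∃ q : ℝ, q = l * pp n / (n - 1) := ⟨_, rfl⟩
  have hq0 : 0 ≤ q := by rw [hq]; positivity
  have hR1 : ∀ i ∈ I, ∀ u ∈ b i, pr ((Ev (a i) (insert e (b i))).filter
      fun σ => ((insert e (b i)).filter fun v => σ v < σ u).card < l) ≤ q := by
    intro i hi u hu
    have h := rank_right (a := a i) (mem_insert_of_mem (b := e) hu) l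
    rw [hH i hi, hbh i hi] at h
    refine le_of_mul_le_mul_right (h.trans (le_of_eq ?_)) (show (0 : ℝ) < n by linarith)
    rw [hq]; ring
  have hR2 : ∀ j ∈ J, ∀ u ∈ c j, pr ((Ev (c j) (d j)).filter
      fun σ => ((c j).filter fun v => σ u < σ v).card < l) ≤ q := by
    intro j hj u hu
    have h := rank_left (b := d j) hu l
    rw [hG j hj, hc j hj, hcast] at h
    rw [hq, le_div_iff₀ hn1]
    exact h
  -- near pairs
  let near : ι → κ → Prop := fun i j =>
    (insert e (b i) \ d j).card < l ∧ (c j \ a i).card < l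
  let E : ι → κ → Finset (Equiv.Perm V) := fun i j =>
    if near i j then Ev (a i) (insert e (b i)) ∩ Ev (c j) (d j) else ∅
  have hEsub : ∀ i j, E i j ⊆ Ev (a i) (insert e (b i)) ∩ Ev (c j) (d j) := by
    intro i j
    simp only [E]
    split_ifs
    · exact Subset.refl _
    · exact empty_subset _
  have hEnear : ∀ i j, ∀ σ ∈ E i j, near i j := by
    intro i j σ hσ
    by_contra h
    simp [E, h] at hσ
  have hfar : ∀ i ∈ I, ∀ j ∈ J, pr (Ev (a i) (insert e (b i)) ∩ Ev (c j) (d j))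
      ≤ pr (E i j) + 2 * (η * pp n) := by
    intro i hi j hj
    by_cases h : near i j
    · simp only [E, if_pos h]
      linarith
    · have h0 := pr_nonneg (E i j)
      have h2 : (2 : ℝ) / ((k + (k + l)).choose k : ℝ) ≤ 2 * (η * pp n) := by
        rw [div_eq_mul_one_div]
        linarith
      have e1 := ha i hi
      have e2 := hbh i hi
      have e3 := hc j hj
      have e4 := hd j hj
      rcases not_and_or.1 h with h1 | h1
      · have := far_right (a := a i) (b := insert e (b i)) (a' := c j) (b' := d j) (k := k)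
          (l := l) (by omega) (by omega) (by omega) (not_lt.1 h1)
        linarith
      · have := far_left (a := c j) (b := d j) (a' := a i) (b' := insert e (b i)) (k := k)
          (l := l) (by omega) (by omega) (by omega) (not_lt.1 h1)
        rw [inter_comm] at this
        linarith
  have : Nonempty V := ⟨e⟩
  choose! u hu using hcb
  have huc : ∀ i ∈ I, ∀ j ∈ J, u i j ∈ c j := fun i hi j hj => (mem_inter.1 (hu i hi j hj)).1
  have hub : ∀ i ∈ I, ∀ j ∈ J, u i j ∈ b i := fun i hi j hj => (mem_inter.1 (hu i hi j hj)).2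
  have hA : ∀ j ∈ J, ∀ w ∈ c j, ∑ i' ∈ I.filter (fun i' => w ∈ b i'), pr (E i' j) ≤ q := by
    intro j hj w hw
    refine le_trans (sum_pr_le_of_disjoint _ _ _ ?_ ?_) (hR2 j hj w hw)
    · intro i hi i' hi' hne
      exact (hI i (mem_filter.1 hi).1 i' (mem_filter.1 hi').1 hne).mono
        ((hEsub i j).trans inter_subset_left) ((hEsub i' j).trans inter_subset_left)
    · intro i hi σ hσ
      exact hat_N2 (mem_insert_of_mem (mem_filter.1 hi).2) (hEnear i j σ hσ).2 (hEsub i j hσ)
  have hdisJ : ∀ i, ∀ j ∈ J, ∀ j' ∈ J, j ≠ j' → Disjoint (E i j) (E i j') := by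
    intro i j hj j' hj' hne
    exact (hJ j hj j' hj' hne).mono ((hEsub i j).trans inter_subset_right)
      ((hEsub i j').trans inter_subset_right)
  have hB : ∀ i ∈ I, ∑ j ∈ J, pr (E i j) ≤ pp n * n / (n - 1) := by
    intro i hi
    rw [← hH i hi]
    exact sum_pr_le_of_disjoint _ _ _ (hdisJ i) fun j _ => (hEsub i j).trans inter_subset_left
  have hC : ∀ i ∈ I, ∀ j ∈ J, pr (E i j) ≤ q := by
    intro i hi j hj
    refine le_trans (pr_mono fun σ hσ => ?_) (hR2 j hj _ (huc i hi j hj))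
    exact hat_N2 (mem_insert_of_mem (hub i hi j hj)) (hEnear i j σ hσ).2 (hEsub i j hσ)
  have hDD : ∀ i ∈ I, ∀ i' ∈ I,
      ∑ j ∈ J.filter (fun j => near i' j ∧ u i j ∉ b i'), pr (E i j) ≤ 2 * l * q := by
    intro i hi i' hi'
    by_cases hex : ∃ j ∈ J, near i j ∧ near i' j
    · obtain ⟨j₀, hj₀, hn1', hn2'⟩ := hex
      have hsub : b i \ b i' ⊆ (insert e (b i) \ d j₀) ∪ (d j₀ \ insert e (b i')) := by
        intro v hv
        rw [mem_sdiff] at hv
        by_cases hvd : v ∈ d j₀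
        · refine mem_union_right _ (mem_sdiff.2 ⟨hvd, fun h => ?_⟩)
          rcases mem_insert.1 h with rfl | h
          · exact heb i hi hv.1
          · exact hv.2 h
        · exact mem_union_left _ (mem_sdiff.2 ⟨mem_insert_of_mem hv.1, hvd⟩)
      have h3 : (d j₀ \ insert e (b i')).card ≤ (insert e (b i') \ d j₀).card := by
        rw [card_sdiff_le_card_sdiff_iff, hd j₀ hj₀, hbh i' hi']
        omega
      have hcard : (b i \ b i').card ≤ 2 * l := by
        have h4 := (card_le_card hsub).trans (card_union_le _ _)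
        have h5 := hn1'.1
        have h6 := hn2'.1
        omega
      calc _ ≤ pr ((b i \ b i').biUnion fun w => (Ev (a i) (insert e (b i))).filter
              fun σ => ((insert e (b i)).filter fun v => σ v < σ w).card < l) := by
            refine sum_pr_le_of_disjoint _ _ _ (fun j hj j' hj' hne =>
              hdisJ i j (mem_filter.1 hj).1 j' (mem_filter.1 hj').1 hne) ?_
            intro j hj σ hσ
            rw [mem_filter] at hj
            exact mem_biUnion.2 ⟨u i j, mem_sdiff.2 ⟨hub i hi j hj.1, hj.2.2⟩,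
              hat_N1 (huc i hi j hj.1) (hEnear i j σ hσ).1 (hEsub i j hσ)⟩
        _ ≤ ∑ _w ∈ b i \ b i', q := (pr_biUnion_le _ _).trans
            (sum_le_sum fun w hw => hR1 i hi w (mem_sdiff.1 hw).1)
        _ ≤ 2 * l * q := by
            rw [sum_const, nsmul_eq_mul]
            have : ((b i \ b i').card : ℝ) ≤ 2 * l := by exact_mod_cast hcard
            gcongr
    · refine le_trans (le_of_eq (sum_eq_zero fun j hj => ?_)) (by positivity)
      rw [mem_filter] at hj
      have : ¬ near i j := fun h => hex ⟨j, hj.1, h, hj.2.1⟩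
      simp only [E, if_neg this, pr_empty]
  have hsq : ∀ j ∈ J, (∑ i ∈ I, pr (E i j)) ^ 2 ≤ ∑ i ∈ I, (q * pr (E i j) +
      q * ∑ i' ∈ I, if near i' j ∧ u i j ∉ b i' then pr (E i j) else 0) := by
    intro j hj
    rw [sq, sum_mul]
    refine sum_le_sum fun i hi => ?_
    rw [← sum_filter_add_sum_filter_not I (fun i' => u i j ∈ b i'), mul_add]
    have h0 := pr_nonneg (E i j)
    refine add_le_add ?_ ?_
    · rw [mul_comm]
      exact mul_le_mul_of_nonneg_right (hA j hj _ (huc i hi j hj)) h0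
    · rw [sum_filter, mul_sum, mul_sum]
      refine sum_le_sum fun i' hi' => ?_
      by_cases h1 : u i j ∈ b i'
      · simp [h1]
      · by_cases h2 : near i' j
        · rw [if_pos h1, if_pos ⟨h2, h1⟩, mul_comm]
          exact mul_le_mul_of_nonneg_right (hC i' hi' j hj) h0
        · simp [E, h2, pr_empty]
  have hD' : (I.card : ℝ) ≤ D' := by exact_mod_cast hD
  have htot : ∑ j ∈ J, (∑ i ∈ I, pr (E i j)) ^ 2 ≤
      I.card * (q * (pp n * n / (n - 1)) + q * (D' * (2 * l * q))) := by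
    refine (sum_le_sum hsq).trans ?_
    rw [sum_comm, ← nsmul_eq_mul]
    refine sum_le_card_nsmul _ _ _ fun i hi => ?_
    rw [sum_add_distrib, ← mul_sum, ← mul_sum]
    refine add_le_add (mul_le_mul_of_nonneg_left (hB i hi) hq0)
      (mul_le_mul_of_nonneg_left ?_ hq0)
    rw [sum_comm]
    calc _ ≤ ∑ _i' ∈ I, 2 * l * q := sum_le_sum fun i' hi' => by
          rw [← sum_filter]
          exact hDD i hi i' hi'
      _ ≤ D' * (2 * l * q) := by
          rw [sum_const, nsmul_eq_mul]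
          gcongr
  have heps : q * (pp n * n / (n - 1)) + q * (D' * (2 * l * q)) ≤
      pp n ^ 2 * (4 * l / n + 8 * D' * l ^ 3 / n ^ 2) := by
    have h1 : 1 / ((n : ℝ) - 1) ^ 2 ≤ 4 / n ^ 2 := by
      rw [div_le_div_iff₀ (by positivity) (by positivity)]
      nlinarith
    have e1 : q * (pp n * n / (n - 1)) + q * (D' * (2 * l * q)) =
        pp n ^ 2 * ((l * n + 2 * D' * l ^ 3) * (1 / ((n : ℝ) - 1) ^ 2)) := by
      rw [hq]
      field_simp
    have e2 : (4 * l / n + 8 * D' * l ^ 3 / n ^ 2 : ℝ) = (l * n + 2 * D' * l ^ 3) * (4 / n ^ 2) := by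
      field_simp
      ring
    rw [e1, e2]
    gcongr
  have hlin : ∀ s : ℝ, s ≤ θ * pp n + s ^ 2 / (θ * pp n) := by
    intro s
    have h0 : 0 < θ * pp n := by positivity
    rw [← sub_le_iff_le_add', le_div_iff₀ h0]
    nlinarith [sq_nonneg (s - θ * pp n), sq_nonneg s]
  have hnear : ∑ j ∈ J, ∑ i ∈ I, pr (E i j) ≤ J.card * (θ * pp n) +
      I.card * (pp n ^ 2 * (4 * l / n + 8 * D' * l ^ 3 / n ^ 2)) / (θ * pp n) := by
    refine (sum_le_sum fun j _ => hlin _).trans ?_
    rw [sum_add_distrib, sum_const, nsmul_eq_mul, ← sum_div]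
    gcongr
    exact htot.trans (by gcongr)
  calc _ ≤ ∑ i ∈ I, ∑ j ∈ J, (pr (E i j) + 2 * (η * pp n)) :=
        sum_le_sum fun i hi => sum_le_sum fun j hj => hfar i hi j hj
    _ = ∑ j ∈ J, ∑ i ∈ I, pr (E i j) + I.card * (J.card * (2 * (η * pp n))) := by
        simp only [sum_add_distrib, sum_const, nsmul_eq_mul]
        rw [sum_comm]
    _ ≤ J.card * (θ * pp n) +
        I.card * (pp n ^ 2 * (4 * l / n + 8 * D' * l ^ 3 / n ^ 2)) / (θ * pp n) +
        D' * (J.card * (2 * (η * pp n))) := by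
        gcongr
    _ = _ := by
        field_simp
        ring

theorem hat_arith {K η D ε o s : ℝ} (hK : 1 ≤ K) (h0 : 0 ≤ η * D) (h1 : 16 * η * D * K ≤ 1)
    (h2 : 64 * K * ε ≤ 1) (ho : 0 ≤ o) (hs : s ≤ K * o) :
    (1 / (8 * K) + 2 * η * D) * s + ε / (1 / (8 * K)) * o ≤ 3 / 8 * o := by
  have hK0 : 0 < K := by linarith
  have c0 : 0 ≤ 1 / (8 * K) + 2 * η * D := by
    have : 0 ≤ 1 / (8 * K) := by positivity
    linarith
  have c1 := mul_le_mul_of_nonneg_left hs c0
  have c2 : (1 / (8 * K) + 2 * η * D) * (K * o) = (1 / 8 + (16 * η * D * K) / 8) * o := by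
    field_simp
    ring
  have c3 : ε / (1 / (8 * K)) = (64 * K * ε) / 8 := by
    field_simp
    ring
  rw [c3]
  nlinarith

theorem hat_bool1 : ∀ t s : Bool, t ≠ s → (!t) = s := by decide

theorem hat_bool2 : ∀ t s : Bool, t ≠ (!s) → t = s := by decide

omit [Fintype V] in
theorem hat_meet {x y : V} {T T' : Finset V} (h : (T ∩ T').Nonempty) (hx : x ∉ T') (hy : y ∉ T) :
    ∃ z, z ∈ T.erase x ∧ z ∈ T'.erase y := by
  obtain ⟨z, hz⟩ := h
  rw [mem_inter] at hz
  exact ⟨z, mem_erase.2 ⟨fun e => hx (e ▸ hz.2), hz.1⟩, mem_erase.2 ⟨fun e => hy (e ▸ hz.1), hz.2⟩⟩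

theorem hat (n K k l D' : ℕ) (η : ℝ) (hn : 16 ≤ n) (hK : 1 ≤ K) (hk : k + 2 ≤ n)
    (hη : 1 / ((k + (k + l)).choose k : ℝ) ≤ η * pp n)
    (h1 : 16 * η * D' * K ≤ 1) (h2 : 64 * K * (4 * l / n + 8 * D' * l ^ 3 / n ^ 2 : ℝ) ≤ 1)
    (I M : Finset V) (A B : V → Finset V)
    (hA : ∀ x ∈ I, (A x).card = n) (hB : ∀ x ∈ I, (B x).card = n)
    (hx : ∀ x ∈ I, A x ∩ B x = {x}) (hIM : Disjoint I M)
    (hI : ∀ x ∈ I, ∀ y ∈ I, x ∈ A y ∪ B y → x = y)
    (hAA : ∀ x ∈ I, ∀ y ∈ I, (A x ∩ A y).Nonempty)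
    (hAB : ∀ x ∈ I, ∀ y ∈ I, (A x ∩ B y).Nonempty)
    (hBB : ∀ x ∈ I, ∀ y ∈ I, (B x ∩ B y).Nonempty)
    (hM : ∀ x ∈ I, ((A x ∪ B x) ∩ M).card ≤ K)
    (hD : ∀ p ∈ M, (I.filter fun x => p ∈ A x ∪ B x).card ≤ D') :
    ∃ H : V → Finset (Equiv.Perm V),
      (∀ x, ∀ y ∈ I, Disjoint (H x) (Ev ((A y).erase y) ((B y).erase y)) ∧
        Disjoint (H x) (Ev ((B y).erase y) ((A y).erase y))) ∧
      (∀ σ, ((I.filter fun x => ((A x ∪ B x) ∩ M).Nonempty).filter fun x => σ ∈ H x).card ≤ K) ∧
      ((I.filter fun x => ((A x ∪ B x) ∩ M).Nonempty).card : ℝ) * pp n / 2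
        ≤ ∑ x ∈ I.filter fun x => ((A x ∪ B x) ∩ M).Nonempty, pr (H x) := by
  obtain ⟨O, hO⟩ : ∃ O, O = I.filter fun x => ((A x ∪ B x) ∩ M).Nonempty := ⟨_, rfl⟩
  rw [← hO]
  have hOI : ∀ x ∈ O, x ∈ I := fun x hxO => by rw [hO] at hxO; exact (mem_filter.1 hxO).1
  have hp := pp_pos n
  -- the two sides
  let T : V → Bool → Finset V := fun y t => if t then A y else B y
  have hTt : ∀ y, T y true = A y := fun _ => rfl
  have hTf : ∀ y, T y false = B y := fun _ => rfl
  have hTc : ∀ y ∈ I, ∀ t, (T y t).card = n := by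
    intro y hy t
    cases t
    · exact hB y hy
    · exact hA y hy
  have hTs : ∀ y t, T y t ⊆ A y ∪ B y := by
    intro y t
    cases t
    · exact subset_union_right
    · exact subset_union_left
  have hTx : ∀ y ∈ I, ∀ t, ∀ z, z ∈ T y t → z ∈ T y (!t) → z = y := by
    intro y hy t z h1 h2
    have : z ∈ A y ∩ B y := by
      cases t
      · exact mem_inter.2 ⟨h2, h1⟩
      · exact mem_inter.2 ⟨h1, h2⟩
    rw [hx y hy] at this
    exact mem_singleton.1 this
  have hTm : ∀ y ∈ I, ∀ t, y ∈ T y t := by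
    intro y hy t
    have : y ∈ A y ∩ B y := by rw [hx y hy]; exact mem_singleton_self y
    cases t
    · exact (mem_inter.1 this).2
    · exact (mem_inter.1 this).1
  have hTe : ∀ y ∈ I, ∀ t, ((T y t).erase y).card = n - 1 := fun y hy t => by
    rw [card_erase_of_mem (hTm y hy t), hTc y hy t]
  have hmeet : ∀ x ∈ I, ∀ y ∈ I, x ≠ y → ∀ s t,
      ∃ z, z ∈ (T x s).erase x ∧ z ∈ (T y t).erase y := by
    intro x hxI y hyI hne s t
    refine hat_meet ?_ (fun h => hne (hI x hxI y hyI (hTs y t h)))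
      (fun h => hne (hI y hyI x hxI (hTs x s h)).symm)
    cases s <;> cases t
    · exact hBB x hxI y hyI
    · rw [inter_comm]; exact hAB y hyI x hxI
    · exact hAB x hxI y hyI
    · exact hAA x hxI y hyI
  have hch : ∀ x, ∃ e : V, ∃ s : Bool, x ∈ O → e ∈ T x s ∧ e ∈ M := by
    intro x
    by_cases hxO : x ∈ O
    · rw [hO] at hxO
      obtain ⟨e, he⟩ := (mem_filter.1 hxO).2
      rw [mem_inter, mem_union] at he
      rcases he.1 with h | h
      · exact ⟨e, true, fun _ => ⟨h, he.2⟩⟩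
      · exact ⟨e, false, fun _ => ⟨h, he.2⟩⟩
    · exact ⟨x, true, fun h => absurd h hxO⟩
  choose e s hes using hch
  have hex : ∀ x ∈ O, e x ≠ x := fun x hxO h =>
    disjoint_left.1 hIM (hOI x hxO) (h ▸ (hes x hxO).2)
  have heS : ∀ x ∈ O, e x ∈ (T x (s x)).erase x := fun x hxO =>
    mem_erase.2 ⟨hex x hxO, (hes x hxO).1⟩
  have heS' : ∀ x ∈ O, e x ∉ T x (!s x) := fun x hxO h =>
    hex x hxO (hTx x (hOI x hxO) _ _ (hes x hxO).1 h)
  let a : V → Finset V := fun x => ((T x (s x)).erase x).erase (e x)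
  let b : V → Finset V := fun x => (T x (!s x)).erase x
  let L : V × Bool → Finset V := fun j => (T j.1 j.2).erase j.1
  let R : V × Bool → Finset V := fun j => (T j.1 (!j.2)).erase j.1
  have hac : ∀ x ∈ O, (a x).card = n - 2 := fun x hxO => by
    simp only [a]
    rw [card_erase_of_mem (heS x hxO), hTe x (hOI x hxO)]
    omega
  have hbc : ∀ x ∈ O, (b x).card = n - 1 := fun x hxO => hTe x (hOI x hxO) _
  have heb : ∀ x ∈ O, e x ∉ b x := fun x hxO h => heS' x hxO (mem_of_mem_erase h)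
  have hLR : ∀ y ∈ I, ∀ t, Disjoint ((T y t).erase y) ((T y (!t)).erase y) := fun y hy t =>
    disjoint_left.2 fun z h1 h2 =>
      (mem_erase.1 h1).1 (hTx y hy t z (mem_of_mem_erase h1) (mem_of_mem_erase h2))
  have hab : ∀ x ∈ O, Disjoint (a x) (insert (e x) (b x)) := by
    intro x hxO
    refine disjoint_left.2 fun z h1 h2 => ?_
    rcases mem_insert.1 h2 with h | h
    · exact (mem_erase.1 h1).1 h
    · exact disjoint_left.1 (hLR x (hOI x hxO) (s x)) (mem_of_mem_erase h1) h
  have hkey : ∀ x ∈ O, ∀ y ∈ I, x ≠ y → ∀ t, Disjoint (a x) ((T y t).erase y) →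
      e x ∈ (T y t).erase y := by
    intro x hxO y hy hne t hd
    obtain ⟨z, hz1, hz2⟩ := hmeet x (hOI x hxO) y hy hne (s x) t
    by_cases h : z = e x
    · exact h ▸ hz2
    · exact absurd hz2 (disjoint_left.1 hd (mem_erase.2 ⟨h, hz1⟩))
  have hdisj : ∀ x ∈ O, ∀ x' ∈ O, x ≠ x' → e x = e x' →
      Disjoint (Ev (a x) (insert (e x) (b x))) (Ev (a x') (insert (e x') (b x'))) := by
    intro x hxO x' hxO' hne hee
    refine disjoint_left.2 fun σ h1 h2 => ?_
    rcases co_occur h1 h2 with h | h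
    · have := hkey x hxO x' (hOI x' hxO') hne _ (h.mono_right (subset_insert _ _))
      exact heb x' hxO' (hee ▸ this)
    · have := hkey x' hxO' x (hOI x hxO) hne.symm _ (h.mono_right (subset_insert _ _))
      exact heb x hxO (hee ▸ this)
  let U : Finset (Equiv.Perm V) := (I ×ˢ (univ : Finset Bool)).biUnion fun j => Ev (L j) (R j)
  refine ⟨fun x => Ev (a x) (insert (e x) (b x)) \ U, fun x y hy => ⟨?_, ?_⟩, fun σ => ?_, ?_⟩
  · refine disjoint_left.2 fun σ h1 h2 => (mem_sdiff.1 h1).2 ?_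
    exact mem_biUnion.2 ⟨(y, true), mem_product.2 ⟨hy, mem_univ _⟩, h2⟩
  · refine disjoint_left.2 fun σ h1 h2 => (mem_sdiff.1 h1).2 ?_
    exact mem_biUnion.2 ⟨(y, false), mem_product.2 ⟨hy, mem_univ _⟩, h2⟩
  · obtain ⟨Occ, hOcc⟩ : ∃ Occ, Occ = O.filter fun x => σ ∈ Ev (a x) (insert (e x) (b x)) \ U :=
      ⟨_, rfl⟩
    rw [← hOcc]
    have hocc : ∀ x ∈ Occ, x ∈ O ∧ σ ∈ Ev (a x) (insert (e x) (b x)) := by
      intro x h
      rw [hOcc, mem_filter, mem_sdiff] at h
      exact ⟨h.1, h.2.1⟩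
    rcases Occ.eq_empty_or_nonempty with h0 | ⟨x₀, hx₀⟩
    · rw [h0]; simp
    have hne : (Occ.biUnion a).Nonempty := by
      have : (a x₀).Nonempty := by
        rw [← card_pos, hac x₀ (hocc x₀ hx₀).1]
        omega
      obtain ⟨w, hw⟩ := this
      exact ⟨w, mem_biUnion.2 ⟨x₀, hx₀, hw⟩⟩
    obtain ⟨w, hw, hmax⟩ := exists_max_image _ σ hne
    obtain ⟨y, hy, hwy⟩ := mem_biUnion.1 hw
    have hyO := (hocc y hy).1
    refine le_trans (card_le_card_of_injOn e (fun x hxo => ?_) ?_) (hM y (hOI y hyO))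
    · have hxo' : x ∈ Occ := mem_coe.1 hxo
      have hxO := (hocc x hxo').1
      refine mem_coe.2 (mem_inter.2 ⟨?_, (hes x hxO).2⟩)
      by_cases hxy : x = y
      · subst hxy
        exact hTs _ _ (hes x hxO).1
      · refine hTs y (!s y) (mem_of_mem_erase (hkey x hxO y (hOI y hyO) hxy _ ?_))
        refine disjoint_left.2 fun v hv hv' => ?_
        have h3 := hmax v (mem_biUnion.2 ⟨x, hxo', hv⟩)
        have h4 := mem_Ev.1 (hocc y hy).2 w hwy v (mem_insert_of_mem hv')
        exact absurd h3 (not_le.2 h4)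
    · intro x hx1 x' hx2 hee
      by_contra hne'
      have h3 := hocc x (mem_coe.1 hx1)
      have h4 := hocc x' (mem_coe.1 hx2)
      exact disjoint_left.1 (hdisj x h3.1 x' h4.1 hne' hee) h3.2 h4.2
  · have hn16 : (16 : ℝ) ≤ n := by exact_mod_cast hn
    have hK1 : (1 : ℝ) ≤ K := by exact_mod_cast hK
    let Jf : V → Finset (V × Bool) := fun w => (I ×ˢ (univ : Finset Bool)).filter fun j => w ∈ R j
    have hbh : ∀ x ∈ O, (insert (e x) (b x)).card = n := by
      intro x hxO
      rw [card_insert_of_notMem (heb x hxO), hbc x hxO]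
      omega
    have hstep : ∀ x ∈ O, 7 / 8 * pp n -
        ∑ j ∈ Jf (e x), pr (Ev (a x) (insert (e x) (b x)) ∩ Ev (L j) (R j))
          ≤ pr (Ev (a x) (insert (e x) (b x)) \ U) := by
      intro x hxO
      have e1 := pr_sdiff_add_inter (Ev (a x) (insert (e x) (b x))) U
      have e2 := hat_pr_H (n := n) (by omega) (hac x hxO) (hbh x hxO) (hab x hxO)
      have e3 := rank_right (a := a x) (mem_insert_self (e x) (b x)) 1
      rw [hbh x hxO] at e3
      have e4 : Ev (a x) (insert (e x) (b x)) ∩ U ⊆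
          ((Jf (e x)).biUnion fun j => Ev (a x) (insert (e x) (b x)) ∩ Ev (L j) (R j)) ∪
          (Ev (a x) (insert (e x) (b x))).filter fun σ =>
            ((insert (e x) (b x)).filter fun v => σ v < σ (e x)).card < 1 := by
        intro σ hσ
        obtain ⟨hσ1, hσ2⟩ := mem_inter.1 hσ
        obtain ⟨j, hj, hσj⟩ := mem_biUnion.1 hσ2
        by_cases hR : e x ∈ R j
        · exact mem_union_left _ (mem_biUnion.2 ⟨j, mem_filter.2 ⟨hj, hR⟩, mem_inter.2 ⟨hσ1, hσj⟩⟩)
        · refine mem_union_right _ (mem_filter.2 ⟨hσ1, ?_⟩)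
          obtain ⟨y, t⟩ := j
          have hy : y ∈ I := (mem_product.1 hj).1
          have hxy : x = y := by
            by_contra hne
            rcases co_occur hσ1 hσj with h | h
            · exact hR (hkey x hxO y hy hne _ h)
            · obtain ⟨z, hz1, hz2⟩ := hmeet x (hOI x hxO) y hy hne (!s x) t
              exact disjoint_left.1 h hz2 (mem_insert_of_mem hz1)
          subst hxy
          have hts : t = s x := by
            by_contra hne
            have : (!t) = s x := hat_bool1 _ _ hne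
            apply hR
            simp only [R, this]
            exact heS x hxO
          subst hts
          rw [Nat.lt_one_iff, card_eq_zero, filter_eq_empty_iff]
          intro v hv
          rcases mem_insert.1 hv with h | h
          · rw [h]; exact lt_irrefl _
          · exact not_lt.2 (mem_Ev.1 hσj (e x) (heS x hxO) v h).le
      have e5 := (pr_mono e4).trans ((pr_union_le _ _).trans
        (add_le_add (pr_biUnion_le _ _) le_rfl))
      have e6 : pp n ≤ pp n * n / (n - 1) := by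
        rw [le_div_iff₀ (by linarith)]
        nlinarith
      have e7 := pr_nonneg ((Ev (a x) (insert (e x) (b x))).filter fun σ =>
            ((insert (e x) (b x)).filter fun v => σ v < σ (e x)).card < 1)
      have e8 := mul_le_mul_of_nonneg_left hn16 e7
      push_cast at e3
      linarith
    have hθ : (0 : ℝ) < 1 / (8 * K) := by positivity
    have hloc : ∀ w ∈ M, ∑ x ∈ O.filter (fun x => e x = w),
        ∑ j ∈ Jf (e x), pr (Ev (a x) (insert (e x) (b x)) ∩ Ev (L j) (R j))
        ≤ pp n * ((1 / (8 * K) + 2 * η * D') * (Jf w).card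
          + (4 * l / n + 8 * D' * l ^ 3 / n ^ 2 : ℝ) / (1 / (8 * K))
            * (O.filter (fun x => e x = w)).card) := by
      intro w hw
      have hm : ∀ x ∈ O.filter (fun x => e x = w), x ∈ O ∧ e x = w := fun x h => mem_filter.1 h
      have hj : ∀ j ∈ Jf w, j.1 ∈ I ∧ w ∈ R j := fun j h =>
        ⟨(mem_product.1 (mem_filter.1 h).1).1, (mem_filter.1 h).2⟩
      refine le_trans (le_of_eq (sum_congr rfl fun x h => by rw [(hm x h).2]))
        (hat_local n k l D' η (1 / (8 * K)) (by omega) hk hθ hη w _ (Jf w) a b L R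
          (fun x h => hac x (hm x h).1) (fun x h => hbc x (hm x h).1)
          (fun x h => (hm x h).2 ▸ hab x (hm x h).1) (fun x h => (hm x h).2 ▸ heb x (hm x h).1)
          (fun j h => hTe _ (hj j h).1 _) (fun j h => hTe _ (hj j h).1 _)
          (fun j h => hLR _ (hj j h).1 _) (fun j h => (hj j h).2) ?_ ?_ ?_ ?_)
      · rintro x h ⟨y, t⟩ hjj
        obtain ⟨hxO, hew⟩ := hm x h
        obtain ⟨hy, hR⟩ := hj _ hjj
        by_cases hxy : x = y
        · subst hxy
          have hts : t = !s x := by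
            by_contra hne
            have : t = s x := hat_bool2 _ _ hne
            subst this
            exact heb x hxO (hew ▸ hR)
          subst hts
          show (b x ∩ b x).Nonempty
          rw [inter_self, ← card_pos, hbc x hxO]
          omega
        · obtain ⟨z, hz1, hz2⟩ := hmeet x (hOI x hxO) y hy hxy (!s x) t
          exact ⟨z, mem_inter.2 ⟨hz2, hz1⟩⟩
      · intro x h x' h' hne
        have := hdisj x (hm x h).1 x' (hm x' h').1 hne ((hm x h).2.trans (hm x' h').2.symm)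
        rwa [(hm x h).2, (hm x' h').2] at this
      · rintro ⟨y, t⟩ hj1 ⟨y', t'⟩ hj2 hne
        have hy : y ∈ I := (hj _ hj1).1
        have hy' : y' ∈ I := (hj _ hj2).1
        refine disjoint_left.2 fun σ h3 h4 => ?_
        by_cases hyy : y = y'
        · subst hyy
          have htt : t' = !t := (hat_bool1 _ _ fun h => hne (by rw [h])).symm
          subst htt
          have h5 : w ∈ (T y (!t)).erase y := (hj _ hj1).2
          have h6 : w ∈ (T y (!!t)).erase y := (hj _ hj2).2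
          exact disjoint_left.1 (hLR y hy (!t)) h5 h6
        · rcases co_occur h3 h4 with h | h
          · obtain ⟨z, hz1, hz2⟩ := hmeet y hy y' hy' hyy t (!t')
            exact disjoint_left.1 h hz1 hz2
          · obtain ⟨z, hz1, hz2⟩ := hmeet y hy y' hy' hyy (!t) t'
            exact disjoint_left.1 h hz2 hz1
      · refine le_trans (card_le_card fun x h => ?_) (hD w hw)
        obtain ⟨hxO, hew⟩ := hm x h
        exact mem_filter.2 ⟨hOI x hxO, hew ▸ hTs _ _ (hes x hxO).1⟩
    have hmaps : ∀ x ∈ O, e x ∈ M := fun x h => (hes x h).2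
    have hsumI : ∑ w ∈ M, ((O.filter (fun x => e x = w)).card : ℝ) = O.card := by
      exact_mod_cast (card_eq_sum_card_fiberwise hmaps).symm
    have hsumJ : ∑ w ∈ M, ((Jf w).card : ℝ) ≤ K * O.card := by
      have : ∑ w ∈ M, (Jf w).card ≤ K * O.card := by
        have e1 : ∑ w ∈ M, (Jf w).card =
            ∑ j ∈ I ×ˢ (univ : Finset Bool), (M.filter fun w => w ∈ R j).card := by
          simp only [Jf, card_filter]
          exact sum_comm
        rw [e1, sum_product]
        calc _ ≤ ∑ y ∈ I, if ((A y ∪ B y) ∩ M).Nonempty then K else 0 := by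
              refine sum_le_sum fun y hy => ?_
              have e2 : ∑ t : Bool, (M.filter fun w => w ∈ R (y, t)).card
                  ≤ ((A y ∪ B y) ∩ M).card := by
                rw [Fintype.sum_bool, ← card_union_of_disjoint]
                · refine card_le_card (union_subset ?_ ?_) <;>
                  · intro z hz
                    rw [mem_filter] at hz
                    exact mem_inter.2 ⟨hTs _ _ (mem_of_mem_erase hz.2), hz.1⟩
                · refine disjoint_left.2 fun z h3 h4 => ?_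
                  exact disjoint_left.1 (hLR y hy false) (mem_filter.1 h3).2 (mem_filter.1 h4).2
              refine e2.trans ?_
              split_ifs with h
              · exact hM y hy
              · rw [not_nonempty_iff_eq_empty.1 h]; simp
          _ = K * O.card := by
              rw [← sum_filter, ← hO, sum_const, smul_eq_mul, mul_comm]
      exact_mod_cast this
    have hη0 : 0 ≤ η := by
      have : 0 ≤ η * pp n := le_trans (by positivity) hη
      exact nonneg_of_mul_nonneg_left this hp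
    have hall : ∑ x ∈ O, ∑ j ∈ Jf (e x), pr (Ev (a x) (insert (e x) (b x)) ∩ Ev (L j) (R j))
        ≤ pp n * (3 / 8 * O.card) := by
      rw [← sum_fiberwise_of_maps_to hmaps]
      refine (sum_le_sum hloc).trans ?_
      rw [← mul_sum, sum_add_distrib, ← mul_sum, ← mul_sum, hsumI]
      refine mul_le_mul_of_nonneg_left ?_ hp.le
      exact hat_arith hK1 (by positivity) h1 h2 (Nat.cast_nonneg _) hsumJ
    have hfin := sum_le_sum hstep
    rw [sum_sub_distrib, sum_const, nsmul_eq_mul] at hfin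
    linarith

end Pool.Agent.P.MP_c09308_co
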