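import Mathlib

/-! The fibre lemma: a weighted count of cross-intersecting set pairs. -/

namespace Pool.Agent.P.MP_c09308_co

open Finset

section

variable {ι α : Type*} [DecidableEq α]

/-- The hypotheses of the fibre lemma. -/
def fib_Sys (J : Finset ι) (x : ι → α) (P Q : ι → Finset α) : Prop :=
  Set.InjOn x J ∧ (∀ i ∈ J, P i ∩ Q i = {x i}) ∧ ∀ i ∈ J, ∀ j ∈ J, (P i ∩ Q j).Nonempty

/-- The weight of a pair. -/
noncomputable def fib_w (P Q : ι → Finset α) (i : ι) : ℝ :=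
  (1 / 2 : ℝ) ^ ((P i).card + (Q i).card - 2)

/-- The induction hypothesis. -/
def fib_IH (J : Finset ι) (x : ι → α) : Prop :=
  ∀ J' : Finset ι, J'.card < J.card → ∀ P Q, fib_Sys J' x P Q → ∑ i ∈ J', fib_w P Q i ≤ 16 / 13

open Classical in
/-- The fraction of determined colourings of `D`. -/
noncomputable def fib_det (J : Finset ι) (P Q : ι → Finset α) (D : Finset α) : ℝ :=
  ((D.powerset.filter fun χ => (∃ j ∈ J, P j ⊆ χ) ∨ ∃ j ∈ J, Q j ⊆ D ∧ Disjoint (Q j) χ).card : ℝ) /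
    2 ^ D.card

/-- The total weight of the pairs with pivot in `D`. -/
noncomputable def fib_cost (J : Finset ι) (x : ι → α) (P Q : ι → Finset α) (D : Finset α) : ℝ :=
  ∑ i ∈ J with x i ∈ D, fib_w P Q i

variable {J : Finset ι} {x : ι → α} {P Q : ι → Finset α}

lemma fib_symm (h : fib_Sys J x P Q) : fib_Sys J x Q P :=
  ⟨h.1, fun i hi => by rw [inter_comm]; exact h.2.1 i hi,
    fun i hi j hj => by rw [inter_comm]; exact h.2.2 j hj i hi⟩

omit [DecidableEq α] in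
lemma fib_w_symm (P Q : ι → Finset α) (i : ι) : fib_w P Q i = fib_w Q P i := by
  rw [fib_w, fib_w, add_comm]

lemma fib_mem (h : fib_Sys J x P Q) {i : ι} (hi : i ∈ J) : x i ∈ P i ∧ x i ∈ Q i := by
  rw [← mem_inter, h.2.1 i hi]; exact mem_singleton_self _

lemma fib_count (D A B : Finset α) (hA : A ⊆ D) (hB : B ⊆ D) (h : Disjoint A B) :
    ((D.powerset.filter fun χ => A ⊆ χ ∧ Disjoint B χ).card : ℝ) =
      2 ^ D.card * (1 / 2) ^ (A.card + B.card) := by
  have e : (D.powerset.filter fun χ => A ⊆ χ ∧ Disjoint B χ) = Icc A (D \ B) := by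
    ext χ
    simp only [mem_filter, mem_powerset, mem_Icc, subset_sdiff]
    rw [disjoint_comm]; tauto
  have h1 : A ⊆ D \ B := subset_sdiff.2 ⟨hA, h⟩
  have h2 := card_le_card h1
  have h3 := card_le_card hB
  rw [card_sdiff_of_subset hB] at h2
  rw [e, card_Icc_finset h1, card_sdiff_of_subset hB]
  obtain ⟨n, hn⟩ : ∃ n, D.card = n + (A.card + B.card) := ⟨D.card - B.card - A.card, by omega⟩
  have : D.card - B.card - A.card = n := by omega
  rw [this, hn, pow_add, mul_assoc, ← mul_pow]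
  norm_num

lemma fib_count2 (D A B A' B' : Finset α) (hA : A ⊆ D) (hB : B ⊆ D) (hA' : A' ⊆ D) (hB' : B' ⊆ D)
    (h : Disjoint (A ∪ A') (B ∪ B')) :
    (((D.powerset.filter fun χ => A ⊆ χ ∧ Disjoint B χ) ∪
      (D.powerset.filter fun χ => A' ⊆ χ ∧ Disjoint B' χ)).card : ℝ) =
      2 ^ D.card * ((1 / 2) ^ (A.card + B.card) + (1 / 2) ^ (A'.card + B'.card) -
        (1 / 2) ^ ((A ∪ A').card + (B ∪ B').card)) := by
  have h1 := fib_count D A B hA hB (h.mono subset_union_left subset_union_left)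
  have h2 := fib_count D A' B' hA' hB' (h.mono subset_union_right subset_union_right)
  have h3 := fib_count D (A ∪ A') (B ∪ B') (union_subset hA hA') (union_subset hB hB') h
  have h4 := card_union_add_card_inter (D.powerset.filter fun χ => A ⊆ χ ∧ Disjoint B χ)
    (D.powerset.filter fun χ => A' ⊆ χ ∧ Disjoint B' χ)
  have e : (D.powerset.filter fun χ => A ⊆ χ ∧ Disjoint B χ) ∩
      (D.powerset.filter fun χ => A' ⊆ χ ∧ Disjoint B' χ) =
      D.powerset.filter fun χ => A ∪ A' ⊆ χ ∧ Disjoint (B ∪ B') χ := by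
    ext χ
    simp only [mem_inter, mem_filter, union_subset_iff, disjoint_union_left]
    tauto
  rw [e] at h4
  have h5 := congrArg (Nat.cast : ℕ → ℝ) h4
  push_cast at h5
  linarith

lemma fib_det_one (D : Finset α) {a : ι} (ha : a ∈ J) (h : P a ⊆ D) :
    (1 / 2 : ℝ) ^ (P a).card ≤ fib_det J P Q D := by
  classical
  rw [fib_det, le_div_iff₀ (by positivity), mul_comm]
  have := fib_count D (P a) ∅ h (empty_subset _) (disjoint_empty_right _)
  rw [card_empty, add_zero] at this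
  rw [← this]
  refine Nat.cast_le.2 (card_le_card fun χ hχ => ?_)
  rw [mem_filter] at hχ ⊢
  exact ⟨hχ.1, Or.inl ⟨a, ha, hχ.2.1⟩⟩

lemma fib_det_two (hs : fib_Sys J x P Q) (D : Finset α) {a a' b b' : ι} (ha : a ∈ J) (ha' : a' ∈ J)
    (hb : b ∈ J) (hb' : b' ∈ J) (h1 : P a ⊆ D) (h2 : P a' ⊆ D) (h3 : Q b ⊆ D) (h4 : Q b' ⊆ D) :
    (1 / 2 : ℝ) ^ (P a).card + (1 / 2) ^ (P a').card - (1 / 2) ^ (P a ∪ P a').card +
      ((1 / 2 : ℝ) ^ (Q b).card + (1 / 2) ^ (Q b').card - (1 / 2) ^ (Q b ∪ Q b').card) ≤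
      fib_det J P Q D := by
  classical
  rw [fib_det, le_div_iff₀ (by positivity), mul_comm]
  have e1 := fib_count2 D (P a) ∅ (P a') ∅ h1 (empty_subset _) h2 (empty_subset _) (by simp)
  have e2 := fib_count2 D ∅ (Q b) ∅ (Q b') (empty_subset _) h3 (empty_subset _) h4 (by simp)
  simp only [card_empty, add_zero, zero_add, union_empty] at e1 e2
  have key : ∀ χ, ∀ i ∈ J, ∀ j ∈ J, P i ⊆ χ → ¬ Disjoint (Q j) χ := by
    intro χ i hi j hj h h'
    obtain ⟨y, hy⟩ := hs.2.2 i hi j hj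
    exact disjoint_left.1 h' (mem_inter.1 hy).2 (h (mem_inter.1 hy).1)
  rw [mul_add, ← e1, ← e2, ← Nat.cast_add, ← card_union_of_disjoint]
  · refine Nat.cast_le.2 (card_le_card fun χ hχ => ?_)
    simp only [mem_union, mem_filter] at hχ ⊢
    rcases hχ with (h | h) | h | h
    · exact ⟨h.1, Or.inl ⟨a, ha, h.2.1⟩⟩
    · exact ⟨h.1, Or.inl ⟨a', ha', h.2.1⟩⟩
    · exact ⟨h.1, Or.inr ⟨b, hb, h3, h.2.2⟩⟩
    · exact ⟨h.1, Or.inr ⟨b', hb', h4, h.2.2⟩⟩
  · rw [disjoint_left]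
    intro χ h h'
    simp only [mem_union, mem_filter] at h h'
    rcases h with h | h <;> rcases h' with h' | h'
    · exact key χ a ha b hb h.2.1 h'.2.2
    · exact key χ a ha b' hb' h.2.1 h'.2.2
    · exact key χ a' ha' b hb h.2.1 h'.2.2
    · exact key χ a' ha' b' hb' h.2.1 h'.2.2

lemma fib_step (IH : fib_IH J x) (hs : fib_Sys J x P Q) (D : Finset α) {i₀ : ι} (hi₀ : i₀ ∈ J)
    (hD : x i₀ ∈ D) (hc : fib_cost J x P Q D ≤ 16 / 13 * fib_det J P Q D) :
    ∑ i ∈ J, fib_w P Q i ≤ 16 / 13 := by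
  classical
  set det : Finset α → Prop := fun χ =>
    (∃ j ∈ J, P j ⊆ χ) ∨ ∃ j ∈ J, Q j ⊆ D ∧ Disjoint (Q j) χ with hdet
  have h1 : ∀ i ∈ J.filter fun i => x i ∉ D, 2 ^ D.card * fib_w P Q i =
      ∑ χ ∈ D.powerset, if P i ∩ D ⊆ χ ∧ Disjoint (Q i ∩ D) χ then
        fib_w (fun j => P j \ D) (fun j => Q j \ D) i else 0 := by
    intro i hi
    obtain ⟨hi, hx⟩ := mem_filter.1 hi
    rw [← sum_filter, sum_const, nsmul_eq_mul, fib_count D _ _ inter_subset_right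
      inter_subset_right, mul_assoc, fib_w, fib_w, ← pow_add]
    · congr 2
      have e1 := card_sdiff_add_card_inter (P i) D
      have e2 := card_sdiff_add_card_inter (Q i) D
      have e3 : 0 < (P i \ D).card := card_pos.2 ⟨x i, mem_sdiff.2 ⟨(fib_mem hs hi).1, hx⟩⟩
      have e4 : 0 < (Q i \ D).card := card_pos.2 ⟨x i, mem_sdiff.2 ⟨(fib_mem hs hi).2, hx⟩⟩
      omega
    · rw [disjoint_left]
      intro y hy hy'
      have : y ∈ P i ∩ Q i := mem_inter.2 ⟨(mem_inter.1 hy).1, (mem_inter.1 hy').1⟩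
      rw [hs.2.1 i hi, mem_singleton] at this
      exact hx (this ▸ (mem_inter.1 hy).2)
  have h2 : ∀ χ ∈ D.powerset, (∑ i ∈ J.filter fun i => x i ∉ D,
      if P i ∩ D ⊆ χ ∧ Disjoint (Q i ∩ D) χ then
        fib_w (fun j => P j \ D) (fun j => Q j \ D) i else 0) ≤
      16 / 13 - if det χ then 16 / 13 else 0 := by
    intro χ hχ
    rw [← sum_filter]
    rw [mem_powerset] at hχ
    split_ifs with h
    · rw [filter_eq_empty_iff.2, sum_empty, sub_self]
      rintro i hi ⟨h3, h4⟩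
      have hi' := (mem_filter.1 hi).1
      rcases h with ⟨j, hj, h⟩ | ⟨j, hj, h, h'⟩
      · obtain ⟨y, hy⟩ := hs.2.2 j hj i hi'
        have hy' := h (mem_inter.1 hy).1
        exact disjoint_left.1 h4 (mem_inter.2 ⟨(mem_inter.1 hy).2, hχ hy'⟩) hy'
      · obtain ⟨y, hy⟩ := hs.2.2 i hi' j hj
        exact disjoint_left.1 h' (mem_inter.1 hy).2
          (h3 (mem_inter.2 ⟨(mem_inter.1 hy).1, h (mem_inter.1 hy).2⟩))
    · rw [sub_zero]
      refine IH _ (card_lt_card ⟨(filter_subset _ _).trans (filter_subset _ _), fun h' => ?_⟩)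
        _ _ ⟨?_, ?_, ?_⟩
      · have h5 := mem_filter.1 (h' hi₀)
        have h6 := mem_filter.1 h5.1
        exact h6.2 hD
      · exact hs.1.mono (coe_subset.2 ((filter_subset _ _).trans (filter_subset _ _)))
      · intro i hi
        obtain ⟨hi, hx⟩ := mem_filter.1 (mem_filter.1 hi).1
        ext y
        have := congrArg (y ∈ ·) (hs.2.1 i hi)
        simp only [mem_inter, mem_singleton, mem_sdiff, eq_iff_iff] at this ⊢
        constructor
        · exact fun h => this.1 ⟨h.1.1, h.2.1⟩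
        · rintro rfl
          exact ⟨⟨(this.2 rfl).1, hx⟩, (this.2 rfl).2, hx⟩
      · intro i hi j hj
        obtain ⟨y, hy⟩ := hs.2.2 i (mem_filter.1 (mem_filter.1 hi).1).1 j
          (mem_filter.1 (mem_filter.1 hj).1).1
        obtain ⟨h3, h4⟩ := mem_inter.1 hy
        have : y ∉ D := fun h' => disjoint_left.1 (mem_filter.1 hj).2.2 (mem_inter.2 ⟨h4, h'⟩)
          ((mem_filter.1 hi).2.1 (mem_inter.2 ⟨h3, h'⟩))
        exact ⟨y, mem_inter.2 ⟨mem_sdiff.2 ⟨h3, this⟩, mem_sdiff.2 ⟨h4, this⟩⟩⟩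
  have h3 : 2 ^ D.card * ∑ i ∈ J with x i ∉ D, fib_w P Q i ≤
      2 ^ D.card * (16 / 13 - 16 / 13 * fib_det J P Q D) := by
    rw [mul_sum, sum_congr rfl h1, sum_comm]
    refine (sum_le_sum h2).trans (le_of_eq ?_)
    rw [sum_sub_distrib, ← sum_filter, sum_const, sum_const, card_powerset, fib_det]
    simp only [nsmul_eq_mul, hdet]
    push_cast
    field_simp
  have h4 := le_of_mul_le_mul_left h3 (by positivity)
  rw [← sum_filter_add_sum_filter_not J fun i => x i ∈ D]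
  unfold fib_cost at hc
  linarith

lemma fib_cost_le (hs : fib_Sys J x P Q) (D E : Finset α) (b : ℝ) (hb : 0 ≤ b)
    (h1 : ∀ i ∈ J, fib_w P Q i ≤ b) (h2 : ∀ i ∈ J, x i ∈ D → x i ∉ E → fib_w P Q i ≤ b / 2) :
    fib_cost J x P Q D ≤ (D.card + E.card) * (b / 2) := by
  have e : ∀ i ∈ J.filter fun i => x i ∈ D,
      fib_w P Q i ≤ b / 2 + if x i ∈ E then b / 2 else 0 := by
    intro i hi
    obtain ⟨hi, hx⟩ := mem_filter.1 hi
    split_ifs with h
    · linarith [h1 i hi]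
    · linarith [h2 i hi hx h]
  refine (sum_le_sum e).trans ?_
  rw [sum_add_distrib, ← sum_filter, sum_const, sum_const, nsmul_eq_mul, nsmul_eq_mul, ← add_mul]
  refine mul_le_mul_of_nonneg_right (add_le_add (Nat.cast_le.2 ?_) (Nat.cast_le.2 ?_)) (by linarith)
  · exact card_le_card_of_injOn x (fun i hi => (mem_filter.1 hi).2)
      (hs.1.mono (coe_subset.2 (filter_subset _ _)))
  · exact card_le_card_of_injOn x (fun i hi => (mem_filter.1 hi).2)
      (hs.1.mono (coe_subset.2 ((filter_subset _ _).trans (filter_subset _ _))))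

omit [DecidableEq α] in
lemma fib_w_le {r : ℕ} {i : ι} (h1 : r + 1 ≤ (P i).card) (h2 : r + 1 ≤ (Q i).card) :
    fib_w P Q i ≤ (1 / 2) ^ (2 * r) :=
  pow_le_pow_of_le_one (by norm_num) (by norm_num) (by omega)

omit [DecidableEq α] in
lemma fib_w_le' {r : ℕ} {i : ι} (h1 : r + 1 ≤ (P i).card) (h2 : r + 1 ≤ (Q i).card)
    (h : ¬ ((P i).card = r + 1 ∧ (Q i).card = r + 1)) : fib_w P Q i ≤ (1 / 2) ^ (2 * r) / 2 := by
  have : fib_w P Q i ≤ (1 / 2) ^ (2 * r + 1) :=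
    pow_le_pow_of_le_one (by norm_num) (by norm_num) (by omega)
  rw [pow_succ] at this
  linarith

lemma fib_num (r : ℕ) : ((r : ℝ) + 1) * (1 / 2) ^ (2 * r) ≤ (1 / 2) ^ r := by
  have h : (r : ℝ) + 1 ≤ 2 ^ r := by exact_mod_cast Nat.lt_two_pow_self
  have e : (2 : ℝ) ^ r * (1 / 2) ^ (2 * r) = (1 / 2) ^ r := by
    rw [two_mul, pow_add, ← mul_assoc, ← mul_pow]; norm_num
  rw [← e]
  exact mul_le_mul_of_nonneg_right h (by positivity)

lemma fib_num' (r : ℕ) (hr : 3 ≤ r) : ((r : ℝ) + 1) * (1 / 2) ^ (2 * r) ≤ (1 / 2) ^ (r + 1) := by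
  have h0 : ∀ n : ℕ, 2 * (n + 3 + 1) ≤ 2 ^ (n + 3) := by
    intro n
    induction n with
    | zero => norm_num
    | succ n ih => rw [show n + 1 + 3 = n + 3 + 1 by ring, pow_succ]; omega
  have h1 := h0 (r - 3)
  rw [Nat.sub_add_cancel hr] at h1
  have h : 2 * ((r : ℝ) + 1) ≤ 2 ^ r := by exact_mod_cast h1
  have e : (2 : ℝ) ^ r * (1 / 2) ^ (2 * r) = (1 / 2) ^ r := by
    rw [two_mul, pow_add, ← mul_assoc, ← mul_pow]; norm_num
  have := mul_le_mul_of_nonneg_right h (by positivity : (0 : ℝ) ≤ (1 / 2) ^ (2 * r))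
  rw [pow_succ]
  linarith

lemma fib_caseA (IH : fib_IH J x) (hs : fib_Sys J x P Q) {r : ℕ}
    (hr : ∀ i ∈ J, r + 1 ≤ (P i).card ∧ r + 1 ≤ (Q i).card) {i : ι} (hi : i ∈ J)
    (hP : (P i).card = r + 1) (hno : ∀ j ∈ J, ¬ ((P j).card = r + 1 ∧ (Q j).card = r + 1)) :
    ∑ i ∈ J, fib_w P Q i ≤ 16 / 13 := by
  refine fib_step IH hs (P i) hi (fib_mem hs hi).1 ?_
  have h1 := fib_cost_le hs (P i) ∅ _ (by positivity) (fun j hj => fib_w_le (hr j hj).1 (hr j hj).2)
    fun j hj _ _ => fib_w_le' (hr j hj).1 (hr j hj).2 (hno j hj)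
  have h2 := fib_det_one (Q := Q) (P i) hi subset_rfl
  have h3 := fib_num r
  have h4 : (0 : ℝ) ≤ (1 / 2) ^ r := by positivity
  rw [hP] at h1 h2
  rw [pow_succ] at h2
  simp only [card_empty] at h1
  push_cast at h1
  linarith

lemma fib_caseB (IH : fib_IH J x) (hs : fib_Sys J x P Q) {r : ℕ}
    (hr : ∀ i ∈ J, r + 1 ≤ (P i).card ∧ r + 1 ≤ (Q i).card) {i : ι} (hi : i ∈ J)
    (hP : (P i).card = r + 1) (hQ : (Q i).card = r + 1)
    (hno : ∀ j ∈ J, x j ∈ P i ∪ Q i → x j ≠ x i → ¬ ((P j).card = r + 1 ∧ (Q j).card = r + 1)) :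
    ∑ i ∈ J, fib_w P Q i ≤ 16 / 13 := by
  refine fib_step IH hs (P i ∪ Q i) hi (mem_union_left _ (fib_mem hs hi).1) ?_
  have h1 := fib_cost_le hs (P i ∪ Q i) {x i} _ (by positivity)
    (fun j hj => fib_w_le (hr j hj).1 (hr j hj).2)
    fun j hj h h' => fib_w_le' (hr j hj).1 (hr j hj).2 (hno j hj h (by simpa using h'))
  have h2 := fib_det_two hs (P i ∪ Q i) hi hi hi hi subset_union_left subset_union_left
    subset_union_right subset_union_right
  have h3 := fib_num r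
  have h4 : (0 : ℝ) ≤ (1 / 2) ^ r := by positivity
  have h5 := card_union_add_card_inter (P i) (Q i)
  rw [hs.2.1 i hi, hP, hQ] at h5
  have h6 := congrArg (Nat.cast : ℕ → ℝ) h5
  push_cast at h6
  rw [h6] at h1
  rw [union_self, union_self, hP, hQ, pow_succ] at h2
  linarith

lemma fib_caseC (IH : fib_IH J x) (hs : fib_Sys J x P Q) {r : ℕ}
    (hr : ∀ i ∈ J, r + 1 ≤ (P i).card ∧ r + 1 ≤ (Q i).card) {i j : ι} (hi : i ∈ J) (hj : j ∈ J)
    (hP : (P i).card = r + 1) (hQ : (Q i).card = r + 1) (hQ' : (Q j).card = r + 1)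
    (hxj : x j ∈ P i) (hne : x j ≠ x i) : ∑ i ∈ J, fib_w P Q i ≤ 16 / 13 := by
  have hw := fun l hl => fib_w_le (hr l hl).1 (hr l hl).2
  have hall : ∀ D, fib_cost J x P Q D ≤ D.card * (1 / 2) ^ (2 * r) := fun D => by
    have := fib_cost_le hs D D _ (by positivity) hw fun l _ h h' => absurd h h'
    linarith
  by_cases h3 : 3 ≤ r
  · refine fib_step IH hs (P i) hi (fib_mem hs hi).1 ?_
    have h1 := hall (P i)
    have h2 := fib_det_one (Q := Q) (P i) hi subset_rfl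
    have h4 := fib_num' r h3
    have h5 : (0 : ℝ) ≤ (1 / 2) ^ (r + 1) := by positivity
    rw [hP] at h1 h2
    push_cast at h1
    linarith
  have hsub : {x j, x i} ⊆ P i ∩ (Q i ∪ Q j) := by
    intro y hy
    rcases mem_insert.1 hy with rfl | hy
    · exact mem_inter.2 ⟨hxj, mem_union_right _ (fib_mem hs hj).2⟩
    · rw [mem_singleton.1 hy]
      exact mem_inter.2 ⟨(fib_mem hs hi).1, mem_union_left _ (fib_mem hs hi).2⟩
  have c1 := card_le_card hsub
  rw [card_pair hne] at c1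
  have c2 := card_union_add_card_inter (P i) (Q i ∪ Q j)
  have c3 := card_union_add_card_inter (Q i) (Q j)
  have c4 : (P i ∩ (Q i ∪ Q j)).card ≤ (P i).card := card_le_card inter_subset_left
  have hxQ : x j ∉ Q i := fun h => hne (by
    have : x j ∈ P i ∩ Q i := mem_inter.2 ⟨hxj, h⟩
    rwa [hs.2.1 i hi, mem_singleton] at this)
  have c5 : (Q i).card < (Q i ∪ Q j).card :=
    card_lt_card ⟨subset_union_left, fun h => hxQ (h (mem_union_right _ (fib_mem hs hj).2))⟩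
  set D := P i ∪ (Q i ∪ Q j) with hD
  have s1 : P i ⊆ D := subset_union_left
  have s2 : Q i ⊆ D := subset_union_left.trans subset_union_right
  have s3 : Q j ⊆ D := subset_union_right.trans subset_union_right
  refine fib_step IH hs D hi (s1 (fib_mem hs hi).1) ?_
  have h1 := hall D
  have h2 := fib_det_two hs D hi hi hi hj s1 s1 s2 s3
  rw [union_self, hP, hQ, hQ'] at h2
  have c6 : (D.card : ℝ) + 1 ≤ r + (Q i ∪ Q j).card := by
    exact_mod_cast (by omega : D.card + 1 ≤ r + (Q i ∪ Q j).card)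
  have hcase : (r = 1 ∧ (Q i ∪ Q j).card = 4) ∨ (r = 1 ∧ (Q i ∪ Q j).card = 3) ∨
      (r = 2 ∧ (Q i ∪ Q j).card = 4) ∨ (r = 2 ∧ (Q i ∪ Q j).card = 5) ∨
      (r = 2 ∧ (Q i ∪ Q j).card = 6) := by omega
  rcases hcase with ⟨rfl, hm⟩ | ⟨rfl, hm⟩ | ⟨rfl, hm⟩ | ⟨rfl, hm⟩ | ⟨rfl, hm⟩
  · rw [hm] at h2 c6
    push_cast at c6
    by_cases hl : ∃ l ∈ J, x l ∈ D ∧ x l ∉ P i ∧ (P l).card = 2
    · obtain ⟨l, hl, -, hl2, hl3⟩ := hl
      have s4 : P l ⊆ D := by
        obtain ⟨y, hy⟩ := hs.2.2 l hl i hi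
        obtain ⟨y', hy'⟩ := hs.2.2 l hl j hj
        have hyy : y ≠ y' := by
          rintro rfl
          have : 0 < (Q i ∩ Q j).card :=
            card_pos.2 ⟨y, mem_inter.2 ⟨(mem_inter.1 hy).2, (mem_inter.1 hy').2⟩⟩
          omega
        have : {y, y'} = P l := eq_of_subset_of_card_le (insert_subset (mem_inter.1 hy).1
          (singleton_subset_iff.2 (mem_inter.1 hy').1)) (by rw [card_pair hyy, hl3])
        rw [← this]
        exact insert_subset (s2 (mem_inter.1 hy).2)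
          (singleton_subset_iff.2 (s3 (mem_inter.1 hy').2))
      have h4 := fib_det_two hs D hi hl hi hj s1 s4 s2 s3
      have c7 : (P i).card < (P i ∪ P l).card :=
        card_lt_card ⟨subset_union_left, fun h => hl2 (h (mem_union_right _ (fib_mem hs hl).1))⟩
      have h5 : (1 / 2 : ℝ) ^ (P i ∪ P l).card ≤ (1 / 2) ^ 3 :=
        pow_le_pow_of_le_one (by norm_num) (by norm_num) (by omega)
      rw [hP, hQ, hQ', hl3, hm] at h4
      norm_num at h1 h4 h5 ⊢
      linarith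
    · have h4 := fib_cost_le hs D (P i) _ (by positivity) hw fun l hl' h h' =>
        fib_w_le' (hr l hl').1 (hr l hl').2 fun h'' => hl ⟨l, hl', h, h', h''.1⟩
      rw [hP] at h4
      norm_num at h2 h4 ⊢
      linarith
  all_goals
    rw [hm] at h2 c6
    push_cast at c6
    norm_num at h1 h2 ⊢
    linarith

lemma fib_main (n : ℕ) : ∀ J : Finset ι, J.card = n → ∀ P Q, fib_Sys J x P Q →
    ∑ i ∈ J, fib_w P Q i ≤ 16 / 13 := by
  induction n using Nat.strong_induction_on with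
  | _ n ih =>
    intro J hJ P Q hs
    have IH : fib_IH J x := fun J' h P Q hs => ih _ (hJ ▸ h) J' rfl P Q hs
    rcases J.eq_empty_or_nonempty with rfl | hne
    · norm_num
    obtain ⟨i, hi, hmin⟩ := exists_min_image J (fun i => min (P i).card (Q i).card) hne
    have hpos : 0 < min (P i).card (Q i).card :=
      lt_min (card_pos.2 ⟨_, (fib_mem hs hi).1⟩) (card_pos.2 ⟨_, (fib_mem hs hi).2⟩)
    obtain ⟨r, hr⟩ : ∃ r, min (P i).card (Q i).card = r + 1 :=
      ⟨_, (Nat.succ_pred_eq_of_pos hpos).symm⟩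
    have h1 : ∀ j ∈ J, r + 1 ≤ (P j).card ∧ r + 1 ≤ (Q j).card := fun j hj =>
      le_min_iff.1 (hr ▸ hmin j hj)
    have h1' : ∀ j ∈ J, r + 1 ≤ (Q j).card ∧ r + 1 ≤ (P j).card := fun j hj => (h1 j hj).symm
    have sw : ∑ i ∈ J, fib_w Q P i ≤ 16 / 13 → ∑ i ∈ J, fib_w P Q i ≤ 16 / 13 := fun h => by
      simpa only [fib_w_symm P Q] using h
    by_cases hh : ∃ a ∈ J, (P a).card = r + 1 ∧ (Q a).card = r + 1
    · obtain ⟨a, ha, hP, hQ⟩ := hh
      by_cases hb : ∃ b ∈ J, x b ∈ P a ∪ Q a ∧ x b ≠ x a ∧ (P b).card = r + 1 ∧ (Q b).card = r + 1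
      · obtain ⟨b, hb, h2, h3, hP', hQ'⟩ := hb
        rcases mem_union.1 h2 with h2 | h2
        · exact fib_caseC IH hs h1 ha hb hP hQ hQ' h2 h3
        · exact sw (fib_caseC IH (fib_symm hs) h1' ha hb hQ hP hP' h2 h3)
      · exact fib_caseB IH hs h1 ha hP hQ fun b hb' h2 h3 h4 => hb ⟨b, hb', h2, h3, h4⟩
    · rcases min_choice (P i).card (Q i).card with h | h
      · exact fib_caseA IH hs h1 hi (h ▸ hr) fun b hb h2 => hh ⟨b, hb, h2⟩
      · exact sw (fib_caseA IH (fib_symm hs) h1' hi (h ▸ hr) fun b hb h2 => hh ⟨b, hb, h2.symm⟩)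

end

theorem fiber {ι α : Type*} [DecidableEq α] (J : Finset ι) (x : ι → α) (P Q : ι → Finset α)
    (hx : Set.InjOn x J) (h1 : ∀ i ∈ J, P i ∩ Q i = {x i})
    (h2 : ∀ i ∈ J, ∀ j ∈ J, (P i ∩ Q j).Nonempty) :
    ∑ i ∈ J, (1 / 2 : ℝ) ^ ((P i).card + (Q i).card - 2) ≤ 16 / 13 :=
  fib_main _ J rfl P Q ⟨hx, h1, h2⟩

end Pool.Agent.P.MP_c09308_co
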