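import Mathlib
import Pool.Agent.P.MP_c09308_co.Clean
import Pool.Agent.P.MP_c09308_co.Fiber

namespace Pool.Agent.P.MP_c09308_co

open Finset

variable {V : Type*} [Fintype V] [LinearOrder V]

omit [Fintype V] in
theorem poor_meet {S S' X : Finset V} (h : (S ∩ S').Nonempty) (hd : Disjoint (S \ X) (S' \ X)) :
    ((S ∩ X) ∩ (S' ∩ X)).Nonempty := by
  obtain ⟨z, hz⟩ := h
  rw [mem_inter] at hz
  have hX : z ∈ X := by
    by_contra hX
    exact disjoint_left.1 hd (mem_sdiff.2 ⟨hz.1, hX⟩) (mem_sdiff.2 ⟨hz.2, hX⟩)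
  exact ⟨z, by simp [hz.1, hz.2, hX]⟩

/-- The weight of a pair of edges, determined by the number of its poor points. -/
noncomputable def wt (X S S' : Finset V) : ℝ :=
  (1 / 2 : ℝ) ^ ((S ∩ X).card + (S' ∩ X).card - 2)

omit [Fintype V] in
theorem wt_pos (X S S' : Finset V) : 0 < wt X S S' := by
  unfold wt
  positivity

section

variable {ι : Type*} {n : ℕ} {F : Finset (Finset V)} {X : Finset V} {J : Finset ι} {piv : ι → V}
  {L R : ι → Finset V}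

omit [Fintype V] in
theorem point_all (hint : ∀ C ∈ F, ∀ C' ∈ F, (C ∩ C').Nonempty)
    (hJ : ∀ a ∈ J, L a ∈ F ∧ R a ∈ F ∧ L a ∩ R a = {piv a} ∧ piv a ∈ X)
    (hinj : Set.InjOn piv J) (hd : ∀ a ∈ J, ∀ b ∈ J, Disjoint (L a \ X) (R b \ X)) :
    ∑ a ∈ J, wt X (L a) (R a) ≤ 16 / 13 := by
  refine fiber J piv (fun a => L a ∩ X) (fun a => R a ∩ X) hinj ?_ ?_
  · intro a ha
    obtain ⟨_, _, h3, h4⟩ := hJ a ha
    rw [inter_inter_inter_comm, h3, inter_self, singleton_inter_of_mem h4]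
  · intro a ha b hb
    exact poor_meet (hint _ (hJ a ha).1 _ (hJ b hb).2.1) (hd a ha b hb)

omit [Fintype V] in
theorem point_single (hint : ∀ C ∈ F, ∀ C' ∈ F, (C ∩ C').Nonempty)
    (hJ : ∀ a ∈ J, L a ∈ F ∧ R a ∈ F ∧ L a ∩ R a = {piv a} ∧ piv a ∈ X)
    (hinj : Set.InjOn piv J) (hd : ∀ a ∈ J, ∀ b ∈ J, Disjoint (L a \ X) (R b \ X))
    {a : ι} (ha : a ∈ J) (h1 : (L a ∪ R a) ∩ X = {piv a}) : J = {a} := by
  refine eq_singleton_iff_unique_mem.2 ⟨ha, fun b hb => ?_⟩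
  obtain ⟨z, hz⟩ := poor_meet (hint _ (hJ a ha).1 _ (hJ b hb).2.1) (hd a ha b hb)
  obtain ⟨z', hz'⟩ := poor_meet (hint _ (hJ b hb).1 _ (hJ a ha).2.1) (hd b hb a ha)
  simp only [mem_inter] at hz hz'
  have e1 : z = piv a := by
    rw [← mem_singleton, ← h1]
    simp [hz.1.1, hz.1.2]
  have e2 : z' = piv a := by
    rw [← mem_singleton, ← h1]
    simp [hz'.2.1, hz'.2.2]
  have e3 : piv a = piv b := by
    rw [← mem_singleton, ← (hJ b hb).2.2.1]
    exact mem_inter.2 ⟨e2 ▸ hz'.1.1, e1 ▸ hz.2.1⟩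
  exact (hinj ha hb e3).symm

theorem point_rigid (hF : ∀ C ∈ F, C.card = n) (hint : ∀ C ∈ F, ∀ C' ∈ F, (C ∩ C').Nonempty)
    (hτ : ∀ T : Finset V, T.card < n → ∃ C ∈ F, Disjoint C T)
    (hJ : ∀ a ∈ J, L a ∈ F ∧ R a ∈ F ∧ L a ∩ R a = {piv a} ∧ piv a ∈ X)
    (hinj : Set.InjOn piv J) (hd : ∀ a ∈ J, ∀ b ∈ J, Disjoint (L a \ X) (R b \ X))
    (hL : ∀ a ∈ J, ∀ b ∈ J, ((L a \ X) ∩ (L b \ X)).Nonempty)
    (hR : ∀ a ∈ J, ∀ b ∈ J, ((R a \ X) ∩ (R b \ X)).Nonempty)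
    (hne : ∀ a ∈ J, (L a ∪ R a) ∩ X ≠ {piv a})
    (hrig : ∀ a ∈ J, ∀ C ∈ F, piv a ∈ C → L a \ X ⊆ C ∨ R a \ X ⊆ C) :
    ∑ a ∈ J, wt X (L a) (R a) ≤ 1 / 2 := by
  have hpL : ∀ a ∈ J, piv a ∈ L a := fun a ha =>
    (mem_inter.1 ((hJ a ha).2.2.1 ▸ mem_singleton_self (piv a))).1
  have hpR : ∀ a ∈ J, piv a ∈ R a := fun a ha =>
    (mem_inter.1 ((hJ a ha).2.2.1 ▸ mem_singleton_self (piv a))).2
  have hX : ∀ a ∈ J, ∀ S : Finset V, piv a ∉ S \ X := fun a ha S h =>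
    (mem_sdiff.1 h).2 (hJ a ha).2.2.2
  have hc : ∀ a ∈ J, ((L a ∩ X).erase (piv a)).card + ((R a ∩ X).erase (piv a)).card
      = (L a ∩ X).card + (R a ∩ X).card - 2 := by
    intro a ha
    have h1 := card_erase_add_one (mem_inter.2 ⟨hpL a ha, (hJ a ha).2.2.2⟩)
    have h2 := card_erase_add_one (mem_inter.2 ⟨hpR a ha, (hJ a ha).2.2.2⟩)
    omega
  have h := bollobas_half J (fun a => (L a ∩ X).erase (piv a)) (fun a => (R a ∩ X).erase (piv a))
    (by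
      intro a ha
      refine disjoint_left.2 fun z h1 h2 => ?_
      simp only [mem_erase, mem_inter] at h1 h2
      exact h1.1 (mem_singleton.1 ((hJ a ha).2.2.1 ▸ mem_inter.2 ⟨h1.2.1, h2.2.1⟩)))
    (by
      intro a ha
      by_contra hlt
      have h1 : (L a ∩ X).erase (piv a) = ∅ := card_eq_zero.1 (by omega)
      have h2 : (R a ∩ X).erase (piv a) = ∅ := card_eq_zero.1 (by omega)
      refine hne a ha (eq_singleton_iff_unique_mem.2
        ⟨mem_inter.2 ⟨mem_union_left _ (hpL a ha), (hJ a ha).2.2.2⟩, fun z hz => ?_⟩)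
      by_contra hz'
      rw [mem_inter, mem_union] at hz
      rcases hz.1 with h | h
      · exact notMem_empty z (h1 ▸ mem_erase.2 ⟨hz', mem_inter.2 ⟨h, hz.2⟩⟩)
      · exact notMem_empty z (h2 ▸ mem_erase.2 ⟨hz', mem_inter.2 ⟨h, hz.2⟩⟩))
    (by
      intro a ha b hb hab
      have hp : piv a ≠ piv b := fun e => hab (hinj ha hb e)
      obtain ⟨z, hz⟩ := poor_meet (hint _ (hJ a ha).1 _ (hJ b hb).2.1) (hd a ha b hb)
      rw [mem_inter] at hz
      have h1 : z ≠ piv b := by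
        rintro rfl
        exact rigid_pair hint hτ (hJ a ha).1 (hF _ (hJ a ha).1) (hpL a ha) (mem_inter.1 hz.1).1 hp
          sdiff_subset (hX a ha _) (hX b hb _) (hL a ha b hb) (hR a ha b hb) (hrig a ha)
          (hrig b hb)
      have h2 : z ≠ piv a := by
        rintro rfl
        exact rigid_pair hint hτ (hJ b hb).2.1 (hF _ (hJ b hb).2.1) (hpR b hb)
          (mem_inter.1 hz.2).1 hp.symm sdiff_subset (hX b hb _) (hX a ha _) (hR b hb a ha)
          (hL b hb a ha) (fun C hC h => (hrig b hb C hC h).symm)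
          (fun C hC h => (hrig a ha C hC h).symm)
      exact not_disjoint_iff.2 ⟨z, mem_erase.2 ⟨h2, hz.1⟩, mem_erase.2 ⟨h1, hz.2⟩⟩)
  refine le_trans (le_of_eq (sum_congr rfl fun a ha => ?_)) h
  rw [hc a ha]
  rfl

end

/-- Sizes of cores and the weighted probability of the event of a pivot pair. -/
theorem pair_facts {n K : ℕ} {X S S' : Finset V} {x : V} (hS : S.card = n) (hS' : S'.card = n)
    (hx : S ∩ S' = {x}) (hX : x ∈ X) (hK : ((S ∪ S') ∩ X).card ≤ K) :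
    Disjoint (S \ X) (S' \ X) ∧ n - K ≤ (S \ X).card ∧ n - K ≤ (S' \ X).card ∧
      (S \ X).card + 1 ≤ n ∧ (S' \ X).card + 1 ≤ n ∧ pp n ≤ pr (Ev (S \ X) (S' \ X)) ∧
      (1 - (K : ℝ) / n) * pp n ≤ wt X S S' * pr (Ev (S \ X) (S' \ X)) := by
  have hd : Disjoint (S \ X) (S' \ X) := by
    refine disjoint_left.2 fun z h1 h2 => ?_
    rw [mem_sdiff] at h1 h2
    have : z = x := mem_singleton.1 (hx ▸ mem_inter.2 ⟨h1.1, h2.1⟩)
    exact h1.2 (this ▸ hX)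
  have hxS := mem_inter.1 (hx ▸ mem_singleton_self x)
  have h1 := card_sdiff_add_card_inter S X
  have h2 := card_sdiff_add_card_inter S' X
  have h3 : 1 ≤ (S ∩ X).card := card_pos.2 ⟨x, mem_inter.2 ⟨hxS.1, hX⟩⟩
  have h4 : 1 ≤ (S' ∩ X).card := card_pos.2 ⟨x, mem_inter.2 ⟨hxS.2, hX⟩⟩
  have h5 := card_union_add_card_inter (S ∩ X) (S' ∩ X)
  rw [← union_inter_distrib_right, inter_inter_inter_comm, hx, inter_self,
    singleton_inter_of_mem hX, card_singleton] at h5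
  refine ⟨hd, by omega, by omega, by omega, by omega, pp_le_pr hd (by omega) (by omega), ?_⟩
  rw [pr_Ev hd]
  exact weight_bound (h1.trans hS) (h2.trans hS') h3 h4 (by omega)

end Pool.Agent.P.MP_c09308_co
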