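import Mathlib
import Pool.Agent.P.MP_c09308_co.Point

namespace Pool.Agent.P.MP_c09308_co

open Finset

variable {V : Type*} [Fintype V] [LinearOrder V]

/-- The left edge of an event: pivot, primary or secondary pair, orientation. -/
def sel (A B A' B' : V → Finset V) (a : V × Bool × Bool) : Finset V :=
  cond a.2.1 (cond a.2.2 (A' a.1) (B' a.1)) (cond a.2.2 (A a.1) (B a.1))

/-- The event with the opposite orientation. -/
def flp (a : V × Bool × Bool) : V × Bool × Bool := (a.1, a.2.1, !a.2.2)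

/-- The list of events. -/
def Evs (I Ds : Finset V) : Finset (V × Bool × Bool) :=
  (I ×ˢ ({false} ×ˢ univ)) ∪ (Ds ×ˢ ({true} ×ˢ univ))

omit [Fintype V] in
theorem mem_Evs {I Ds : Finset V} {x : V} {s t : Bool} :
    (x, s, t) ∈ Evs I Ds ↔ (s = false ∧ x ∈ I) ∨ (s = true ∧ x ∈ Ds) := by
  simp only [Evs, mem_union, mem_product, mem_singleton, mem_univ, and_true]
  tauto

omit [Fintype V] in
theorem sum_Evs {M : Type*} [AddCommMonoid M] (I Ds : Finset V) (f : V × Bool × Bool → M) :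
    ∑ a ∈ Evs I Ds, f a = ∑ x ∈ I, (f (x, false, true) + f (x, false, false))
      + ∑ x ∈ Ds, (f (x, true, true) + f (x, true, false)) := by
  unfold Evs
  rw [sum_union]
  · simp [sum_product]
  · refine disjoint_left.2 fun a h1 h2 => ?_
    simp only [mem_product, mem_singleton] at h1 h2
    exact absurd (h1.2.1.symm.trans h2.2.1) (by decide)

/-- The data after all pruning steps. -/
structure Sys (n K : ℕ) (F : Finset (Finset V)) (X I₁ Fs Ds : Finset V)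
    (A B A' B' : V → Finset V) : Prop where
  hK : K < n
  hF : ∀ C ∈ F, C.card = n
  hint : ∀ C ∈ F, ∀ C' ∈ F, (C ∩ C').Nonempty
  hτ : ∀ T : Finset V, T.card < n → ∃ C ∈ F, Disjoint C T
  hI : I₁ ∪ Fs ∪ Ds ⊆ X
  hd1 : Disjoint I₁ Fs
  hd2 : Disjoint I₁ Ds
  hd3 : Disjoint Fs Ds
  hP : ∀ x ∈ I₁ ∪ Fs ∪ Ds, A x ∈ F ∧ B x ∈ F ∧ A x ∩ B x = {x} ∧ ((A x ∪ B x) ∩ X).card ≤ K
  hI₁ : ∀ x ∈ I₁, (A x ∪ B x) ∩ X = {x}
  hFs : ∀ x ∈ Fs, (A x ∪ B x) ∩ X ≠ {x} ∧ ∀ C ∈ F, x ∈ C → A x \ X ⊆ C ∨ B x \ X ⊆ C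
  hDs : ∀ x ∈ Ds, A' x ∈ F ∧ B' x ∈ F ∧ A' x ∩ B' x = {x} ∧
    ((A' x ∪ B' x) ∩ X).card ≤ K ∧ ¬ A x \ X ⊆ A' x ∧ ¬ B x \ X ⊆ A' x

/-- The left core of an event. -/
def lc (X : Finset V) (A B A' B' : V → Finset V) (a : V × Bool × Bool) : Finset V :=
  sel A B A' B' a \ X

/-- The right core of an event. -/
def rc (X : Finset V) (A B A' B' : V → Finset V) (a : V × Bool × Bool) : Finset V :=
  sel A B A' B' (flp a) \ X

/-- The portion of an event that is counted. -/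
noncomputable def act (E : Finset (V × Bool × Bool)) (X : Finset V) (A B A' B' : V → Finset V)
    (a : V × Bool × Bool) : Finset (Equiv.Perm V) :=
  cond a.2.1
    (Cl E (lc X A B A' B') (rc X A B A' B') a \
      (Ev (A a.1 \ X) (B a.1 \ X) ∪ Ev (B a.1 \ X) (A a.1 \ X)))
    (Cl E (lc X A B A' B') (rc X A B A' B') a)

/-- The coefficient of an event. -/
noncomputable def coef (X I₁ Fs : Finset V) (A B A' B' : V → Finset V) (a : V × Bool × Bool) :
    ℝ :=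
  if a.1 ∈ I₁ then 1 else
    (if a.1 ∈ Fs then 201 / 200 else 67 / 100) * wt X (sel A B A' B' a) (sel A B A' B' (flp a))

theorem act_subset (E : Finset (V × Bool × Bool)) (X : Finset V) (A B A' B' : V → Finset V)
    (a : V × Bool × Bool) : act E X A B A' B' a ⊆ Cl E (lc X A B A' B') (rc X A B A' B') a := by
  obtain ⟨x, s, t⟩ := a
  cases s
  · exact Subset.rfl
  · exact sdiff_subset

theorem Ev_swap_disjoint {a b : Finset V} (ha : a.Nonempty) (hb : b.Nonempty)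
    {σ : Equiv.Perm V} (h : σ ∈ Ev a b) (h' : σ ∈ Ev b a) : False := by
  obtain ⟨x, hx⟩ := ha
  obtain ⟨y, hy⟩ := hb
  exact lt_asymm (mem_Ev.1 h x hx y hy) (mem_Ev.1 h' y hy x hx)

section

variable {n K : ℕ} {F : Finset (Finset V)} {X I₁ Fs Ds : Finset V} {A B A' B' : V → Finset V}

omit [Fintype V] in
theorem Sys.ev (h : Sys n K F X I₁ Fs Ds A B A' B') {a : V × Bool × Bool}
    (ha : a ∈ Evs (I₁ ∪ Fs ∪ Ds) Ds) :
    sel A B A' B' a ∈ F ∧ sel A B A' B' (flp a) ∈ F ∧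
      sel A B A' B' a ∩ sel A B A' B' (flp a) = {a.1} ∧ a.1 ∈ X ∧
      ((sel A B A' B' a ∪ sel A B A' B' (flp a)) ∩ X).card ≤ K := by
  obtain ⟨x, s, t⟩ := a
  rcases mem_Evs.1 ha with ⟨rfl, hx⟩ | ⟨rfl, hx⟩
  · obtain ⟨h1, h2, h3, h4⟩ := h.hP x hx
    cases t
    · exact ⟨h2, h1, (inter_comm _ _).trans h3, h.hI hx, by rw [union_comm] at h4; exact h4⟩
    · exact ⟨h1, h2, h3, h.hI hx, h4⟩
  · obtain ⟨h1, h2, h3, h4, _⟩ := h.hDs x hx
    have hX := h.hI (mem_union_right _ hx)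
    cases t
    · exact ⟨h2, h1, (inter_comm _ _).trans h3, hX, by rw [union_comm] at h4; exact h4⟩
    · exact ⟨h1, h2, h3, hX, h4⟩

theorem Sys.facts (h : Sys n K F X I₁ Fs Ds A B A' B') {a : V × Bool × Bool}
    (ha : a ∈ Evs (I₁ ∪ Fs ∪ Ds) Ds) :
    Disjoint (lc X A B A' B' a) (rc X A B A' B' a) ∧ n - K ≤ (lc X A B A' B' a).card ∧
      n - K ≤ (rc X A B A' B' a).card ∧ (lc X A B A' B' a).card + 1 ≤ n ∧
      (rc X A B A' B' a).card + 1 ≤ n ∧ pp n ≤ pr (Ev (lc X A B A' B' a) (rc X A B A' B' a)) ∧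
      (1 - (K : ℝ) / n) * pp n ≤ wt X (sel A B A' B' a) (sel A B A' B' (flp a)) *
        pr (Ev (lc X A B A' B' a) (rc X A B A' B' a)) := by
  obtain ⟨h1, h2, h3, h4, h5⟩ := h.ev ha
  exact pair_facts (h.hF _ h1) (h.hF _ h2) h3 h4 h5

theorem Sys.nonempty (h : Sys n K F X I₁ Fs Ds A B A' B') {a : V × Bool × Bool}
    (ha : a ∈ Evs (I₁ ∪ Fs ∪ Ds) Ds) :
    (lc X A B A' B' a).Nonempty ∧ (rc X A B A' B' a).Nonempty := by
  obtain ⟨_, h2, h3, _⟩ := h.facts ha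
  have := h.hK
  exact ⟨card_pos.1 (by omega), card_pos.1 (by omega)⟩

theorem Sys.inj (h : Sys n K F X I₁ Fs Ds A B A' B') (σ : Equiv.Perm V) :
    Set.InjOn Prod.fst (((Evs (I₁ ∪ Fs ∪ Ds) Ds).filter
      fun a => σ ∈ act (Evs (I₁ ∪ Fs ∪ Ds) Ds) X A B A' B' a : Finset (V × Bool × Bool)) :
      Set (V × Bool × Bool)) := by
  rintro ⟨x, s, t⟩ ha ⟨y, s', t'⟩ hb hxy
  obtain rfl : x = y := hxy
  rw [mem_coe, mem_filter] at ha hb
  have ea := Cl_subset _ _ _ _ (act_subset _ _ _ _ _ _ _ ha.2)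
  have eb := Cl_subset _ _ _ _ (act_subset _ _ _ _ _ _ _ hb.2)
  obtain ⟨n1, n2⟩ := h.nonempty ha.1
  cases s <;> cases s' <;> cases t <;> cases t'
  all_goals first
    | rfl
    | exact (Ev_swap_disjoint n1 n2 ea eb).elim
    | exact ((mem_sdiff.1 ha.2).2 (mem_union_left _ eb)).elim
    | exact ((mem_sdiff.1 ha.2).2 (mem_union_right _ eb)).elim
    | exact ((mem_sdiff.1 hb.2).2 (mem_union_left _ ea)).elim
    | exact ((mem_sdiff.1 hb.2).2 (mem_union_right _ ea)).elim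

theorem Sys.point (h : Sys n K F X I₁ Fs Ds A B A' B') (σ : Equiv.Perm V) :
    (∑ a ∈ Evs (I₁ ∪ Fs ∪ Ds) Ds, (if σ ∈ act (Evs (I₁ ∪ Fs ∪ Ds) Ds) X A B A' B' a
        then coef X I₁ Fs A B A' B' a else 0) ≤ 1) ∧
      ((∀ y ∈ I₁, σ ∉ Ev (A y \ X) (B y \ X) ∧ σ ∉ Ev (B y \ X) (A y \ X)) →
        ∑ a ∈ Evs (I₁ ∪ Fs ∪ Ds) Ds, (if σ ∈ act (Evs (I₁ ∪ Fs ∪ Ds) Ds) X A B A' B' a
          then coef X I₁ Fs A B A' B' a else 0) ≤ 199 / 200) := by
  rw [← sum_filter]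
  have hinj := h.inj σ
  set E := Evs (I₁ ∪ Fs ∪ Ds) Ds with hE
  set J := E.filter fun a => σ ∈ act E X A B A' B' a with hJ
  have hJE : ∀ a ∈ J, a ∈ E := fun a ha => (mem_filter.1 ha).1
  have hCl : ∀ a ∈ J, σ ∈ Cl E (lc X A B A' B') (rc X A B A' B') a := fun a ha =>
    act_subset _ _ _ _ _ _ _ (mem_filter.1 ha).2
  have hag : ∀ a ∈ J, ∀ b ∈ J, Agree (lc X A B A' B' a) (rc X A B A' B' a) (lc X A B A' B' b)
      (rc X A B A' B' b) σ := fun a ha b hb =>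
    (mem_Cl.1 (hCl a ha)).2 b (hJE b hb) (mem_Cl.1 (hCl b hb)).1
  have hJ1 : ∀ a ∈ J, sel A B A' B' a ∈ F ∧ sel A B A' B' (flp a) ∈ F ∧
      sel A B A' B' a ∩ sel A B A' B' (flp a) = {a.1} ∧ a.1 ∈ X := fun a ha =>
    let ⟨h1, h2, h3, h4, _⟩ := h.ev (hJE a ha)
    ⟨h1, h2, h3, h4⟩
  have hd : ∀ a ∈ J, ∀ b ∈ J, Disjoint (sel A B A' B' a \ X) (sel A B A' B' (flp b) \ X) :=
    fun a ha b hb => disjoint_of_mem_Ev ((hag a ha b hb).mem_right (mem_Cl.1 (hCl b hb)).1)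
  have hno : (∀ a ∈ J, a.1 ∉ I₁) → ∑ a ∈ J, coef X I₁ Fs A B A' B' a ≤ 199 / 200 := by
    intro hn
    have w1 := point_all (L := sel A B A' B') (R := fun a => sel A B A' B' (flp a)) h.hint hJ1
      hinj hd
    have hprim : ∀ a ∈ J.filter fun a => a.1 ∈ Fs, ∃ t, a = (a.1, false, t) := by
      rintro ⟨x, s, t⟩ ha
      rw [mem_filter] at ha
      rcases mem_Evs.1 (hJE _ ha.1) with ⟨rfl, _⟩ | ⟨rfl, hx⟩
      · exact ⟨t, rfl⟩
      · exact (disjoint_left.1 h.hd3 ha.2 hx).elim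
    have w2 := point_rigid (J := J.filter fun a => a.1 ∈ Fs) (piv := Prod.fst)
      (L := sel A B A' B') (R := fun a => sel A B A' B' (flp a)) (X := X) h.hF h.hint h.hτ
      (fun a ha => hJ1 a (mem_filter.1 ha).1) (hinj.mono (coe_subset.2 (filter_subset _ _)))
      (fun a ha b hb => hd a (mem_filter.1 ha).1 b (mem_filter.1 hb).1)
      (fun a ha b hb => (hag a (mem_filter.1 ha).1 b (mem_filter.1 hb).1).left)
      (fun a ha b hb => (hag a (mem_filter.1 ha).1 b (mem_filter.1 hb).1).right)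
      (by
        intro a ha
        obtain ⟨t, ht⟩ := hprim a ha
        have h1 := (h.hFs a.1 (mem_filter.1 ha).2).1
        rw [ht]
        cases t
        · rw [union_comm] at h1
          exact h1
        · exact h1)
      (by
        intro a ha C hC hx
        obtain ⟨t, ht⟩ := hprim a ha
        have h1 := (h.hFs a.1 (mem_filter.1 ha).2).2 C hC hx
        rw [ht]
        cases t
        · exact h1.symm
        · exact h1)
    rw [sum_filter] at w2
    have e : ∀ a ∈ J, coef X I₁ Fs A B A' B' a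
        = 67 / 100 * wt X (sel A B A' B' a) (sel A B A' B' (flp a)) + 67 / 200 *
          (if a.1 ∈ Fs then wt X (sel A B A' B' a) (sel A B A' B' (flp a)) else 0) := by
      intro a ha
      unfold coef
      rw [if_neg (hn a ha)]
      split_ifs <;> ring
    rw [sum_congr rfl e, sum_add_distrib, ← mul_sum, ← mul_sum]
    linarith
  constructor
  · by_cases hc : ∀ a ∈ J, a.1 ∉ I₁
    · linarith [hno hc]
    · simp only [not_forall, not_not] at hc
      obtain ⟨⟨x, s, t⟩, ha, hx⟩ := hc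
      have h1 : (sel A B A' B' (x, s, t) ∪ sel A B A' B' (flp (x, s, t))) ∩ X = {x} := by
        rcases mem_Evs.1 (hJE _ ha) with ⟨rfl, _⟩ | ⟨rfl, hx'⟩
        · have h2 := h.hI₁ x hx
          cases t
          · rw [union_comm] at h2
            exact h2
          · exact h2
        · exact (disjoint_left.1 h.hd2 hx hx').elim
      have h2 := point_single (L := sel A B A' B') (R := fun a => sel A B A' B' (flp a)) h.hint
        hJ1 hinj hd ha h1
      rw [h2, sum_singleton]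
      unfold coef
      rw [if_pos hx]
  · intro hy
    refine hno ?_
    rintro ⟨x, s, t⟩ ha hx
    have h1 := (mem_Cl.1 (hCl _ ha)).1
    rcases mem_Evs.1 (hJE _ ha) with ⟨rfl, _⟩ | ⟨rfl, hx'⟩
    · cases t
      · exact (hy x hx).2 h1
      · exact (hy x hx).1 h1
    · exact disjoint_left.1 h.hd2 hx hx'

end

end Pool.Agent.P.MP_c09308_co
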