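import Mathlib
import Pool.Agent.P.MP_c09308_co.Sys
import Pool.Agent.P.MP_c09308_co.Hat

namespace Pool.Agent.P.MP_c09308_co

open Finset

variable {V : Type*} [Fintype V] [LinearOrder V]

section

variable {n K : ℕ} {F : Finset (Finset V)} {X I₁ Fs Ds : Finset V} {A B A' B' : V → Finset V}

/-- Events that occur together share a poor point. -/
theorem Sys.share (h : Sys n K F X I₁ Fs Ds A B A' B') {a b : V × Bool × Bool}
    (ha : a ∈ Evs (I₁ ∪ Fs ∪ Ds) Ds) (hb : b ∈ Evs (I₁ ∪ Fs ∪ Ds) Ds) {σ : Equiv.Perm V}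
    (h1 : σ ∈ Ev (lc X A B A' B' a) (rc X A B A' B' a))
    (h2 : σ ∈ Ev (lc X A B A' B' b) (rc X A B A' B' b)) :
    ∃ p ∈ (sel A B A' B' a ∪ sel A B A' B' (flp a)) ∩ X,
      p ∈ sel A B A' B' b ∪ sel A B A' B' (flp b) := by
  rcases co_occur h1 h2 with hd | hd
  · obtain ⟨z, hz⟩ := poor_meet (h.hint _ (h.ev ha).1 _ (h.ev hb).2.1) hd
    simp only [mem_inter] at hz
    exact ⟨z, mem_inter.2 ⟨mem_union_left _ hz.1.1, hz.1.2⟩, mem_union_right _ hz.2.1⟩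
  · obtain ⟨z, hz⟩ := poor_meet (h.hint _ (h.ev hb).1 _ (h.ev ha).2.1) hd
    simp only [mem_inter] at hz
    exact ⟨z, mem_inter.2 ⟨mem_union_right _ hz.2.1, hz.1.2⟩, mem_union_left _ hz.1.1⟩

omit [Fintype V] in
theorem card_Evs_filter (I Ds : Finset V) (A B A' B' : V → Finset V) (p : V) :
    ((Evs I Ds).filter fun b => p ∈ sel A B A' B' b ∪ sel A B A' B' (flp b)).card
      = 2 * ((I.filter fun x => p ∈ A x ∪ B x).card
        + (Ds.filter fun x => p ∈ A' x ∪ B' x).card) := by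
  rw [card_filter, sum_Evs, card_filter, card_filter, mul_add, mul_sum, mul_sum]
  congr 1
  · refine sum_congr rfl fun x _ => ?_
    rw [two_mul, union_comm (sel A B A' B' (x, false, false))]
    rfl
  · refine sum_congr rfl fun x _ => ?_
    rw [two_mul, union_comm (sel A B A' B' (x, true, false))]
    rfl

theorem Sys.clean (h : Sys n K F X I₁ Fs Ds A B A' B') {l Δ₁ Δ₂ : ℕ} {η : ℝ} (hn : 2 * K ≤ n)
    (hη : 1 / (((n - K) + ((n - K) + l)).choose (n - K) : ℝ) ≤ η * pp n)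
    (hΔ₁ : ∀ p ∈ X, ((I₁ ∪ Fs ∪ Ds).filter fun x => p ∈ A x ∪ B x).card ≤ Δ₁)
    (hΔ₂ : ∀ p ∈ X, (Ds.filter fun x => p ∈ A' x ∪ B' x).card ≤ Δ₂)
    {a : V × Bool × Bool} (ha : a ∈ Evs (I₁ ∪ Fs ∪ Ds) Ds) :
    (1 - (K * (2 * (Δ₁ + Δ₂)) * (4 * l / n + 4 * η) : ℝ)) *
        pr (Ev (lc X A B A' B' a) (rc X A B A' B' a))
      ≤ pr (Cl (Evs (I₁ ∪ Fs ∪ Ds) Ds) (lc X A B A' B') (rc X A B A' B') a) := by
  have hK := h.hK
  have h1 := pr_Cl_ge (R := K * (2 * (Δ₁ + Δ₂))) (by omega) hη (Evs (I₁ ∪ Fs ∪ Ds) Ds)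
    (((sel A B A' B' a ∪ sel A B A' B' (flp a)) ∩ X).biUnion fun p =>
      (Evs (I₁ ∪ Fs ∪ Ds) Ds).filter fun b => p ∈ sel A B A' B' b ∪ sel A B A' B' (flp b))
    (lc X A B A' B') (rc X A B A' B') (fun j hj => (h.facts hj).2.1)
    (fun j hj => (h.facts hj).2.2.1) ha (h.facts ha).2.2.2.2.2.1
    (biUnion_subset.2 fun _ _ => filter_subset _ _)
    (by
      refine (card_biUnion_le_card_mul _ _ (2 * (Δ₁ + Δ₂)) fun p hp => ?_).trans
        (Nat.mul_le_mul_right _ (h.ev ha).2.2.2.2)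
      rw [card_Evs_filter]
      have h2 := hΔ₁ p (mem_inter.1 hp).2
      have h3 := hΔ₂ p (mem_inter.1 hp).2
      omega)
    (by
      intro j hj σ h1 h2
      obtain ⟨p, hp, hp'⟩ := h.share ha hj h1 h2
      exact mem_biUnion.2 ⟨p, hp, mem_filter.2 ⟨hj, hp'⟩⟩)
  refine le_trans (mul_le_mul_of_nonneg_right ?_ (pr_nonneg _)) h1
  have hn0 : (0 : ℝ) < n := by exact_mod_cast (by omega : 0 < n)
  have hk0 : (0 : ℝ) < ((n - K : ℕ) : ℝ) := by exact_mod_cast (by omega : 0 < n - K)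
  have h2 : (2 * l / ((n - K : ℕ) : ℝ) : ℝ) ≤ 4 * l / n := by
    rw [div_le_div_iff₀ hk0 hn0]
    have h3 : (n : ℝ) ≤ 2 * ((n - K : ℕ) : ℝ) := by exact_mod_cast (by omega : n ≤ 2 * (n - K))
    nlinarith [Nat.cast_nonneg (α := ℝ) l]
  have h3 : ((K * (2 * (Δ₁ + Δ₂)) : ℕ) : ℝ) * (2 * l / ((n - K : ℕ) : ℝ) + 4 * η)
      ≤ ((K * (2 * (Δ₁ + Δ₂)) : ℕ) : ℝ) * (4 * l / n + 4 * η) :=
    mul_le_mul_of_nonneg_left (by linarith) (Nat.cast_nonneg _)
  push_cast at h3 ⊢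
  linarith

/-- A secondary event keeps about half of its clean portion. -/
theorem Sys.second (h : Sys n K F X I₁ Fs Ds A B A' B') {x : V} (hx : x ∈ Ds) (t : Bool) :
    (pr (Cl (Evs (I₁ ∪ Fs ∪ Ds) Ds) (lc X A B A' B') (rc X A B A' B') (x, true, t))
        - pr (act (Evs (I₁ ∪ Fs ∪ Ds) Ds) X A B A' B' (x, true, t))) * (n + (n - K : ℕ))
      ≤ n * pr (Ev (lc X A B A' B' (x, true, t)) (rc X A B A' B' (x, true, t))) := by
  set E := Evs (I₁ ∪ Fs ∪ Ds) Ds with hE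
  have ha : (x, true, t) ∈ E := mem_Evs.2 (Or.inr ⟨rfl, hx⟩)
  have hb : ∀ t', (x, false, t') ∈ E := fun t' =>
    mem_Evs.2 (Or.inl ⟨rfl, mem_union_right _ hx⟩)
  obtain ⟨f1, f2, f3, f4, f5, _⟩ := h.facts ha
  obtain ⟨_, _, _, _, g1, g2⟩ := h.hDs x hx
  have g1' : ¬ A x \ X ⊆ A' x \ X := fun e => g1 (e.trans sdiff_subset)
  have g2' : ¬ B x \ X ⊆ A' x \ X := fun e => g2 (e.trans sdiff_subset)
  have key : ∀ t', pr (Cl E (lc X A B A' B') (rc X A B A' B') (x, true, t) ∩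
      Ev (lc X A B A' B' (x, false, t')) (rc X A B A' B' (x, false, t'))) * (n + (n - K : ℕ))
      ≤ n * pr (Ev (lc X A B A' B' (x, true, t)) (rc X A B A' B' (x, true, t))) := by
    intro t'
    refine pr_Cl_inter_le E _ _ (hb t') f1 f4 f5 f2 f3 ?_
    cases t <;> cases t'
    · exact Or.inr g1'
    · exact Or.inr g2'
    · exact Or.inl g2'
    · exact Or.inl g1'
  have h1 := pr_sdiff_add_inter (Cl E (lc X A B A' B') (rc X A B A' B') (x, true, t))
    (Ev (A x \ X) (B x \ X) ∪ Ev (B x \ X) (A x \ X))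
  have h2 : pr (Cl E (lc X A B A' B') (rc X A B A' B') (x, true, t))
      - pr (act E X A B A' B' (x, true, t))
      = pr (Cl E (lc X A B A' B') (rc X A B A' B') (x, true, t) ∩
        (Ev (A x \ X) (B x \ X) ∪ Ev (B x \ X) (A x \ X))) := by
    rw [← h1]
    exact add_sub_cancel_left _ _
  rw [h2]
  by_cases hc : ∃ σ ∈ Cl E (lc X A B A' B') (rc X A B A' B') (x, true, t),
      σ ∈ Ev (A x \ X) (B x \ X)
  · obtain ⟨σ, hσ, hσ'⟩ := hc
    have h3 := ((mem_Cl.1 hσ).2 _ (hb true) hσ').left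
    refine le_trans (mul_le_mul_of_nonneg_right (pr_mono ?_) (by positivity)) (key true)
    intro τ hτ
    rw [mem_inter, mem_union] at hτ
    refine mem_inter.2 ⟨hτ.1, hτ.2.resolve_right fun h4 => ?_⟩
    have h5 := disjoint_of_mem_Ev (((mem_Cl.1 hτ.1).2 _ (hb false) h4).mem_right h4)
    exact not_disjoint_iff_nonempty_inter.2 h3 h5
  · refine le_trans (mul_le_mul_of_nonneg_right (pr_mono ?_) (by positivity)) (key false)
    intro τ hτ
    rw [mem_inter, mem_union] at hτ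
    exact mem_inter.2 ⟨hτ.1, hτ.2.resolve_left fun h4 => hc ⟨τ, hτ.1, h4⟩⟩

/-- An event of the first kind whose pivot is in no other pair is entirely clean. -/
theorem Sys.first (h : Sys n K F X I₁ Fs Ds A B A' B') {x : V} (hx : x ∈ I₁) (t : Bool)
    (hZ : x ∉ ((Fs ∪ Ds).biUnion fun y => (A y ∪ B y) ∩ X) ∪
      Ds.biUnion fun y => (A' y ∪ B' y) ∩ X) :
    Ev (lc X A B A' B' (x, false, t)) (rc X A B A' B' (x, false, t))
      ⊆ Cl (Evs (I₁ ∪ Fs ∪ Ds) Ds) (lc X A B A' B') (rc X A B A' B') (x, false, t) := by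
  have ha : (x, false, t) ∈ Evs (I₁ ∪ Fs ∪ Ds) Ds :=
    mem_Evs.2 (Or.inl ⟨rfl, mem_union_left _ (mem_union_left _ hx)⟩)
  have hu : ∀ (y : V) (s t : Bool), sel A B A' B' (y, s, t) ∪ sel A B A' B' (flp (y, s, t))
      = cond s (A' y ∪ B' y) (A y ∪ B y) := by
    intro y s t
    cases s <;> cases t
    · exact union_comm _ _
    · rfl
    · exact union_comm _ _
    · rfl
  intro σ hσ
  refine mem_Cl.2 ⟨hσ, ?_⟩
  rintro ⟨y, s, t'⟩ hb hσ'
  obtain ⟨p, hp, hp'⟩ := h.share ha hb hσ hσ'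
  rw [hu] at hp hp'
  have hpX := (mem_inter.1 hp).2
  obtain rfl : p = x := mem_singleton.1 (h.hI₁ x hx ▸ hp)
  obtain ⟨n1, n2⟩ := h.nonempty ha
  rw [mem_union, not_or] at hZ
  rcases mem_Evs.1 hb with ⟨rfl, hy⟩ | ⟨rfl, hy⟩
  · rw [union_assoc, mem_union] at hy
    rcases hy with hy | hy
    · obtain rfl : p = y := mem_singleton.1 (h.hI₁ y hy ▸ mem_inter.2 ⟨hp', hpX⟩)
      cases t <;> cases t'
      · exact agree_self n1 n2 σ
      · exact (Ev_swap_disjoint n1 n2 hσ hσ').elim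
      · exact (Ev_swap_disjoint n1 n2 hσ hσ').elim
      · exact agree_self n1 n2 σ
    · exact (hZ.1 (mem_biUnion.2 ⟨y, hy, mem_inter.2 ⟨hp', hpX⟩⟩)).elim
  · exact (hZ.2 (mem_biUnion.2 ⟨y, hy, mem_inter.2 ⟨hp', hpX⟩⟩)).elim

theorem Sys.lower (h : Sys n K F X I₁ Fs Ds A B A' B') (hK : 2 ≤ K) (hn : 4000 * K ≤ n)
    {u : ℝ} (hu0 : 0 ≤ u) (hu : 4000 * K * u ≤ 1)
    (hcl : ∀ a ∈ Evs (I₁ ∪ Fs ∪ Ds) Ds, (1 - u) * pr (Ev (lc X A B A' B' a) (rc X A B A' B' a))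
      ≤ pr (Cl (Evs (I₁ ∪ Fs ∪ Ds) Ds) (lc X A B A' B') (rc X A B A' B') a)) :
    (2 * (I₁.card : ℝ) + (2 + 1 / 200) * (Fs.card + Ds.card)) * pp n
      ≤ ∑ a ∈ Evs (I₁ ∪ Fs ∪ Ds) Ds, coef X I₁ Fs A B A' B' a *
        pr (act (Evs (I₁ ∪ Fs ∪ Ds) Ds) X A B A' B' a) := by
  set E := Evs (I₁ ∪ Fs ∪ Ds) Ds with hE
  have hp := pp_pos n
  have hK' : (2 : ℝ) ≤ K := by exact_mod_cast hK
  have hn' : 4000 * (K : ℝ) ≤ n := by exact_mod_cast hn
  have hn0 : (0 : ℝ) < n := by linarith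
  have hu1 : u ≤ 1 / 8000 := by nlinarith
  have hδ : (K : ℝ) / n ≤ 1 / 4000 := by
    rw [div_le_iff₀ hn0]
    linarith
  have hw : ∀ a ∈ E, 3999 / 4000 * pp n ≤ wt X (sel A B A' B' a) (sel A B A' B' (flp a)) *
      pr (Ev (lc X A B A' B' a) (rc X A B A' B' a)) := fun a ha =>
    le_trans (mul_le_mul_of_nonneg_right (by linarith) hp.le) (h.facts ha).2.2.2.2.2.2
  have hprim : ∀ x ∈ I₁ ∪ Fs ∪ Ds, ∀ t, 9996 / 10000 * pp n
      ≤ wt X (sel A B A' B' (x, false, t)) (sel A B A' B' (flp (x, false, t))) *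
        pr (act E X A B A' B' (x, false, t)) := by
    intro x hx t
    have ha : (x, false, t) ∈ E := mem_Evs.2 (Or.inl ⟨rfl, hx⟩)
    have h1 := mul_le_mul_of_nonneg_left (hcl _ ha)
      (wt_pos X (sel A B A' B' (x, false, t)) (sel A B A' B' (flp (x, false, t)))).le
    have h2 := mul_le_mul_of_nonneg_left (hw _ ha) (by linarith : 0 ≤ 1 - u)
    refine le_trans ?_ h1
    nlinarith
  have hsec : ∀ x ∈ Ds, ∀ t, 4996 / 10000 * pp n
      ≤ wt X (sel A B A' B' (x, true, t)) (sel A B A' B' (flp (x, true, t))) *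
        pr (act E X A B A' B' (x, true, t)) := by
    intro x hx t
    have ha : (x, true, t) ∈ E := mem_Evs.2 (Or.inr ⟨rfl, hx⟩)
    have h1 := h.second hx t
    have h2 := hcl _ ha
    have h3 := hw _ ha
    have h4 := pr_nonneg (Ev (lc X A B A' B' (x, true, t)) (rc X A B A' B' (x, true, t)))
    have h5 := wt_pos X (sel A B A' B' (x, true, t)) (sel A B A' B' (flp (x, true, t)))
    rw [← hE] at h1
    set e := pr (Ev (lc X A B A' B' (x, true, t)) (rc X A B A' B' (x, true, t)))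
    set c := pr (Cl E (lc X A B A' B') (rc X A B A' B') (x, true, t))
    set d := pr (act E X A B A' B' (x, true, t))
    set w := wt X (sel A B A' B' (x, true, t)) (sel A B A' B' (flp (x, true, t)))
    have h6 : ((n - K : ℕ) : ℝ) = n - K := by
      rw [Nat.cast_sub h.hK.le]
    rw [h6] at h1
    have h7 : c - d ≤ 5001 / 10000 * e := by
      by_contra hc
      have h8 : 5001 / 10000 * e * (n + (n - K)) < (c - d) * (n + (n - K)) :=
        mul_lt_mul_of_pos_right (not_le.1 hc) (by linarith)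
      nlinarith
    have h8 : 49977 / 100000 * e ≤ d := by nlinarith
    have h9 := mul_le_mul_of_nonneg_left h8 h5.le
    nlinarith
  set Z := ((Fs ∪ Ds).biUnion fun y => (A y ∪ B y) ∩ X) ∪ Ds.biUnion fun y => (A' y ∪ B' y) ∩ X
    with hZ
  have hZc : (Z.card : ℝ) ≤ 2 * K * (Fs.card + Ds.card) := by
    have h1 := card_biUnion_le_card_mul (Fs ∪ Ds) (fun y => (A y ∪ B y) ∩ X) K fun y hy =>
      (h.hP y (by rw [union_assoc]; exact mem_union_right _ hy)).2.2.2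
    have h2 := card_biUnion_le_card_mul Ds (fun y => (A' y ∪ B' y) ∩ X) K fun y hy =>
      (h.hDs y hy).2.2.2.1
    have h3 := Nat.mul_le_mul_right K (card_union_le Fs Ds)
    have h4 : Z.card ≤ 2 * K * (Fs.card + Ds.card) := by
      refine (card_union_le _ _).trans ?_
      nlinarith [Nat.zero_le (Fs.card * K)]
    exact_mod_cast h4
  have hfirst : ∀ x ∈ I₁, ∀ t, pp n - (if x ∈ Z then u * pp n else 0)
      ≤ coef X I₁ Fs A B A' B' (x, false, t) * pr (act E X A B A' B' (x, false, t)) := by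
    intro x hx t
    have ha : (x, false, t) ∈ E :=
      mem_Evs.2 (Or.inl ⟨rfl, mem_union_left _ (mem_union_left _ hx)⟩)
    have h1 := (h.facts ha).2.2.2.2.2.1
    unfold coef
    rw [if_pos hx, one_mul]
    split_ifs with hxZ
    · have h2 := mul_le_mul_of_nonneg_left h1 (by linarith : 0 ≤ 1 - u)
      refine le_trans ?_ (hcl _ ha)
      linarith
    · rw [sub_zero]
      exact h1.trans (pr_mono (h.first hx t hxZ))
  have s1 : 2 * (I₁.card : ℝ) * pp n - 2 * (Z.card * (u * pp n))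
      ≤ ∑ x ∈ I₁, (coef X I₁ Fs A B A' B' (x, false, true) *
          pr (act E X A B A' B' (x, false, true)) +
        coef X I₁ Fs A B A' B' (x, false, false) * pr (act E X A B A' B' (x, false, false))) := by
    refine le_trans ?_ (sum_le_sum fun x hx => add_le_add (hfirst x hx true) (hfirst x hx false))
    rw [sum_add_distrib, sum_sub_distrib, sum_const, nsmul_eq_mul, ← sum_filter, sum_const,
      nsmul_eq_mul]
    have h1 : ((I₁.filter fun x => x ∈ Z).card : ℝ) ≤ Z.card := by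
      exact_mod_cast card_le_card fun x hx => (mem_filter.1 hx).2
    have h2 := mul_le_mul_of_nonneg_right h1 (mul_nonneg hu0 hp.le)
    linarith
  have s2 : (Fs.card : ℝ) * (2 * (201 / 200 * (9996 / 10000 * pp n)))
      ≤ ∑ x ∈ Fs, (coef X I₁ Fs A B A' B' (x, false, true) *
          pr (act E X A B A' B' (x, false, true)) +
        coef X I₁ Fs A B A' B' (x, false, false) * pr (act E X A B A' B' (x, false, false))) := by
    rw [← nsmul_eq_mul, ← sum_const]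
    refine sum_le_sum fun x hx => ?_
    have hx' : x ∈ I₁ ∪ Fs ∪ Ds := mem_union_left _ (mem_union_right _ hx)
    have h1 := hprim x hx' true
    have h2 := hprim x hx' false
    unfold coef
    simp only [if_neg (disjoint_right.1 h.hd1 hx), if_pos hx, mul_assoc]
    linarith
  have s3 : (Ds.card : ℝ) * (2 * (67 / 100 * (9996 / 10000 * pp n)))
      ≤ ∑ x ∈ Ds, (coef X I₁ Fs A B A' B' (x, false, true) *
          pr (act E X A B A' B' (x, false, true)) +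
        coef X I₁ Fs A B A' B' (x, false, false) * pr (act E X A B A' B' (x, false, false))) := by
    rw [← nsmul_eq_mul, ← sum_const]
    refine sum_le_sum fun x hx => ?_
    have hx' : x ∈ I₁ ∪ Fs ∪ Ds := mem_union_right _ hx
    have h1 := hprim x hx' true
    have h2 := hprim x hx' false
    unfold coef
    simp only [if_neg (disjoint_right.1 h.hd2 hx), if_neg (disjoint_right.1 h.hd3 hx), mul_assoc]
    linarith
  have s4 : (Ds.card : ℝ) * (2 * (67 / 100 * (4996 / 10000 * pp n)))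
      ≤ ∑ x ∈ Ds, (coef X I₁ Fs A B A' B' (x, true, true) *
          pr (act E X A B A' B' (x, true, true)) +
        coef X I₁ Fs A B A' B' (x, true, false) * pr (act E X A B A' B' (x, true, false))) := by
    rw [← nsmul_eq_mul, ← sum_const]
    refine sum_le_sum fun x hx => ?_
    have h1 := hsec x hx true
    have h2 := hsec x hx false
    unfold coef
    simp only [if_neg (disjoint_right.1 h.hd2 hx), if_neg (disjoint_right.1 h.hd3 hx), mul_assoc]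
    linarith
  rw [sum_Evs, sum_union (disjoint_union_left.2 ⟨h.hd2, h.hd3⟩), sum_union h.hd1]
  have hFD : (0 : ℝ) ≤ (Fs.card + Ds.card) * pp n := by positivity
  have s5 : (Z.card : ℝ) * (u * pp n) ≤ 1 / 2000 * ((Fs.card + Ds.card) * pp n) := by
    have h1 := mul_le_mul_of_nonneg_right hZc (mul_nonneg hu0 hp.le)
    have h2 := mul_le_mul_of_nonneg_right hu hFD
    nlinarith
  have hF0 : (0 : ℝ) ≤ Fs.card * pp n := by positivity
  have hD0 : (0 : ℝ) ≤ Ds.card * pp n := by positivity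
  nlinarith

end

theorem core (n K l D' Δ₁ Δ₂ : ℕ) (η : ℝ) (hK : 2 ≤ K) (hn : 4000 * K ≤ n)
    (hη : 1 / (((n - K) + ((n - K) + l)).choose (n - K) : ℝ) ≤ η * pp n)
    (h1 : 16 * η * D' * K ≤ 1) (h2 : 64 * K * (4 * l / n + 8 * D' * l ^ 3 / n ^ 2 : ℝ) ≤ 1)
    (h3 : 4000 * K * (K * (2 * (Δ₁ + Δ₂)) * (4 * l / n + 4 * η) : ℝ) ≤ 1)
    (F : Finset (Finset V)) (hF : ∀ C ∈ F, C.card = n)
    (hint : ∀ C ∈ F, ∀ C' ∈ F, (C ∩ C').Nonempty)
    (hτ : ∀ T : Finset V, T.card < n → ∃ C ∈ F, Disjoint C T)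
    (X M I₁ Fs Ds : Finset V) (A B A' B' : V → Finset V)
    (hXM : Disjoint X M) (hI : I₁ ∪ Fs ∪ Ds ⊆ X)
    (hd1 : Disjoint I₁ Fs) (hd2 : Disjoint I₁ Ds) (hd3 : Disjoint Fs Ds)
    (hP : ∀ x ∈ I₁ ∪ Fs ∪ Ds,
      A x ∈ F ∧ B x ∈ F ∧ A x ∩ B x = {x} ∧ ((A x ∪ B x) ∩ X).card ≤ K)
    (hI₁ : ∀ x ∈ I₁, (A x ∪ B x) ∩ X = {x} ∧ ((A x ∪ B x) ∩ M).card ≤ K)
    (hFs : ∀ x ∈ Fs, (A x ∪ B x) ∩ X ≠ {x} ∧ ∀ C ∈ F, x ∈ C → A x \ X ⊆ C ∨ B x \ X ⊆ C)
    (hDs : ∀ x ∈ Ds, A' x ∈ F ∧ B' x ∈ F ∧ A' x ∩ B' x = {x} ∧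
      ((A' x ∪ B' x) ∩ X).card ≤ K ∧ ¬ A x \ X ⊆ A' x ∧ ¬ B x \ X ⊆ A' x)
    (hΔ₁ : ∀ p ∈ X, ((I₁ ∪ Fs ∪ Ds).filter fun x => p ∈ A x ∪ B x).card ≤ Δ₁)
    (hΔ₂ : ∀ p ∈ X, (Ds.filter fun x => p ∈ A' x ∪ B' x).card ≤ Δ₂)
    (hD' : ∀ p ∈ M, (I₁.filter fun x => p ∈ A x ∪ B x).card ≤ D') :
    2 * (I₁.card : ℝ) + (2 + 1 / 200) * (Fs.card + Ds.card)
        + ((I₁.filter fun x => ((A x ∪ B x) ∩ M).Nonempty).card : ℝ) / (400 * K)
      ≤ ((2 * n - 2).choose (n - 1) : ℝ) := by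
  have h : Sys n K F X I₁ Fs Ds A B A' B' :=
    ⟨by omega, hF, hint, hτ, hI, hd1, hd2, hd3, hP, fun x hx => (hI₁ x hx).1, hFs, hDs⟩
  have hp := pp_pos n
  have hc : (0 : ℝ) < (((n - K) + ((n - K) + l)).choose (n - K) : ℝ) := by
    exact_mod_cast Nat.choose_pos (Nat.le_add_right _ _)
  have hη0 : 0 ≤ η := by
    by_contra hneg
    have := mul_neg_of_neg_of_pos (not_le.1 hneg) hp
    have h2 : (0 : ℝ) < 1 / (((n - K) + ((n - K) + l)).choose (n - K) : ℝ) := by positivity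
    linarith
  have hlow := h.lower hK hn (by positivity) h3 fun a ha => h.clean (by omega) hη hΔ₁ hΔ₂ ha
  have hP1 : ∀ x ∈ I₁, A x ∈ F ∧ B x ∈ F ∧ A x ∩ B x = {x} ∧ ((A x ∪ B x) ∩ X).card ≤ K :=
    fun x hx => hP x (mem_union_left _ (mem_union_left _ hx))
  have hX1 : ∀ x ∈ I₁, x ∈ X := fun x hx => hI (mem_union_left _ (mem_union_left _ hx))
  obtain ⟨H, H1, H2, H3⟩ := hat n K (n - K) l D' η (by omega) (by omega) (by omega) hη h1 h2
    I₁ M A B (fun x hx => hF _ (hP1 x hx).1) (fun x hx => hF _ (hP1 x hx).2.1)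
    (fun x hx => (hP1 x hx).2.2.1) (hXM.mono_left hX1)
    (fun x hx y hy hxy => mem_singleton.1 ((hI₁ y hy).1 ▸ mem_inter.2 ⟨hxy, hX1 x hx⟩))
    (fun x hx y hy => hint _ (hP1 x hx).1 _ (hP1 y hy).1)
    (fun x hx y hy => hint _ (hP1 x hx).1 _ (hP1 y hy).2.1)
    (fun x hx y hy => hint _ (hP1 x hx).2.1 _ (hP1 y hy).2.1) (fun x hx => (hI₁ x hx).2) hD'
  set O := I₁.filter fun x => ((A x ∪ B x) ∩ M).Nonempty with hO
  have herase : ∀ y ∈ I₁, ∀ S ⊆ A y ∪ B y, S \ X = S.erase y := by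
    intro y hy S hS
    ext z
    rw [mem_sdiff, mem_erase]
    constructor
    · exact fun hz => ⟨fun e => hz.2 (e ▸ hX1 y hy), hz.1⟩
    · exact fun hz => ⟨hz.2, fun hzX =>
        hz.1 (mem_singleton.1 ((hI₁ y hy).1 ▸ mem_inter.2 ⟨hS hz.2, hzX⟩))⟩
  have hK' : (0 : ℝ) < K := by exact_mod_cast (by omega : 0 < K)
  have key := sum_pr_le_of_pointwise ((Evs (I₁ ∪ Fs ∪ Ds) Ds).disjSum O)
    (Sum.elim (act (Evs (I₁ ∪ Fs ∪ Ds) Ds) X A B A' B') H)
    (Sum.elim (coef X I₁ Fs A B A' B') fun _ => 1 / (200 * K)) 1 (by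
      intro σ
      rw [sum_disjSum]
      simp only [Sum.elim_inl, Sum.elim_inr]
      obtain ⟨p1, p2⟩ := h.point σ
      rw [← sum_filter (s := O), sum_const, nsmul_eq_mul]
      by_cases hne : (O.filter fun x => σ ∈ H x).Nonempty
      · obtain ⟨x, hx⟩ := hne
        have hx' := (mem_filter.1 hx).2
        have p3 := p2 fun y hy => by
          rw [herase y hy _ subset_union_left, herase y hy _ subset_union_right]
          exact ⟨disjoint_left.1 (H1 x y hy).1 hx', disjoint_left.1 (H1 x y hy).2 hx'⟩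
        have p4 : ((O.filter fun x => σ ∈ H x).card : ℝ) ≤ K := by exact_mod_cast H2 σ
        have p5 : ((O.filter fun x => σ ∈ H x).card : ℝ) * (1 / (200 * K)) ≤ 1 / 200 := by
          rw [mul_one_div, div_le_iff₀ (by positivity)]
          linarith
        linarith
      · rw [not_nonempty_iff_eq_empty.1 hne, card_empty, Nat.cast_zero, zero_mul, add_zero]
        exact p1)
  rw [sum_disjSum] at key
  simp only [Sum.elim_inl, Sum.elim_inr] at key
  rw [← mul_sum] at key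
  have h4 : 1 / (200 * (K : ℝ)) * (O.card * pp n / 2) ≤ 1 / (200 * K) * ∑ x ∈ O, pr (H x) :=
    mul_le_mul_of_nonneg_left H3 (by positivity)
  have h5 : 1 / (200 * (K : ℝ)) * (O.card * pp n / 2) = O.card / (400 * K) * pp n := by
    field_simp
    ring
  have h6 : (2 * (I₁.card : ℝ) + (2 + 1 / 200) * (Fs.card + Ds.card) + O.card / (400 * K)) * pp n
      ≤ 1 := by linarith
  have h7 : (0 : ℝ) < ((2 * n - 2).choose (n - 1) : ℝ) := by
    exact_mod_cast Nat.choose_pos (by omega)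
  unfold pp at h6
  rwa [mul_one_div, div_le_one h7] at h6

end Pool.Agent.P.MP_c09308_co
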