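import Mathlib
import Pool.Agent.P.MP_c09308_co.Perm

namespace Pool.Agent.P.MP_c09308_co

open Finset

variable {V : Type*} [Fintype V] [LinearOrder V]

theorem red_pr_ge (n K : ℕ) (X a b : Finset V) (ha : a.card = n) (hb : b.card = n)
    (hd : a ∩ b ⊆ X) (hK : K < ((a ∪ b) ∩ X).card) :
    (2 : ℝ) ^ K / 4 ^ n ≤ pr (Ev (a \ X) (b \ X)) := by
  have hdis : Disjoint (a \ X) (b \ X) := by
    rw [disjoint_left]
    intro x hx hy
    rw [mem_sdiff] at hx hy
    exact hx.2 (hd (mem_inter.2 ⟨hx.1, hy.1⟩))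
  have h1 := card_sdiff_add_card_inter a X
  have h2 := card_sdiff_add_card_inter b X
  have h3 : ((a ∪ b) ∩ X).card ≤ (a ∩ X).card + (b ∩ X).card := by
    rw [union_inter_distrib_right]
    exact card_union_le _ _
  have h4 : (a \ X).card + (b \ X).card + K ≤ 2 * n := by omega
  rw [pr_Ev hdis]
  set s := (a \ X).card
  set t := (b \ X).card
  have hc : (0 : ℝ) < ((s + t).choose s : ℝ) := by
    exact_mod_cast Nat.choose_pos (Nat.le_add_right s t)
  have h5 : ((s + t).choose s : ℝ) ≤ 2 ^ (s + t) := by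
    exact_mod_cast Nat.choose_le_two_pow (s + t) s
  rw [div_le_div_iff₀ (by positivity) hc, one_mul]
  calc (2 : ℝ) ^ K * ((s + t).choose s : ℝ) ≤ 2 ^ K * 2 ^ (s + t) := by gcongr
    _ = 2 ^ (s + t + K) := by rw [← pow_add, add_comm]
    _ ≤ 2 ^ (2 * n) := pow_le_pow_right₀ (by norm_num) h4
    _ = 4 ^ n := by rw [pow_mul]; norm_num

theorem many_poor (n D K : ℕ) (X I : Finset V) (A B : V → Finset V)
    (hA : ∀ i ∈ I, (A i).card = n) (hB : ∀ i ∈ I, (B i).card = n)
    (hAB : ∀ i ∈ I, ∀ j ∈ I, (A i ∩ B j).Nonempty)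
    (hd : ∀ i ∈ I, A i ∩ B i ⊆ X)
    (hD : ∀ p ∈ X, (I.filter fun i => p ∈ A i ∪ B i).card ≤ D) :
    ((I.filter fun i => K < ((A i ∪ B i) ∩ X).card).card : ℝ) ≤ 2 * n * D * 4 ^ n / 2 ^ K := by
  set Bad := I.filter fun i => K < ((A i ∪ B i) ∩ X).card with hBad
  have hpt : ∀ σ : Equiv.Perm V,
      ∑ i ∈ Bad, (if σ ∈ Ev (A i \ X) (B i \ X) then (1 : ℝ) else 0) ≤ 2 * n * D := by
    intro σ
    rw [← sum_filter, sum_const, nsmul_eq_mul, mul_one]
    set Occ := Bad.filter fun i => σ ∈ Ev (A i \ X) (B i \ X) with hOcc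
    rcases Occ.eq_empty_or_nonempty with h0 | ⟨i0, hi0⟩
    · rw [h0, card_empty, Nat.cast_zero]
      positivity
    · have hi0' := mem_filter.1 hi0
      have hi0I : i0 ∈ I := (mem_filter.1 hi0'.1).1
      have hsub : Occ ⊆ ((A i0 ∪ B i0) ∩ X).biUnion
          fun p => I.filter fun i => p ∈ A i ∪ B i := by
        intro j hj
        have hj' := mem_filter.1 hj
        have hjI : j ∈ I := (mem_filter.1 hj'.1).1
        rw [mem_biUnion]
        rcases co_occur hi0'.2 hj'.2 with h | h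
        · obtain ⟨p, hp⟩ := hAB i0 hi0I j hjI
          rw [mem_inter] at hp
          have hpX : p ∈ X := by
            by_contra hpX
            exact disjoint_left.1 h (mem_sdiff.2 ⟨hp.1, hpX⟩) (mem_sdiff.2 ⟨hp.2, hpX⟩)
          exact ⟨p, mem_inter.2 ⟨mem_union_left _ hp.1, hpX⟩,
            mem_filter.2 ⟨hjI, mem_union_right _ hp.2⟩⟩
        · obtain ⟨p, hp⟩ := hAB j hjI i0 hi0I
          rw [mem_inter] at hp
          have hpX : p ∈ X := by
            by_contra hpX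
            exact disjoint_left.1 h (mem_sdiff.2 ⟨hp.1, hpX⟩) (mem_sdiff.2 ⟨hp.2, hpX⟩)
          exact ⟨p, mem_inter.2 ⟨mem_union_right _ hp.2, hpX⟩,
            mem_filter.2 ⟨hjI, mem_union_left _ hp.1⟩⟩
      have h1 : Occ.card ≤ ((A i0 ∪ B i0) ∩ X).card * D :=
        (card_le_card hsub).trans
          (card_biUnion_le_card_mul _ _ _ fun p hp => hD p (mem_inter.1 hp).2)
      have h2 : ((A i0 ∪ B i0) ∩ X).card ≤ 2 * n := by
        have := card_le_card (inter_subset_left (s₁ := A i0 ∪ B i0) (s₂ := X))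
        have h3 := card_union_le (A i0) (B i0)
        rw [hA i0 hi0I, hB i0 hi0I] at h3
        omega
      have h3 : Occ.card ≤ 2 * n * D := h1.trans (Nat.mul_le_mul_right D h2)
      exact_mod_cast h3
  have hsum := sum_pr_le_of_pointwise Bad (fun i => Ev (A i \ X) (B i \ X)) (fun _ => (1 : ℝ))
    (2 * n * D) hpt
  have hlow : (Bad.card : ℝ) * (2 ^ K / 4 ^ n) ≤ ∑ i ∈ Bad, 1 * pr (Ev (A i \ X) (B i \ X)) := by
    rw [← nsmul_eq_mul, ← sum_const]
    refine sum_le_sum fun i hi => ?_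
    have hi' := mem_filter.1 hi
    rw [one_mul]
    exact red_pr_ge n K X _ _ (hA i hi'.1) (hB i hi'.1) (hd i hi'.1) hi'.2
  have h := hlow.trans hsum
  rw [← mul_div_assoc, div_le_iff₀ (by positivity)] at h
  rw [le_div_iff₀ (by positivity)]
  exact h

omit [Fintype V] in
theorem red_dc (Y I : Finset V) (S : V → Finset V) (D c : ℕ)
    (hY : ∀ p ∈ Y, D ≤ (I.filter fun x => p ∈ S x).card)
    (hS : ∀ x ∈ I, (S x ∩ Y).card ≤ c) : Y.card * D ≤ I.card * c := by
  refine card_mul_le_card_mul (fun p x => p ∈ S x) (fun p hp => hY p hp) fun x hx => ?_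
  refine le_trans (card_le_card fun p hp => ?_) (hS x hx)
  rw [mem_bipartiteBelow] at hp
  exact mem_inter.2 ⟨hp.2, hp.1⟩

theorem red (n D K D' : ℕ) (hD : 0 < D) (hD' : 0 < D') (X I : Finset V) (A B : V → Finset V)
    (hIX : I ⊆ X) (hA : ∀ x ∈ I, (A x).card = n) (hB : ∀ x ∈ I, (B x).card = n)
    (hx : ∀ x ∈ I, A x ∩ B x = {x})
    (hAB : ∀ x ∈ I, ∀ y ∈ I, (A x ∩ B y).Nonempty) :
    ∃ Y I' : Finset V, Y ⊆ X ∧ I' ⊆ I \ Y ∧
      (Y.card : ℝ) ≤ (2 * n / D + K / D') * I.card ∧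
      (I.card : ℝ) ≤ I'.card + Y.card + 2 * n * D * 4 ^ n / 2 ^ K ∧
      (∀ x ∈ I', ((A x ∪ B x) ∩ (X \ Y)).card ≤ K) ∧
      (∀ p ∈ X \ Y, (I'.filter fun x => p ∈ A x ∪ B x).card ≤ D') := by
  set Y1 := X.filter fun p => D < (I.filter fun x => p ∈ A x ∪ B x).card with hY1
  set X1 := X \ Y1 with hX1
  set I0 := I \ Y1 with hI0
  set Bad := I0.filter fun i => K < ((A i ∪ B i) ∩ X1).card with hBad
  set I1 := I0.filter fun i => ((A i ∪ B i) ∩ X1).card ≤ K with hI1
  set Y2 := X1.filter fun p => D' < (I1.filter fun x => p ∈ A x ∪ B x).card with hY2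
  have hI0I : I0 ⊆ I := sdiff_subset
  have hI1I : I1 ⊆ I := (filter_subset _ _).trans hI0I
  have hc1 : Y1.card * D ≤ I.card * (2 * n) := by
    refine red_dc Y1 I (fun x => A x ∪ B x) D (2 * n) (fun p hp => (mem_filter.1 hp).2.le)
      fun x hx' => ?_
    have := card_le_card (inter_subset_left (s₁ := A x ∪ B x) (s₂ := Y1))
    have h3 := card_union_le (A x) (B x)
    rw [hA x hx', hB x hx'] at h3
    omega
  have hc2 : Y2.card * D' ≤ I.card * K := by
    refine le_trans (red_dc Y2 I1 (fun x => A x ∪ B x) D' K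
      (fun p hp => (mem_filter.1 hp).2.le) fun x hx' => ?_)
      (Nat.mul_le_mul_right K (card_le_card hI1I))
    exact le_trans (card_le_card (inter_subset_inter_left (filter_subset _ _)))
      (mem_filter.1 hx').2
  have hbad : (Bad.card : ℝ) ≤ 2 * n * D * 4 ^ n / 2 ^ K := by
    refine many_poor n D K X1 I0 A B (fun i hi => hA i (hI0I hi)) (fun i hi => hB i (hI0I hi))
      (fun i hi j hj => hAB i (hI0I hi) j (hI0I hj)) (fun i hi => ?_) fun p hp => ?_
    · rw [hx i (hI0I hi), singleton_subset_iff]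
      exact mem_sdiff.2 ⟨hIX (hI0I hi), (mem_sdiff.1 hi).2⟩
    · have hp' := mem_sdiff.1 hp
      have h1 : (I.filter fun x => p ∈ A x ∪ B x).card ≤ D := by
        by_contra h
        exact hp'.2 (mem_filter.2 ⟨hp'.1, not_le.1 h⟩)
      exact le_trans (card_le_card (filter_subset_filter _ hI0I)) h1
  have hXY : X \ (Y1 ∪ Y2) ⊆ X1 := sdiff_subset_sdiff Subset.rfl subset_union_left
  refine ⟨Y1 ∪ Y2, I1 \ Y2, ?_, ?_, ?_, ?_, ?_, ?_⟩
  · exact union_subset (filter_subset _ _) ((filter_subset _ _).trans sdiff_subset)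
  · intro x hx'
    have h1 := mem_sdiff.1 hx'
    have h2 := mem_sdiff.1 (mem_filter.1 h1.1).1
    refine mem_sdiff.2 ⟨h2.1, fun h => ?_⟩
    rcases mem_union.1 h with h | h
    · exact h2.2 h
    · exact h1.2 h
  · have hD0 : (0 : ℝ) < D := by exact_mod_cast hD
    have hD0' : (0 : ℝ) < D' := by exact_mod_cast hD'
    have h1 : (Y1.card : ℝ) ≤ 2 * n / D * I.card := by
      rw [div_mul_eq_mul_div, le_div_iff₀ hD0, mul_comm (2 * (n : ℝ))]
      exact_mod_cast hc1
    have h2 : (Y2.card : ℝ) ≤ K / D' * I.card := by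
      rw [div_mul_eq_mul_div, le_div_iff₀ hD0', mul_comm (K : ℝ)]
      exact_mod_cast hc2
    have h3 : ((Y1 ∪ Y2).card : ℝ) ≤ Y1.card + Y2.card := by
      exact_mod_cast card_union_le Y1 Y2
    rw [add_mul]
    linarith
  · have hsub : I ⊆ (I1 \ Y2 ∪ (Y1 ∪ Y2)) ∪ Bad := by
      intro x hx'
      by_cases h1 : x ∈ Y1 ∪ Y2
      · exact mem_union_left _ (mem_union_right _ h1)
      · have h0 : x ∈ I0 := mem_sdiff.2 ⟨hx', fun h => h1 (mem_union_left _ h)⟩
        by_cases h2 : K < ((A x ∪ B x) ∩ X1).card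
        · exact mem_union_right _ (mem_filter.2 ⟨h0, h2⟩)
        · exact mem_union_left _ (mem_union_left _ (mem_sdiff.2
            ⟨mem_filter.2 ⟨h0, not_lt.1 h2⟩, fun h => h1 (mem_union_right _ h)⟩))
    have h1 : I.card ≤ (I1 \ Y2).card + (Y1 ∪ Y2).card + Bad.card :=
      (card_le_card hsub).trans ((card_union_le _ _).trans
        (Nat.add_le_add_right (card_union_le _ _) _))
    have h2 : (I.card : ℝ) ≤ (I1 \ Y2).card + (Y1 ∪ Y2).card + Bad.card := by
      exact_mod_cast h1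
    linarith
  · intro x hx'
    exact le_trans (card_le_card (inter_subset_inter_left hXY))
      (mem_filter.1 (mem_sdiff.1 hx').1).2
  · intro p hp
    have h1 : (I1.filter fun x => p ∈ A x ∪ B x).card ≤ D' := by
      by_contra h
      exact (mem_sdiff.1 hp).2 (mem_union_right _ (mem_filter.2 ⟨hXY hp, not_le.1 h⟩))
    exact le_trans (card_le_card (filter_subset_filter _ sdiff_subset)) h1

end Pool.Agent.P.MP_c09308_co
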