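import Mathlib
import Pool.Agent.P.MP_c09308_co.Red
import Pool.Agent.P.MP_c09308_co.Core

namespace Pool.Agent.P.MP_c09308_co

open Finset

variable {V : Type*} [Fintype V] [LinearOrder V]

omit [Fintype V] in
theorem stg_partner {n : ℕ} (F : Finset (Finset V)) (hF : ∀ C ∈ F, C.card = n)
    (hint : ∀ C ∈ F, ∀ C' ∈ F, (C ∩ C').Nonempty)
    (hτ : ∀ T : Finset V, T.card < n → ∃ C ∈ F, Disjoint C T)
    (C : Finset V) (hC : C ∈ F) (x : V) (hx : x ∈ C) : ∃ C' ∈ F, C ∩ C' = {x} := by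
  have h1 : (C.erase x).card < n := by
    rw [← hF C hC]; exact card_erase_lt_of_mem hx
  obtain ⟨C', hC', hd⟩ := hτ _ h1
  have key : ∀ y ∈ C ∩ C', y = x := by
    intro y hy
    by_contra hne
    rw [mem_inter] at hy
    exact disjoint_left.1 hd hy.2 (mem_erase.2 ⟨hne, hy.1⟩)
  refine ⟨C', hC', ?_⟩
  obtain ⟨y, hy⟩ := hint C hC C' hC'
  have hyx := key y hy
  subst hyx
  exact eq_singleton_iff_unique_mem.2 ⟨hy, key⟩

theorem stg_final (m Mc OO O1 i1 o o1 b y Z I C : ℝ) (hm : 10 ^ 6 ≤ m)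
    (hMc : 0 ≤ Mc) (hOO : 0 ≤ OO) (ho : 0 ≤ o) (ho1 : 0 ≤ o1) (hy0 : 0 ≤ y) (hb0 : 0 ≤ b)
    (hZ : 0 ≤ Z)
    (hM : Mc * m ^ 3 ≤ m * (Mc + OO + O1))
    (hy : y * m ^ 4 ≤ 3 * OO)
    (hb : b ≤ y * (m ^ 3 + 1))
    (hO : OO ≤ o + 2 * b + y + Z)
    (hO1 : O1 ≤ o1 + b)
    (hI : I ≤ Mc + i1 + b + OO)
    (hC : 2 * i1 + (2 + 1 / 200) * o + o1 / (400 * m) ≤ C) : I ≤ C / 2 + 4 * Z := by
  have hm0 : (0 : ℝ) < m := by linarith [show (0 : ℝ) < 10 ^ 6 by norm_num]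
  have hm1 : (1 : ℝ) ≤ m := by linarith [show (1 : ℝ) ≤ 10 ^ 6 by norm_num]
  have hm3 : (1 : ℝ) ≤ m ^ 3 := one_le_pow₀ hm1
  have hw0 : 0 ≤ y * m ^ 3 := by positivity
  have hw : y * m ^ 3 * 10 ^ 6 ≤ 3 * OO := by
    calc y * m ^ 3 * 10 ^ 6 ≤ y * m ^ 3 * m := mul_le_mul_of_nonneg_left hm hw0
      _ = y * m ^ 4 := by ring
      _ ≤ _ := hy
  have hyw : y ≤ y * m ^ 3 := le_mul_of_one_le_right hy0 hm3
  have hb' : b ≤ 2 * (y * m ^ 3) := by nlinarith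
  set u := o1 / (400 * m) with hu
  have hu0 : 0 ≤ u := by positivity
  have hou : o1 = 400 * m * u := by rw [hu]; field_simp
  have hM1 : Mc * m ^ 2 ≤ Mc + OO + O1 := by
    have : m * (Mc * m ^ 2) ≤ m * (Mc + OO + O1) := by linarith [show m * (Mc * m ^ 2) = Mc * m ^ 3 by ring]
    exact le_of_mul_le_mul_left this hm0
  have hM2 : Mc * m * m ≤ Mc + OO + b + 400 * m * u := by
    have : Mc * m * m = Mc * m ^ 2 := by ring
    linarith
  -- divide by m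
  have hM3 : Mc * m ≤ Mc + OO + b + 400 * u := by
    have h1 : Mc + OO + b ≤ (Mc + OO + b) * m := le_mul_of_one_le_right (by positivity) hm1
    have h2 : (Mc * m) * m ≤ (Mc + OO + b + 400 * u) * m := by nlinarith
    exact le_of_mul_le_mul_right h2 hm0
  have hM4 : Mc * 10 ^ 6 ≤ Mc + OO + b + 400 * u :=
    (mul_le_mul_of_nonneg_left hm hMc).trans hM3
  nlinarith

theorem stg_h2 (n m : ℝ) (hm : 10 ^ 6 ≤ m) (hmn : m ^ 9 ≤ n) :
    64 * m * (4 * (4 * m) / n + 8 * (n * m ^ 2) * (4 * m) ^ 3 / n ^ 2) ≤ 1 := by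
  have hm0 : (0 : ℝ) < m := by linarith [show (0 : ℝ) < 10 ^ 6 by norm_num]
  have hm1 : (1 : ℝ) ≤ m := by linarith [show (1 : ℝ) ≤ 10 ^ 6 by norm_num]
  have hn0 : 0 < n := lt_of_lt_of_le (by positivity) hmn
  have e : 64 * m * (4 * (4 * m) / n + 8 * (n * m ^ 2) * (4 * m) ^ 3 / n ^ 2)
      = (1024 * m ^ 2 + 32768 * m ^ 6) / n := by field_simp; ring
  rw [e, div_le_one hn0]
  have h26 : m ^ 2 ≤ m ^ 6 := pow_le_pow_right₀ hm1 (by norm_num)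
  have h67 : m ^ 6 * 10 ^ 6 ≤ m ^ 7 := by
    calc m ^ 6 * 10 ^ 6 ≤ m ^ 6 * m := mul_le_mul_of_nonneg_left hm (by positivity)
      _ = m ^ 7 := by ring
  have h79 : m ^ 7 ≤ m ^ 9 := pow_le_pow_right₀ hm1 (by norm_num)
  have h6 : 0 ≤ m ^ 6 := by positivity
  nlinarith

theorem stg_h3 (n m η : ℝ) (hm : 10 ^ 6 ≤ m) (hmn : m ^ 9 ≤ n) (hη0 : 0 ≤ η)
    (hη : 10 ^ 6 * n * m ^ 3 * η ≤ 1) :
    4000 * m * (m * (2 * ((m ^ 3 + 1) + m ^ 5)) * (4 * (4 * m) / n + 4 * η)) ≤ 1 := by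
  have hm0 : (0 : ℝ) < m := by linarith [show (0 : ℝ) < 10 ^ 6 by norm_num]
  have hm1 : (1 : ℝ) ≤ m := by linarith [show (1 : ℝ) ≤ 10 ^ 6 by norm_num]
  have hn0 : 0 < n := lt_of_lt_of_le (by positivity) hmn
  have h35 : m ^ 3 ≤ m ^ 5 := pow_le_pow_right₀ hm1 (by norm_num)
  have h05 : 1 ≤ m ^ 5 := one_le_pow₀ hm1
  have hS : (m ^ 3 + 1) + m ^ 5 ≤ 3 * m ^ 5 := by linarith
  have hT : 0 ≤ 4 * (4 * m) / n + 4 * η := by positivity
  have hA : m ^ 8 / n ≤ 1 / 10 ^ 6 := by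
    rw [div_le_div_iff₀ hn0 (by norm_num)]
    calc m ^ 8 * 10 ^ 6 ≤ m ^ 8 * m := mul_le_mul_of_nonneg_left hm (by positivity)
      _ = m ^ 9 := by ring
      _ ≤ 1 * n := by linarith
  have hB : m ^ 7 * η ≤ 1 / 10 ^ 6 := by
    have h49 : m ^ 4 ≤ n := (pow_le_pow_right₀ hm1 (by norm_num)).trans hmn
    have : m ^ 7 * η ≤ n * m ^ 3 * η := by
      refine mul_le_mul_of_nonneg_right ?_ hη0
      calc m ^ 7 = m ^ 4 * m ^ 3 := by ring
        _ ≤ n * m ^ 3 := mul_le_mul_of_nonneg_right h49 (by positivity)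
    nlinarith
  calc 4000 * m * (m * (2 * ((m ^ 3 + 1) + m ^ 5)) * (4 * (4 * m) / n + 4 * η))
      ≤ 4000 * m * (m * (2 * (3 * m ^ 5)) * (4 * (4 * m) / n + 4 * η)) := by gcongr
    _ = 384000 * (m ^ 8 / n) + 96000 * (m ^ 7 * η) := by ring
    _ ≤ 1 := by nlinarith

/-- Stages two and three. -/
theorem stg_two (n m : ℕ) (hm : 10 ^ 6 ≤ m) (hmn : m ^ 9 ≤ n)
    (hη : 10 ^ 6 * (n : ℝ) * (m : ℝ) ^ 3 * (64 / 81 : ℝ) ^ m ≤ 1)
    (F : Finset (Finset V)) (hF : ∀ C ∈ F, C.card = n)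
    (hint : ∀ C ∈ F, ∀ C' ∈ F, (C ∩ C').Nonempty)
    (hτ : ∀ T : Finset V, T.card < n → ∃ C ∈ F, Disjoint C T)
    (X' I' : Finset V) (A B : V → Finset V) (hIX : I' ⊆ X')
    (hAB : ∀ x ∈ I', A x ∈ F ∧ B x ∈ F ∧ A x ∩ B x = {x})
    (hK : ∀ x ∈ I', ((A x ∪ B x) ∩ X').card ≤ m)
    (hD : ∀ p ∈ X', (I'.filter fun x => p ∈ A x ∪ B x).card ≤ n * m ^ 2) :
    (I'.card : ℝ) ≤ ((2 * n - 2).choose (n - 1) : ℝ) / 2
      + 4 * (2 * n * ((n * m ^ 4 : ℕ) : ℝ) * 4 ^ n / 2 ^ m) := by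
  classical
  have hm1 : 1 ≤ m := le_trans (by norm_num) hm
  have hmR : (10 : ℝ) ^ 6 ≤ m := by exact_mod_cast hm
  have hmnR : (m : ℝ) ^ 9 ≤ n := by exact_mod_cast hmn
  have hn1 : 1 ≤ n := le_trans (Nat.one_le_pow _ _ hm1) hmn
  have hn4000 : 4000 * m ≤ n := by
    have h8 : m ≤ m ^ 8 := Nat.le_self_pow (by norm_num) m
    calc 4000 * m ≤ m ^ 8 * m := Nat.mul_le_mul_right m (by omega)
      _ = m ^ 9 := by ring
      _ ≤ n := hmn
  have hxA : ∀ x ∈ I', x ∈ A x := fun x hx =>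
    (mem_inter.1 ((hAB x hx).2.2 ▸ mem_singleton_self x : x ∈ A x ∩ B x)).1
  -- stage two
  obtain ⟨M, hM⟩ : ∃ M : Finset V, M = X'.filter fun p =>
      m ^ 3 < (I'.filter fun x => x ≠ p ∧ p ∈ A x ∪ B x).card := ⟨_, rfl⟩
  have hMX : M ⊆ X' := hM ▸ filter_subset _ _
  obtain ⟨X2, hX2⟩ : ∃ X2 : Finset V, X2 = X' \ M := ⟨_, rfl⟩
  obtain ⟨I2, hI2⟩ : ∃ I2 : Finset V, I2 = I' \ M := ⟨_, rfl⟩
  have hX2X : X2 ⊆ X' := hX2 ▸ sdiff_subset
  have hI2I : I2 ⊆ I' := hI2 ▸ sdiff_subset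
  have hI2X : I2 ⊆ X2 := by rw [hI2, hX2]; exact sdiff_subset_sdiff hIX subset_rfl
  have hΔ : ∀ p ∈ X2, (I'.filter fun x => p ∈ A x ∪ B x).card ≤ m ^ 3 + 1 := by
    intro p hp
    rw [hX2, mem_sdiff, hM, mem_filter] at hp
    have h1 : (I'.filter fun x => x ≠ p ∧ p ∈ A x ∪ B x).card ≤ m ^ 3 := by
      by_contra h
      exact hp.2 ⟨hp.1, not_le.1 h⟩
    have h2 : (I'.filter fun x => p ∈ A x ∪ B x) ⊆
        insert p (I'.filter fun x => x ≠ p ∧ p ∈ A x ∪ B x) := by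
      intro x hx
      rw [mem_filter] at hx
      by_cases hxp : x = p
      · exact mem_insert.2 (Or.inl hxp)
      · exact mem_insert.2 (Or.inr (mem_filter.2 ⟨hx.1, hxp, hx.2⟩))
    exact (card_le_card h2).trans ((card_insert_le _ _).trans (by omega))
  obtain ⟨I1, hI1⟩ : ∃ I1 : Finset V, I1 = I2.filter fun x => (A x ∪ B x) ∩ X2 = {x} := ⟨_, rfl⟩
  obtain ⟨O, hO⟩ : ∃ O : Finset V, O = I2.filter fun x => ¬ (A x ∪ B x) ∩ X2 = {x} := ⟨_, rfl⟩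
  obtain ⟨O1, hO1⟩ : ∃ O1 : Finset V,
      O1 = I1.filter fun x => ((A x ∪ B x) ∩ M).Nonempty := ⟨_, rfl⟩
  have hI1I : I1 ⊆ I2 := hI1 ▸ filter_subset _ _
  have hOI : O ⊆ I2 := hO ▸ filter_subset _ _
  have hsplit : I1.card + O.card = I2.card := by
    rw [hI1, hO]; exact card_filter_add_card_filter_not _
  have hdc : M.card * m ^ 3 ≤ m * (M.card + O.card + O1.card) := by
    have h1 : M.card * m ^ 3 ≤ (M ∪ O ∪ O1).card * m := by
      refine card_mul_le_card_mul (fun p x => x ∈ I' ∧ p ∈ A x ∪ B x) ?_ ?_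
      · intro p hp
        have hp' := hp
        rw [hM, mem_filter] at hp'
        refine hp'.2.le.trans (card_le_card ?_)
        intro x hx
        rw [mem_filter] at hx
        rw [mem_bipartiteAbove]
        refine ⟨?_, hx.1, hx.2.2⟩
        by_cases hxM : x ∈ M
        · exact mem_union_left _ (mem_union_left _ hxM)
        · have hx2 : x ∈ I2 := by rw [hI2]; exact mem_sdiff.2 ⟨hx.1, hxM⟩
          by_cases hx1 : (A x ∪ B x) ∩ X2 = {x}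
          · refine mem_union_right _ ?_
            rw [hO1, mem_filter, hI1, mem_filter]
            exact ⟨⟨hx2, hx1⟩, p, mem_inter.2 ⟨hx.2.2, hp⟩⟩
          · refine mem_union_left _ (mem_union_right _ ?_)
            rw [hO, mem_filter]
            exact ⟨hx2, hx1⟩
      · intro x _
        by_cases hx : x ∈ I'
        · refine le_trans (card_le_card ?_) (hK x hx)
          intro p hp
          rw [mem_bipartiteBelow] at hp
          exact mem_inter.2 ⟨hp.2.2, hMX hp.1⟩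
        · have : bipartiteBelow (fun p x => x ∈ I' ∧ p ∈ A x ∪ B x) M x = ∅ := by
            refine eq_empty_of_forall_notMem fun p hp => ?_
            rw [mem_bipartiteBelow] at hp
            exact hx hp.2.1
          rw [this]; simp
    have h2 : (M ∪ O ∪ O1).card ≤ M.card + O.card + O1.card :=
      (card_union_le _ _).trans (Nat.add_le_add_right (card_union_le _ _) _)
    calc M.card * m ^ 3 ≤ (M ∪ O ∪ O1).card * m := h1
      _ ≤ (M.card + O.card + O1.card) * m := Nat.mul_le_mul_right _ h2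
      _ = _ := mul_comm _ _
  obtain ⟨Fs, hFs⟩ : ∃ Fs : Finset V,
      Fs = O.filter fun x => ∀ C ∈ F, x ∈ C → A x \ X2 ⊆ C ∨ B x \ X2 ⊆ C := ⟨_, rfl⟩
  obtain ⟨Ds, hDs⟩ : ∃ Ds : Finset V,
      Ds = O.filter fun x => ¬ ∀ C ∈ F, x ∈ C → A x \ X2 ⊆ C ∨ B x \ X2 ⊆ C := ⟨_, rfl⟩
  have hFsO : Fs ⊆ O := hFs ▸ filter_subset _ _
  have hDsO : Ds ⊆ O := hDs ▸ filter_subset _ _
  have hsplit2 : Fs.card + Ds.card = O.card := by
    rw [hFs, hDs]; exact card_filter_add_card_filter_not _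
  have hex : ∀ x, ∃ a b : Finset V, x ∈ Ds → a ∈ F ∧ b ∈ F ∧ a ∩ b = {x} ∧
      ¬ A x \ X2 ⊆ a ∧ ¬ B x \ X2 ⊆ a := by
    intro x
    by_cases hx : x ∈ Ds
    · have hx' := hx
      rw [hDs, mem_filter] at hx'
      have h2 := hx'.2
      push Not at h2
      obtain ⟨C, hC, hxC, h3, h4⟩ := h2
      obtain ⟨C', hC', h5⟩ := stg_partner F hF hint hτ C hC x hxC
      exact ⟨C, C', fun _ => ⟨hC, hC', h5, h3, h4⟩⟩
    · exact ⟨∅, ∅, fun h => absurd h hx⟩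
  choose A' B' hAB' using hex
  -- stage three
  obtain ⟨Y, Ds0, hYX, hDs0, hYc, hDc, hK', hD'⟩ :=
    red n (n * m ^ 4) m (m ^ 5) (by positivity) (by positivity) X2 Ds A' B'
      (hDsO.trans (hOI.trans hI2X)) (fun x hx => hF _ (hAB' x hx).1)
      (fun x hx => hF _ (hAB' x hx).2.1) (fun x hx => (hAB' x hx).2.2.1)
      (fun x hx y hy => hint _ (hAB' x hx).1 _ (hAB' y hy).2.1)
  have hDs0D : Ds0 ⊆ Ds := hDs0.trans sdiff_subset
  obtain ⟨Bad, hBad⟩ : ∃ Bad : Finset V,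
      Bad = I2.filter fun x => ((A x ∪ B x) ∩ Y).Nonempty := ⟨_, rfl⟩
  have hBc : Bad.card ≤ Y.card * (m ^ 3 + 1) := by
    have h1 : Bad ⊆ Y.biUnion fun p => I'.filter fun x => p ∈ A x ∪ B x := by
      intro x hx
      rw [hBad, mem_filter] at hx
      obtain ⟨hx2, p, hp⟩ := hx
      rw [mem_inter] at hp
      exact mem_biUnion.2 ⟨p, hp.2, mem_filter.2 ⟨hI2I hx2, hp.1⟩⟩
    exact (card_le_card h1).trans (card_biUnion_le_card_mul _ _ _ fun p hp => hΔ p (hYX hp))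
  have hgood : ∀ x ∈ I2, x ∉ Bad → ∀ p ∈ A x ∪ B x, p ∉ Y := by
    intro x hx hxB p hp hpY
    exact hxB (by rw [hBad, mem_filter]; exact ⟨hx, p, mem_inter.2 ⟨hp, hpY⟩⟩)
  have hg1 : ∀ x ∈ I2, x ∉ Bad → (A x ∪ B x) ∩ (X2 \ Y) = (A x ∪ B x) ∩ X2 := by
    intro x hx hxB
    ext p
    simp only [mem_inter, mem_sdiff]
    exact ⟨fun h => ⟨h.1, h.2.1⟩, fun h => ⟨h.1, h.2, hgood x hx hxB p h.1⟩⟩
  have hg2 : ∀ x ∈ I2, x ∉ Bad → A x \ (X2 \ Y) = A x \ X2 := by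
    intro x hx hxB
    ext p
    simp only [mem_sdiff]
    exact ⟨fun h => ⟨h.1, fun h2 => h.2 ⟨h2, hgood x hx hxB p (mem_union_left _ h.1)⟩⟩,
      fun h => ⟨h.1, fun h2 => h.2 h2.1⟩⟩
  have hg3 : ∀ x ∈ I2, x ∉ Bad → B x \ (X2 \ Y) = B x \ X2 := by
    intro x hx hxB
    ext p
    simp only [mem_sdiff]
    exact ⟨fun h => ⟨h.1, fun h2 => h.2 ⟨h2, hgood x hx hxB p (mem_union_right _ h.1)⟩⟩,
      fun h => ⟨h.1, fun h2 => h.2 h2.1⟩⟩
  have hall : ∀ x ∈ (I1 \ Bad) ∪ (Fs \ Bad) ∪ (Ds0 \ Bad), x ∈ I2 ∧ x ∉ Bad := by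
    intro x hx
    simp only [mem_union, mem_sdiff] at hx
    rcases hx with (h | h) | h
    · exact ⟨hI1I h.1, h.2⟩
    · exact ⟨hOI (hFsO h.1), h.2⟩
    · exact ⟨hOI (hDsO (hDs0D h.1)), h.2⟩
  have hdI1O : Disjoint I1 O := by
    rw [hI1, hO]; exact disjoint_filter_filter_not _ _ _
  have hdFD : Disjoint Fs Ds := by
    rw [hFs, hDs]; exact disjoint_filter_filter_not _ _ _
  have hη0 : (0 : ℝ) ≤ (64 / 81 : ℝ) ^ m := by positivity
  have hcore := core n m (4 * m) (n * m ^ 2) (m ^ 3 + 1) (m ^ 5) ((64 / 81 : ℝ) ^ m)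
    (by omega) hn4000 (far_bound hm1 (by omega))
    (by
      push_cast
      have : (0 : ℝ) ≤ (n : ℝ) * (m : ℝ) ^ 3 * (64 / 81 : ℝ) ^ m := by positivity
      nlinarith)
    (by push_cast; exact stg_h2 n m hmR hmnR)
    (by push_cast; exact stg_h3 n m _ hmR hmnR hη0 hη)
    F hF hint hτ (X2 \ Y) M (I1 \ Bad) (Fs \ Bad) (Ds0 \ Bad) A B A' B'
    (by
      rw [hX2]
      exact disjoint_left.2 fun p hp => (mem_sdiff.1 (mem_sdiff.1 hp).1).2)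
    (by
      intro x hx
      obtain ⟨h1, h2⟩ := hall x hx
      exact mem_sdiff.2 ⟨hI2X h1, hgood x h1 h2 x (mem_union_left _ (hxA x (hI2I h1)))⟩)
    (hdI1O.mono sdiff_subset (sdiff_subset.trans hFsO))
    (hdI1O.mono sdiff_subset (sdiff_subset.trans (hDs0D.trans hDsO)))
    (hdFD.mono sdiff_subset (sdiff_subset.trans hDs0D))
    (by
      intro x hx
      obtain ⟨h1, _⟩ := hall x hx
      obtain ⟨h3, h4, h5⟩ := hAB x (hI2I h1)
      exact ⟨h3, h4, h5, (card_le_card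
        (inter_subset_inter_left (sdiff_subset.trans hX2X))).trans (hK x (hI2I h1))⟩)
    (by
      intro x hx
      rw [mem_sdiff] at hx
      have h1 := hx.1
      rw [hI1, mem_filter] at h1
      exact ⟨by rw [hg1 x h1.1 hx.2]; exact h1.2,
        (card_le_card (inter_subset_inter_left hMX)).trans (hK x (hI2I h1.1))⟩)
    (by
      intro x hx
      rw [mem_sdiff] at hx
      have h1 := hx.1
      rw [hFs, mem_filter, hO, mem_filter] at h1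
      rw [hg1 x h1.1.1 hx.2, hg2 x h1.1.1 hx.2, hg3 x h1.1.1 hx.2]
      exact ⟨h1.1.2, h1.2⟩)
    (by
      intro x hx
      rw [mem_sdiff] at hx
      have h1 : x ∈ Ds := hDs0D hx.1
      have h2 : x ∈ I2 := hOI (hDsO h1)
      obtain ⟨h3, h4, h5, h6, h7⟩ := hAB' x h1
      rw [hg2 x h2 hx.2, hg3 x h2 hx.2]
      exact ⟨h3, h4, h5, hK' x hx.1, h6, h7⟩)
    (by
      intro p hp
      refine le_trans (card_le_card ?_) (hΔ p (mem_sdiff.1 hp).1)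
      exact filter_subset_filter _ fun x hx => hI2I (hall x hx).1)
    (by
      intro p hp
      exact le_trans (card_le_card (filter_subset_filter _ sdiff_subset)) (hD' p hp))
    (by
      intro p hp
      refine le_trans (card_le_card ?_) (hD p (hMX hp))
      exact filter_subset_filter _ (sdiff_subset.trans (hI1I.trans hI2I)))
  have hsd : ∀ S : Finset V, (S.card : ℝ) ≤ (S \ Bad).card + Bad.card := fun S => by
    exact_mod_cast card_le_card_sdiff_add_card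
  have hO1c : (O1.card : ℝ) ≤
      ((I1 \ Bad).filter fun x => ((A x ∪ B x) ∩ M).Nonempty).card + Bad.card := by
    refine (hsd O1).trans (add_le_add_left ?_ _)
    have : O1 \ Bad ⊆ (I1 \ Bad).filter fun x => ((A x ∪ B x) ∩ M).Nonempty := by
      intro x hx
      rw [mem_sdiff, hO1, mem_filter] at hx
      exact mem_filter.2 ⟨mem_sdiff.2 ⟨hx.1.1, hx.2⟩, hx.1.2⟩
    exact_mod_cast card_le_card this
  have hIc : (I'.card : ℝ) ≤ I2.card + M.card := by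
    rw [hI2]; exact_mod_cast card_le_card_sdiff_add_card
  have hsplitR : (I1.card : ℝ) + O.card = I2.card := by exact_mod_cast hsplit
  have hsplit2R : (Fs.card : ℝ) + Ds.card = O.card := by exact_mod_cast hsplit2
  have hm0 : (0 : ℝ) < m := by exact_mod_cast hm1
  have hn0 : (0 : ℝ) < n := by exact_mod_cast hn1
  have hY3 : (Y.card : ℝ) * (m : ℝ) ^ 4 ≤ 3 * O.card := by
    have e : (2 * (n : ℝ) / ((n * m ^ 4 : ℕ) : ℝ) + (m : ℝ) / ((m ^ 5 : ℕ) : ℝ))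
        = 3 / (m : ℝ) ^ 4 := by
      push_cast; field_simp; ring
    rw [e, div_mul_eq_mul_div, le_div_iff₀ (by positivity)] at hYc
    have : (0 : ℝ) ≤ Fs.card := Nat.cast_nonneg _
    linarith
  refine stg_final m M.card O.card O1.card (I1 \ Bad).card
    ((Fs \ Bad).card + (Ds0 \ Bad).card) _ Bad.card Y.card _ _ _ hmR (by positivity)
    (by positivity) (by positivity) (by positivity) (by positivity) (by positivity)
    (by positivity) (by exact_mod_cast hdc) hY3 (by exact_mod_cast hBc) ?_ hO1c ?_ hcore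
  · linarith [hsd Fs, hsd Ds0]
  · linarith [hsd I1]

theorem stage (n m : ℕ) (hm : 10 ^ 6 ≤ m) (hmn : m ^ 9 ≤ n)
    (hη : 10 ^ 6 * (n : ℝ) * (m : ℝ) ^ 3 * (64 / 81 : ℝ) ^ m ≤ 1)
    (F : Finset (Finset V)) (hF : ∀ C ∈ F, C.card = n)
    (hint : ∀ C ∈ F, ∀ C' ∈ F, (C ∩ C').Nonempty)
    (hτ : ∀ T : Finset V, T.card < n → ∃ C ∈ F, Disjoint C T) :
    (1 - 3 / ((n : ℝ) * m)) * ((F.biUnion id).card : ℝ)
      ≤ ((2 * n - 2).choose (n - 1) : ℝ) / 2 + 10 * (n : ℝ) ^ 3 * m * 4 ^ n / 2 ^ m := by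
  have hm1 : 1 ≤ m := le_trans (by norm_num) hm
  have hn1 : 1 ≤ n := le_trans (Nat.one_le_pow _ _ hm1) hmn
  have hm0 : (0 : ℝ) < m := by exact_mod_cast hm1
  have hn0 : (0 : ℝ) < n := by exact_mod_cast hn1
  obtain ⟨W, hW⟩ : ∃ W : Finset V, W = F.biUnion id := ⟨_, rfl⟩
  rw [← hW]
  have hex : ∀ x, ∃ a b : Finset V, x ∈ W → a ∈ F ∧ b ∈ F ∧ a ∩ b = {x} := by
    intro x
    by_cases hx : x ∈ W
    · have hx' := hx
      rw [hW, mem_biUnion] at hx'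
      obtain ⟨C, hC, hxC⟩ := hx'
      obtain ⟨C', hC', h5⟩ := stg_partner F hF hint hτ C hC x hxC
      exact ⟨C, C', fun _ => ⟨hC, hC', h5⟩⟩
    · exact ⟨∅, ∅, fun h => absurd h hx⟩
  choose A B hAB using hex
  obtain ⟨Y, I', -, hI', hYc, hWc, hK, hD⟩ :=
    red n (n ^ 2 * m) m (n * m ^ 2) (by positivity) (by positivity) W W A B subset_rfl
      (fun x hx => hF _ (hAB x hx).1) (fun x hx => hF _ (hAB x hx).2.1)
      (fun x hx => (hAB x hx).2.2) (fun x hx y hy => hint _ (hAB x hx).1 _ (hAB y hy).2.1)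
  have h2 := stg_two n m hm hmn hη F hF hint hτ (W \ Y) I' A B hI'
    (fun x hx => hAB x (mem_sdiff.1 (hI' hx)).1) hK hD
  have e : (2 * (n : ℝ) / ((n ^ 2 * m : ℕ) : ℝ) + (m : ℝ) / ((n * m ^ 2 : ℕ) : ℝ))
      = 3 / ((n : ℝ) * m) := by
    push_cast; field_simp; ring
  rw [e] at hYc
  have hm3 : (m : ℝ) ^ 3 ≤ n := by
    have : m ^ 3 ≤ n := (Nat.pow_le_pow_right hm1 (by norm_num)).trans hmn
    exact_mod_cast this
  have hZ : 2 * (n : ℝ) * ((n ^ 2 * m : ℕ) : ℝ) * 4 ^ n / 2 ^ m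
      + 4 * (2 * n * ((n * m ^ 4 : ℕ) : ℝ) * 4 ^ n / 2 ^ m)
      ≤ 10 * (n : ℝ) ^ 3 * m * 4 ^ n / 2 ^ m := by
    have e1 : 2 * (n : ℝ) * ((n ^ 2 * m : ℕ) : ℝ) * 4 ^ n / 2 ^ m
        + 4 * (2 * n * ((n * m ^ 4 : ℕ) : ℝ) * 4 ^ n / 2 ^ m)
        = (2 * (n : ℝ) ^ 3 * m + 8 * (n : ℝ) ^ 2 * m * (m : ℝ) ^ 3) * (4 ^ n / 2 ^ m) := by
      push_cast; ring
    have e2 : 10 * (n : ℝ) ^ 3 * m * 4 ^ n / 2 ^ m
        = (2 * (n : ℝ) ^ 3 * m + 8 * (n : ℝ) ^ 2 * m * n) * (4 ^ n / 2 ^ m) := by ring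
    rw [e1, e2]
    gcongr
  linarith

end Pool.Agent.P.MP_c09308_co
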