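import Mathlib
import Pool.Agent.P.MP_c09308_co.Stage

namespace Pool.Agent.P.MP_c09308_co

open Finset

theorem card_fin_filter {N : ℕ} {C : Finset ℕ} (h : ∀ x ∈ C, x < N) :
    (univ.filter fun i : Fin N => i.val ∈ C).card = C.card := by
  refine card_bij (fun i _ => i.val) (fun i hi => (mem_filter.1 hi).2)
    (fun i _ j _ hij => Fin.ext hij) fun x hx => ⟨⟨x, h x hx⟩, by simpa using hx, rfl⟩

theorem stage_nat (n m : ℕ) (hm : 10 ^ 6 ≤ m) (hmn : m ^ 9 ≤ n)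
    (hη : 10 ^ 6 * (n : ℝ) * (m : ℝ) ^ 3 * (64 / 81 : ℝ) ^ m ≤ 1)
    (F : Finset (Finset ℕ)) (hF : ∀ C ∈ F, C.card = n)
    (hint : ∀ C ∈ F, ∀ C' ∈ F, (C ∩ C').Nonempty)
    (hτ : ∀ T : Finset ℕ, T.card < n → ∃ C ∈ F, Disjoint C T) :
    (1 - 3 / ((n : ℝ) * m)) * ((F.biUnion id).card : ℝ)
      ≤ ((2 * n - 2).choose (n - 1) : ℝ) / 2 + 10 * (n : ℝ) ^ 3 * m * 4 ^ n / 2 ^ m := by
  obtain ⟨N, hN⟩ : ∃ N : ℕ, ∀ x ∈ F.biUnion id, x < N :=
    ⟨(F.biUnion id).sup id + 1, fun x hx => Nat.lt_succ_of_le (le_sup (f := id) hx)⟩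
  have hN' : ∀ C ∈ F, ∀ x ∈ C, x < N := fun C hC x hx => hN x (mem_biUnion.2 ⟨C, hC, hx⟩)
  have h := stage (V := Fin N) n m hm hmn hη
    (F.image fun C => univ.filter fun i : Fin N => i.val ∈ C)
    (by
      intro C hC
      obtain ⟨D, hD, rfl⟩ := mem_image.1 hC
      rw [card_fin_filter (hN' D hD), hF D hD])
    (by
      intro C hC C' hC'
      obtain ⟨D, hD, rfl⟩ := mem_image.1 hC
      obtain ⟨D', hD', rfl⟩ := mem_image.1 hC'
      obtain ⟨x, hx⟩ := hint D hD D' hD'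
      rw [mem_inter] at hx
      exact ⟨⟨x, hN' D hD x hx.1⟩, by simpa using hx⟩)
    (by
      intro T hT
      obtain ⟨C, hC, hd⟩ := hτ (T.map Fin.valEmbedding) (by rwa [card_map])
      refine ⟨_, mem_image_of_mem _ hC, disjoint_left.2 fun i hi hi' => ?_⟩
      exact disjoint_left.1 hd (mem_filter.1 hi).2 (mem_map_of_mem _ hi'))
  have e : ((F.image fun C => univ.filter fun i : Fin N => i.val ∈ C).biUnion id).card
      = (F.biUnion id).card := by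
    rw [← card_fin_filter hN]
    congr 1
    ext i
    simp only [mem_biUnion, mem_image, id, mem_filter, mem_univ, true_and]
    constructor
    · rintro ⟨_, ⟨C, hC, rfl⟩, hi⟩
      exact ⟨C, hC, (mem_filter.1 hi).2⟩
    · rintro ⟨C, hC, hi⟩
      exact ⟨_, ⟨C, hC, rfl⟩, mem_filter.2 ⟨mem_univ _, hi⟩⟩
  rw [← e]
  exact h

theorem asymptotic_bound {ε : ℝ} (hε : 0 < ε) : ∃ N : ℕ, ∀ n : ℕ, N ≤ n →
    ∀ F : Finset (Finset ℕ), (∀ C ∈ F, C.card = n) → (∀ C ∈ F, ∀ C' ∈ F, (C ∩ C').Nonempty) →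
      (∀ T : Finset ℕ, T.card < n → ∃ C ∈ F, Disjoint C T) →
      ((F.biUnion id).card : ℝ) ≤ (1 + ε / n) * (((2 * n - 2).choose (n - 1) : ℝ) / 2) := by
  obtain ⟨N, hN⟩ := asymp hε
  refine ⟨N, fun n hn F hF hint hτ => ?_⟩
  obtain ⟨m, hm, hmn, hη, h⟩ := hN n hn
  exact h _ (stage_nat n m hm hmn hη F hF hint hτ)

/-- A uniform family without a proper two-colouring has no cover smaller than its edges. -/
theorem cover_of_not_colourable {n : ℕ} {F : Finset (Finset ℕ)} (hF : ∀ C ∈ F, C.card = n)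
    (h : ¬ ∃ c : ℕ → Fin 2, ∀ e ∈ F, ∃ x ∈ e, ∃ y ∈ e, c x ≠ c y) (T : Finset ℕ)
    (hT : T.card < n) : ∃ C ∈ F, Disjoint C T := by
  by_contra hc
  refine h ⟨fun x => if x ∈ T then 0 else 1, fun e he => ?_⟩
  have h1 : ¬ Disjoint e T := fun hd => hc ⟨e, he, hd⟩
  obtain ⟨x, hx, hxT⟩ := not_disjoint_iff.1 h1
  obtain ⟨y, hy, hyT⟩ := exists_mem_notMem_of_card_lt_card (hT.trans_eq (hF e he).symm)
  exact ⟨x, hx, y, hy, by simp [hxT, hyT]⟩

end Pool.Agent.P.MP_c09308_co
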