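import Mathlib

/-! Greedy clusters of points, and the subcubes attached to them. -/

namespace Pool.Agent.P.MP_c09308_co

open Finset

variable {V : Type*} [DecidableEq V] {W : Type*} [LinearOrder W]

/-- A system of clusters `κ A ⊆ A` indexed by the sets `A` in `R`. -/
structure TzC (n : ℕ) (P : Finset (Finset V)) (ρ : Finset V → W) (R : Finset (Finset V))
    (κ : Finset V → Finset V) : Prop where
  card : ∀ S ∈ P, S.card = n
  int : ∀ S ∈ P, ∀ T ∈ P, (S ∩ T).Nonempty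
  sub : R ⊆ P
  κsub : ∀ A ∈ R, κ A ⊆ A
  val : ∀ A ∈ R, ∃ B ∈ P, A ∩ B ⊆ κ A ∧ ρ A < ρ B
  p1 : ∀ A ∈ R, ∀ A' ∈ R, A ≠ A' → ∀ p ∈ A, p ∈ κ A' → (κ A).card < (κ A').card

theorem TzC.mono {n : ℕ} {P R R' : Finset (Finset V)} {ρ : Finset V → W}
    {κ : Finset V → Finset V} (h : TzC n P ρ R κ) (hR : R' ⊆ R) : TzC n P ρ R' κ :=
  ⟨h.card, h.int, hR.trans h.sub, fun A hA => h.κsub A (hR hA), fun A hA => h.val A (hR hA),
    fun A hA A' hA' => h.p1 A (hR hA) A' (hR hA')⟩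

/-- The greedy clusters. -/
theorem tz_clusters {n : ℕ} {P : Finset (Finset V)} {ρ : Finset V → W}
    (hc : ∀ S ∈ P, S.card = n) (hi : ∀ S ∈ P, ∀ T ∈ P, (S ∩ T).Nonempty) (Y : Finset V)
    (hY : ∀ x ∈ Y, ∃ A ∈ P, ∃ B ∈ P, A ∩ B = {x} ∧ ρ A < ρ B) :
    ∃ (R : Finset (Finset V)) (κ : Finset V → Finset V), TzC n P ρ R κ ∧ (∀ A ∈ R, κ A ⊆ Y) ∧
      Y.card ≤ ∑ A ∈ R, (κ A).card := by
  classical
  induction Y using Finset.strongInduction with
  | H Y ih =>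
  rcases Y.eq_empty_or_nonempty with rfl | ⟨x, hx⟩
  · exact ⟨∅, id, ⟨hc, hi, empty_subset _, by simp, by simp, by simp⟩, by simp, by simp⟩
  obtain ⟨A0, hA0, hmax⟩ := exists_max_image
    (P.filter fun A => ∃ B ∈ P, A ∩ B ⊆ Y ∧ ρ A < ρ B) (fun A => (A ∩ Y).card) (by
      obtain ⟨A, hA, B, hB, h1, h2⟩ := hY x hx
      exact ⟨A, mem_filter.2 ⟨hA, B, hB, by rw [h1]; simpa using hx, h2⟩⟩)
  obtain ⟨hA0, B0, hB0, h1, h2⟩ := mem_filter.1 hA0
  obtain ⟨z, hz⟩ := hi A0 hA0 B0 hB0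
  obtain ⟨R, κ, h, hκ, hs⟩ := ih (Y \ A0)
    ⟨sdiff_subset, fun hh => (mem_sdiff.1 (hh (h1 hz))).2 (mem_inter.1 hz).1⟩
    fun y hy => hY y (mem_sdiff.1 hy).1
  have hn : A0 ∉ R := by
    intro hR
    obtain ⟨B, hB, h3, _⟩ := h.val A0 hR
    obtain ⟨p, hp⟩ := hi A0 hA0 B hB
    exact (mem_sdiff.1 (hκ A0 hR (h3 hp))).2 (mem_inter.1 hp).1
  have e0 : Function.update κ A0 (A0 ∩ Y) A0 = A0 ∩ Y := Function.update_self ..
  have e1 : ∀ A ∈ R, Function.update κ A0 (A0 ∩ Y) A = κ A := fun A hA =>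
    Function.update_of_ne (fun e : A = A0 => hn (e ▸ hA)) ..
  refine ⟨insert A0 R, Function.update κ A0 (A0 ∩ Y),
    ⟨hc, hi, insert_subset hA0 h.sub, ?_, ?_, ?_⟩, ?_, ?_⟩
  · intro A hA
    rcases mem_insert.1 hA with rfl | hA
    · rw [e0]; exact inter_subset_left
    · rw [e1 A hA]; exact h.κsub A hA
  · intro A hA
    rcases mem_insert.1 hA with rfl | hA
    · rw [e0]; exact ⟨B0, hB0, subset_inter inter_subset_left h1, h2⟩
    · rw [e1 A hA]; exact h.val A hA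
  · intro A hA1 A' hA2 hne p hp hp'
    rcases mem_insert.1 hA1 with rfl | hA <;> rcases mem_insert.1 hA2 with rfl | hA'
    · exact absurd rfl hne
    · rw [e1 A' hA'] at hp'
      exact absurd hp (mem_sdiff.1 (hκ A' hA' hp')).2
    · rw [e0] at hp' ⊢
      rw [e1 A hA]
      obtain ⟨B, hB, h3, h4⟩ := h.val A hA
      refine lt_of_lt_of_le (card_lt_card ⟨?_, fun hh => ?_⟩) (hmax A (mem_filter.2
        ⟨h.sub hA, B, hB, h3.trans ((hκ A hA).trans sdiff_subset), h4⟩))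
      · exact subset_inter (h.κsub A hA) ((hκ A hA).trans sdiff_subset)
      · exact (mem_sdiff.1 (hκ A hA (hh (mem_inter.2 ⟨hp, (mem_inter.1 hp').2⟩)))).2
          (mem_inter.1 hp').1
    · rw [e1 A' hA'] at hp' ⊢
      rw [e1 A hA]
      exact h.p1 A hA A' hA' hne p hp hp'
  · intro A hA
    rcases mem_insert.1 hA with rfl | hA
    · rw [e0]; exact inter_subset_right
    · rw [e1 A hA]; exact (hκ A hA).trans sdiff_subset
  · rw [sum_insert hn, e0, sum_congr rfl fun A hA => congrArg card (e1 A hA)]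
    have := card_sdiff_add_card_inter Y A0
    rw [inter_comm] at this
    omega

/-- A subcube (early points `α`, late points `β`) with the two sets it comes from. -/
structure TzE (V : Type*) where
  A : Finset V
  B : Finset V
  α : Finset V
  β : Finset V

/-- The properties of a subcube relative to the remaining clusters. -/
structure TzB (n : ℕ) (P : Finset (Finset V)) (ρ : Finset V → W) (R : Finset (Finset V))
    (κ : Finset V → Finset V) (e : TzE V) : Prop where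
  hA : e.A ∈ R
  hB : e.B ∈ P
  val : e.A ∩ e.B ⊆ κ e.A
  lt : ρ e.A < ρ e.B
  left : ∀ p ∈ e.A, p ∉ κ e.A → p ∈ e.α
  right : ∀ p ∈ e.B, p ∉ e.β → ∃ A' ∈ R, (κ A').card ≤ (κ e.A).card ∧ p ∈ κ A'
  lα : (e.α \ e.A).card ≤ 2
  lβ : (e.β \ e.B).card ≤ 2
  dis : Disjoint e.α e.β
  sz : e.α.card + e.β.card ≤ 2 * n

theorem TzB.mono {n : ℕ} {P R R' : Finset (Finset V)} {ρ : Finset V → W}
    {κ : Finset V → Finset V} {e : TzE V} (h : TzB n P ρ R' κ e) (hR : R' ⊆ R) :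
    TzB n P ρ R κ e :=
  ⟨hR h.hA, h.hB, h.val, h.lt, h.left, fun p hp hp' => by
    obtain ⟨A', h1, h2⟩ := h.right p hp hp'
    exact ⟨A', hR h1, h2⟩, h.lα, h.lβ, h.dis, h.sz⟩

/-- Two subcubes are incompatible. -/
def TzI (ρ : Finset V → W) (e e' : TzE V) : Prop :=
  ¬ (Disjoint e.α e'.β ∧ Disjoint e'.α e.β ∧ ρ e.A = ρ e'.A ∧ ρ e.B = ρ e'.B)

omit [DecidableEq V] [LinearOrder W] in
theorem TzI.symm {ρ : Finset V → W} {e e' : TzE V} (h : TzI ρ e e') : TzI ρ e' e :=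
  fun ⟨h1, h2, h3, h4⟩ => h ⟨h2, h1, h3.symm, h4.symm⟩

omit [DecidableEq V] [LinearOrder W] in
theorem tzI_left {ρ : Finset V → W} {e e' : TzE V} {p : V} (h : p ∈ e.α) (h' : p ∈ e'.β) :
    TzI ρ e e' := fun hh => disjoint_left.1 hh.1 h h'

omit [DecidableEq V] [LinearOrder W] in
theorem tzI_right {ρ : Finset V → W} {e e' : TzE V} {p : V} (h : p ∈ e'.α) (h' : p ∈ e.β) :
    TzI ρ e e' := fun hh => disjoint_left.1 hh.2.1 h h'

/-- The weight of a subcube. -/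
def tzW (n : ℕ) (e : TzE V) : ℕ := 2 ^ (2 * n - (e.α.card + e.β.card))

omit [DecidableEq V] in
theorem tzW_ge {n d : ℕ} {e : TzE V} (h : e.α.card + e.β.card + d ≤ 2 * n) : 2 ^ d ≤ tzW n e :=
  Nat.pow_le_pow_right (by norm_num) (by omega)

end Pool.Agent.P.MP_c09308_co
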