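import Mathlib
import Pool.Agent.P.MP_c09308_co.Perm

/-! An auxiliary ordering that orients most pairs consistently. -/

namespace Pool.Agent.P.MP_c09308_co

open Finset

variable {V : Type*} [Fintype V] [LinearOrder V]

/-- The position of the first point of `S` outside `Z`. -/
def tzR (π : Equiv.Perm V) (Z S : Finset V) : WithTop V := ((S \ Z).image π).min

omit [Fintype V] in
theorem tzR_ne (π : Equiv.Perm V) {Z S T : Finset V} (h : S ∩ T ⊆ Z) (hS : (S \ Z).Nonempty) :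
    tzR π Z S ≠ tzR π Z T := by
  intro e
  obtain ⟨a, ha⟩ := min_of_nonempty (hS.image π)
  obtain ⟨x, hx, rfl⟩ := mem_image.1 (mem_of_min ha)
  obtain ⟨y, hy, hxy⟩ := mem_image.1 (mem_of_min (e.symm.trans ha))
  rw [π.injective hxy, mem_sdiff] at hy
  exact hy.2 (h (mem_inter.2 ⟨(mem_sdiff.1 hx).1, hy.1⟩))

omit [Fintype V] in
theorem tzR_eq (π : Equiv.Perm V) {Z S : Finset V} {u : V} (hu : u ∈ S \ Z)
    (h : ∀ v ∈ S \ Z, π u ≤ π v) : tzR π Z S = π u := by
  refine le_antisymm (min_le (mem_image_of_mem _ hu)) (Finset.le_min fun a ha => ?_)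
  obtain ⟨v, hv, rfl⟩ := mem_image.1 ha
  exact WithTop.coe_le_coe.2 (h v hv)

theorem tzR_bad {Z S S' : Finset V} {k l : ℕ} (hk : 1 ≤ k) (hS : k ≤ (S \ Z).card)
    (h1 : (S \ S').card ≤ l) (h2 : (S' \ S).card ≤ l) :
    pr (univ.filter fun π => tzR π Z S ≠ tzR π Z S') ≤ 2 * l / k := by
  set U := (S \ Z) ∪ (S' \ Z) with hU
  have hk' : (0 : ℝ) < k := by exact_mod_cast hk
  have hUk : k ≤ U.card := hS.trans (card_le_card subset_union_left)
  have a1 := pr_le_sum_of_cover (((S \ S') ∪ (S' \ S)) ∩ U)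
    (fun u => (Ev ∅ U).filter fun σ => (U.filter fun v => σ v < σ u).card < 1)
    (univ.filter fun π => tzR π Z S ≠ tzR π Z S') (by
      intro σ hσ
      obtain ⟨u, hu, hmin⟩ := exists_min_image U σ (card_pos.1 (by omega))
      refine ⟨u, mem_inter.2 ⟨?_, hu⟩, mem_filter.2 ⟨mem_Ev.2 (by simp), ?_⟩⟩
      · by_contra hc
        have b1 : u ∈ S \ Z ∧ u ∈ S' \ Z := by
          simp only [hU, mem_union, mem_sdiff] at hu hc ⊢
          tauto
        exact (mem_filter.1 hσ).2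
          ((tzR_eq σ b1.1 fun v hv => hmin v (mem_union_left _ hv)).trans
            (tzR_eq σ b1.2 fun v hv => hmin v (mem_union_right _ hv)).symm)
      · rw [Nat.lt_one_iff, card_eq_zero, filter_eq_empty_iff]
        exact fun v hv => not_lt.2 (hmin v hv))
  have a2 : pr (univ.filter fun π => tzR π Z S ≠ tzR π Z S')
      ≤ ∑ _u ∈ ((S \ S') ∪ (S' \ S)) ∩ U, (1 / k : ℝ) := by
    refine a1.trans (sum_le_sum fun u hu => ?_)
    have b1 := rank_right (a := ∅) (mem_inter.1 hu).2 1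
    have b2 := pr_le_one (Ev ∅ U)
    have b3 : (k : ℝ) ≤ U.card := by exact_mod_cast hUk
    have b4 := pr_nonneg ((Ev ∅ U).filter fun σ => (U.filter fun v => σ v < σ u).card < 1)
    rw [le_div_iff₀ hk']
    push_cast at b1
    nlinarith
  rw [sum_const, nsmul_eq_mul] at a2
  have a3 : (((S \ S') ∪ (S' \ S)) ∩ U).card ≤ 2 * l :=
    (card_le_card inter_subset_left).trans ((card_union_le _ _).trans (by omega))
  refine a2.trans ?_
  rw [mul_one_div]
  exact div_le_div_of_nonneg_right (by exact_mod_cast a3) hk'.le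

theorem tz_exists {ι : Type*} (I : Finset ι) (G : ι → Finset (Equiv.Perm V)) :
    ∃ σ : Equiv.Perm V, ((I.filter fun i => σ ∈ G i).card : ℝ) ≤ ∑ i ∈ I, pr (G i) := by
  have h := exists_le_of_sum_le (s := (univ : Finset (Equiv.Perm V))) univ_nonempty
    (f := fun σ => ((I.filter fun i => σ ∈ G i).card : ℝ)) (g := fun _ => ∑ i ∈ I, pr (G i)) (by
      rw [sum_const, nsmul_eq_mul, card_univ, mul_sum]
      have e1 : ∀ i, (Fintype.card (Equiv.Perm V) : ℝ) * pr (G i) = (G i).card := fun i => by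
        unfold pr
        exact mul_div_cancel₀ _ cardPerm_pos.ne'
      simp only [e1, card_filter]
      push_cast
      rw [sum_comm]
      exact le_of_eq (sum_congr rfl fun i _ => by simp))
  obtain ⟨σ, _, hσ⟩ := h
  exact ⟨σ, hσ⟩

theorem tz_good {n K D l : ℕ} (hk : K < n) {P : Finset (Finset V)} {Z : Finset V}
    (hc : ∀ S ∈ P, S.card = n) (hK : ∀ S ∈ P, (S ∩ Z).card ≤ K)
    (hD : ∀ p ∈ Z, (P.filter fun S => p ∈ S).card ≤ D) (I : Finset V) (A B : V → Finset V)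
    (hA : ∀ x ∈ I, A x ∈ P) (hB : ∀ x ∈ I, B x ∈ P) :
    ∃ π : Equiv.Perm V, ∃ Y ⊆ I,
      (I.card : ℝ) ≤ Y.card + I.card * (2 * ((K * D) ^ 2 * (2 * l / ((n - K : ℕ) : ℝ)))) ∧
      ∀ S ∈ Y.image A ∪ Y.image B, ∀ S' ∈ P, ∀ T ∈ P, (∃ p ∈ Z, p ∈ S ∧ p ∈ T) →
        (∃ p ∈ Z, p ∈ S' ∧ p ∈ T) → (S \ S').card ≤ l → tzR π Z S = tzR π Z S' := by
  set Nb : Finset V → Finset (Finset V) := fun S => (S ∩ Z).biUnion fun p =>
    (P.filter fun T => p ∈ T).biUnion fun T => (T ∩ Z).biUnion fun q =>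
      P.filter fun S' => q ∈ S' with hNb
  set Bad : Finset V → Finset (Equiv.Perm V) := fun S =>
    ((Nb S).filter fun S' => S' ∈ P ∧ (S \ S').card ≤ l).biUnion fun S' =>
      univ.filter fun π => tzR π Z S ≠ tzR π Z S' with hBad
  have a1 : ∀ S ∈ P, pr (Bad S) ≤ (K * D) ^ 2 * (2 * l / ((n - K : ℕ) : ℝ)) := by
    intro S hS
    have b1 : (Nb S).card ≤ (K * D) ^ 2 := by
      refine (card_biUnion_le_card_mul _ _ (D * (K * D)) fun p hp => ?_).trans ?_
      · refine (card_biUnion_le_card_mul _ _ (K * D) fun T hT => ?_).trans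
          (Nat.mul_le_mul_right _ (hD p (mem_inter.1 hp).2))
        exact (card_biUnion_le_card_mul _ _ D fun q hq => hD q (mem_inter.1 hq).2).trans
          (Nat.mul_le_mul_right _ (hK T (mem_filter.1 hT).1))
      · calc _ ≤ K * (D * (K * D)) := Nat.mul_le_mul_right _ (hK S hS)
          _ = _ := by ring
    refine (pr_biUnion_le _ _).trans ((sum_le_card_nsmul _ _ (2 * l / ((n - K : ℕ) : ℝ))
      fun S' hS' => ?_).trans ?_)
    · obtain ⟨_, c1, c2⟩ := mem_filter.1 hS'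
      have c3 := card_sdiff_add_card_inter S Z
      have c4 := hK S hS
      have c5 := hc S hS
      refine tzR_bad (by omega) (by omega) c2 ?_
      rwa [← card_sdiff_comm (c5.trans (hc S' c1).symm)]
    · rw [nsmul_eq_mul]
      refine mul_le_mul_of_nonneg_right ?_ (by positivity)
      exact_mod_cast (card_filter_le _ _).trans b1
  obtain ⟨π, hπ⟩ := tz_exists I fun x => Bad (A x) ∪ Bad (B x)
  refine ⟨π, I.filter fun x => π ∉ Bad (A x) ∪ Bad (B x), filter_subset _ _, ?_, ?_⟩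
  · have b1 := card_filter_add_card_filter_not (s := I) fun x => π ∈ Bad (A x) ∪ Bad (B x)
    have b2 : ∑ x ∈ I, pr (Bad (A x) ∪ Bad (B x))
        ≤ I.card * (2 * ((K * D) ^ 2 * (2 * l / ((n - K : ℕ) : ℝ)))) := by
      rw [← nsmul_eq_mul]
      refine sum_le_card_nsmul _ _ _ fun x hx => (pr_union_le _ _).trans ?_
      linarith [a1 _ (hA x hx), a1 _ (hB x hx)]
    have b3 : ((I.filter fun x => π ∈ Bad (A x) ∪ Bad (B x)).card : ℝ)
        + (I.filter fun x => π ∉ Bad (A x) ∪ Bad (B x)).card = I.card := by exact_mod_cast b1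
    linarith
  · rintro S hS S' hS' T hT ⟨p, p1, p2, p3⟩ ⟨q, q1, q2, q3⟩ hl
    have b1 : π ∉ Bad S := by
      rcases mem_union.1 hS with h | h <;> obtain ⟨x, hx, rfl⟩ := mem_image.1 h
      · exact fun hh => (mem_filter.1 hx).2 (mem_union_left _ hh)
      · exact fun hh => (mem_filter.1 hx).2 (mem_union_right _ hh)
    by_contra hne
    refine b1 (mem_biUnion.2 ⟨S', mem_filter.2 ⟨?_, hS', hl⟩, mem_filter.2 ⟨mem_univ _, hne⟩⟩)
    exact mem_biUnion.2 ⟨p, mem_inter.2 ⟨p2, p1⟩, mem_biUnion.2 ⟨T, mem_filter.2 ⟨hT, p3⟩,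
      mem_biUnion.2 ⟨q, mem_inter.2 ⟨q3, q1⟩, mem_filter.2 ⟨hS', q2⟩⟩⟩⟩

end Pool.Agent.P.MP_c09308_co
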