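import Mathlib

/-! Numerical inequalities for the packing of subcubes. -/

namespace Pool.Agent.P.MP_c09308_co

theorem tz_two_mul (k : ℕ) : 2 * k ≤ 2 ^ k := by
  rcases k with _ | k
  · simp
  · have := Nat.lt_two_pow_self (n := k)
    rw [pow_succ]
    omega

theorem tz_sq (k : ℕ) : (k + 4) ^ 2 + 4 * (k + 4) ≤ 2 ^ (k + 5) := by
  induction k with
  | zero => norm_num
  | succ k ih =>
    rw [show k + 1 + 5 = k + 5 + 1 by ring, pow_succ 2 (k + 5)]
    nlinarith

theorem tz_sq2 (q : ℕ) : q ^ 2 ≤ 2 ^ (q + 1) := by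
  rcases Nat.lt_or_ge q 4 with h | h
  · interval_cases q <;> norm_num
  · obtain ⟨k, rfl⟩ : ∃ k, q = k + 4 := ⟨q - 4, by omega⟩
    have := tz_sq k
    rw [show k + 4 + 1 = k + 5 by ring]
    omega

theorem tz_three (q : ℕ) : 3 * q ≤ 2 ^ q + 2 := by
  rcases Nat.lt_or_ge q 2 with h | h
  · interval_cases q <;> norm_num
  · induction q, h using Nat.le_induction with
    | base => norm_num
    | succ q hq ih =>
      have := tz_two_mul q
      rw [pow_succ]
      omega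

theorem tz_numU (k j : ℕ) : 4 * (j * k) ≤ 2 ^ (k + j) := by
  rw [pow_add]
  calc 4 * (j * k) = (2 * k) * (2 * j) := by ring
    _ ≤ _ := Nat.mul_le_mul (tz_two_mul k) (tz_two_mul j)

theorem tz_numS0 (u q : ℕ) (hu : 2 ≤ u) : (q + 2) * u ≤ 2 ^ u + 2 ^ q := by
  rcases Nat.lt_or_ge u 4 with h | h
  · have h1 := tz_two_mul q
    have h2 := tz_three q
    interval_cases u <;> norm_num <;> omega
  · obtain ⟨k, rfl⟩ : ∃ k, u = k + 4 := ⟨u - 4, by omega⟩
    have h1 := tz_sq k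
    have h2 := tz_sq2 q
    rw [show k + 5 = k + 4 + 1 by ring, pow_succ 2 (k + 4)] at h1
    rw [pow_succ 2 q] at h2
    nlinarith [sq_nonneg ((q : ℤ) - (k + 4))]

/-- One cluster of top size. -/
theorem tz_numS {k k1 m q : ℕ} (hk : k1 < k) (h1 : 1 ≤ k1) (hm : 1 ≤ m)
    (hq : 1 ≤ q → k1 + 2 ≤ k) :
    4 * (m * k1 + (k + q * (k - 1))) ≤ 2 ^ (k + m) + 2 ^ (m + q + 1) := by
  obtain ⟨u, rfl⟩ : ∃ u, k = u + 1 := ⟨k - 1, by omega⟩
  have h0 : k1 + (u + 1 + q * u) ≤ 2 ^ u + 2 ^ q := by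
    rcases Nat.eq_zero_or_pos q with rfl | hq'
    · have := tz_two_mul u
      simp only [zero_mul, pow_zero]
      omega
    · have := tz_numS0 u q (by omega)
      have := hq hq'
      nlinarith
  have h2 := tz_two_mul m
  rw [Nat.add_sub_cancel]
  have e : 2 ^ (u + 1 + m) + 2 ^ (m + q + 1) = 2 * 2 ^ m * (2 ^ u + 2 ^ q) := by ring
  rw [e]
  calc 4 * (m * k1 + (u + 1 + q * u)) ≤ 2 * (2 * m) * (k1 + (u + 1 + q * u)) := by
        nlinarith [Nat.mul_le_mul_right (u + 1 + q * u) hm]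
    _ ≤ _ := Nat.mul_le_mul (Nat.mul_le_mul_left _ h2) h0

theorem tz_seven (q : ℕ) : (q + 3) ^ 2 ≤ 7 * 2 ^ q + 2 := by
  induction q with
  | zero => norm_num
  | succ q ih =>
    have := Nat.lt_two_pow_self (n := q)
    rw [pow_succ 2 q]
    nlinarith

theorem tz_numD0 (k q : ℕ) (hk : 2 ≤ k) (h : k = 3 → 1 ≤ q) :
    2 * ((q + 3) * k) ≤ 2 ^ k + 7 * 2 ^ q + 2 := by
  have h1 := tz_seven q
  by_cases h3 : k = 3
  · subst h3
    obtain ⟨r, rfl⟩ : ∃ r, q = r + 1 := ⟨q - 1, by have := h rfl; omega⟩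
    have := Nat.lt_two_pow_self (n := r)
    rw [pow_succ 2 r]
    omega
  · have h2 : k ^ 2 ≤ 2 ^ k := by
      rcases Nat.lt_or_ge k 4 with h4 | h4
      · interval_cases k
        · norm_num
        · exact absurd rfl h3
      · induction k, h4 using Nat.le_induction with
        | base => norm_num
        | succ k hk' ih =>
          rcases Nat.eq_or_lt_of_le hk' with rfl | h5
          · norm_num
          · have := ih (by omega) (by omega) (by omega)
            rw [pow_succ 2 k]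
            nlinarith
    nlinarith [sq_nonneg ((q : ℤ) + 3 - k)]

/-- Two clusters of top size. -/
theorem tz_numD {k k1 m q : ℕ} (hk : k1 < k) (h1 : 1 ≤ k1) (hm : 1 ≤ m)
    (h : ¬ (m = 1 ∧ q = 0 ∧ k = 3 ∧ k1 = 2)) :
    4 * (m * k1 + (q + 2) * k)
      ≤ 2 ^ (k + m) + (2 ^ (m + q + 2) + (2 ^ (m + q + 1) + 2 ^ (m + q))) := by
  have e : 2 ^ (k + m) + (2 ^ (m + q + 2) + (2 ^ (m + q + 1) + 2 ^ (m + q)))
      = 2 ^ m * (2 ^ k + 7 * 2 ^ q) := by ring
  rw [e]
  have h2 := tz_two_mul m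
  by_cases h3 : k = 3 ∧ q = 0
  · obtain ⟨rfl, rfl⟩ := h3
    norm_num
    rcases Nat.eq_or_lt_of_le hm with rfl | hm'
    · have : k1 = 1 := by omega
      subst this
      norm_num
    · nlinarith
  · have h0 := tz_numD0 k q (by omega) (by omega)
    calc 4 * (m * k1 + (q + 2) * k) ≤ 2 * m * (2 * (k1 + (q + 2) * k)) := by
          nlinarith [Nat.mul_le_mul_right ((q + 2) * k) hm]
      _ ≤ _ := Nat.mul_le_mul h2 (by nlinarith)

end Pool.Agent.P.MP_c09308_co
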