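import Mathlib
import Pool.Agent.P.MP_c09308_co.TzClu

/-! Protected subcubes of one group of clusters. -/

namespace Pool.Agent.P.MP_c09308_co

open Finset

variable {V : Type*} [DecidableEq V] {W : Type*} [LinearOrder W]

/-- The group `S` of all remaining clusters for which `B` is valid. -/
structure TzS (n : ℕ) (P : Finset (Finset V)) (ρ : Finset V → W) (R : Finset (Finset V))
    (κ : Finset V → Finset V) (S : Finset (Finset V)) (B : Finset V) (k1 : ℕ) : Prop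
    extends TzC n P ρ R κ where
  hB : B ∈ P
  mem : ∀ A, A ∈ S ↔ A ∈ R ∧ A ∩ B ⊆ κ A ∧ ρ A < ρ B
  min : ∀ A ∈ R, k1 ≤ (κ A).card
  max : ∀ B' ∈ P, (R.filter fun A => (A ∩ B' ⊆ κ A ∧ ρ A < ρ B') ∧ (κ A).card = k1).card
    ≤ (S.filter fun A => (κ A).card = k1).card

/-- A subcube of the group that is incompatible with all later subcubes. -/
def TzOk (n : ℕ) (P : Finset (Finset V)) (ρ : Finset V → W) (R : Finset (Finset V))
    (κ : Finset V → Finset V) (S : Finset (Finset V)) (B : Finset V) (e : TzE V) : Prop :=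
  TzB n P ρ R κ e ∧ e.A ∈ S ∧ e.B = B ∧ ∀ e', TzB n P ρ (R \ S) κ e' → TzI ρ e e'

variable {n k1 : ℕ} {P R S : Finset (Finset V)} {ρ : Finset V → W} {κ : Finset V → Finset V}
  {B : Finset V}

theorem TzS.inR (h : TzS n P ρ R κ S B k1) {A : Finset V} (hA : A ∈ S) : A ∈ R :=
  ((h.mem A).1 hA).1

theorem TzS.inter (h : TzS n P ρ R κ S B k1) {A : Finset V} (hA : A ∈ S) {p : V} (h1 : p ∈ A)
    (h2 : p ∈ B) : p ∈ κ A :=
  ((h.mem A).1 hA).2.1 (mem_inter.2 ⟨h1, h2⟩)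

theorem TzS.point (h : TzS n P ρ R κ S B k1) {A : Finset V} (hA : A ∈ S) :
    ∃ p ∈ κ A, p ∈ B := by
  obtain ⟨p, hp⟩ := h.int A (h.sub (h.inR hA)) B h.hB
  rw [mem_inter] at hp
  exact ⟨p, h.inter hA hp.1 hp.2, hp.2⟩

theorem TzS.ov1 (h : TzS n P ρ R κ S B k1) {e' : TzE V} (h' : TzB n P ρ (R \ S) κ e')
    {β : Finset V} {c : ℕ} (hβ : ∀ p ∈ B, p ∉ β → ∃ A ∈ S, (κ A).card ≤ c ∧ p ∈ κ A)
    (hd : Disjoint e'.α β) (hρ : ρ e'.A < ρ B) : (κ e'.A).card < c := by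
  have h1 := mem_sdiff.1 h'.hA
  have h2 : ¬ e'.A ∩ B ⊆ κ e'.A := fun hh => h1.2 ((h.mem _).2 ⟨h1.1, hh, hρ⟩)
  obtain ⟨p, hp, hp'⟩ := not_subset.1 h2
  rw [mem_inter] at hp
  obtain ⟨A, hA, h3, h4⟩ := hβ p hp.2 (disjoint_left.1 hd (h'.left p hp.1 hp'))
  exact (h.p1 _ h1.1 A (h.inR hA) (fun e => h1.2 (e ▸ hA)) p hp.1 h4).trans_le h3

theorem TzS.ov2 (h : TzS n P ρ R κ S B k1) {e' : TzE V} (h' : TzB n P ρ (R \ S) κ e')
    {A : Finset V} (hA : A ∈ S) (hk : (κ e'.A).card ≤ (κ A).card) {p : V} (h1 : p ∈ A)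
    (h2 : p ∈ e'.B) : p ∈ e'.β := by
  by_contra h3
  obtain ⟨A', hA', h4, h5⟩ := h'.right p h2 h3
  rw [mem_sdiff] at hA'
  have := h.p1 A (h.inR hA) A' hA'.1 (fun e => hA'.2 (e ▸ hA)) p h1 h5
  omega

/-- Subcubes in which only the smallest clusters are free on the late side. -/
theorem TzS.okL (h : TzS n P ρ R κ S B k1) {A α β : Finset V} (hA : A ∈ S)
    (hα : ∀ p ∈ A, p ∉ κ A → p ∈ α)
    (hβ : ∀ p ∈ B, p ∉ β → ∃ A' ∈ S, (κ A').card ≤ k1 ∧ p ∈ κ A')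
    (l1 : (α \ A).card ≤ 2) (l2 : (β \ B).card ≤ 2) (hd : Disjoint α β)
    (hs : α.card + β.card ≤ 2 * n) : TzOk n P ρ R κ S B ⟨A, B, α, β⟩ := by
  obtain ⟨h1, h2, h3⟩ := (h.mem A).1 hA
  refine ⟨⟨h1, h.hB, h2, h3, hα, fun p hp hp' => ?_, l1, l2, hd, hs⟩, hA, rfl, ?_⟩
  · obtain ⟨A', h4, h5, h6⟩ := hβ p hp hp'
    exact ⟨A', h.inR h4, h5.trans (h.min A h1), h6⟩
  · rintro e' h' ⟨_, h5, h6, _⟩
    exact absurd (h.ov1 h' hβ h5 (h6 ▸ h3)) (not_lt.2 (h.min _ (mem_sdiff.1 h'.hA).1))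

/-- Subcubes in which a set with a cluster of top size is early. -/
theorem TzS.okX (h : TzS n P ρ R κ S B k1) {A α β : Finset V} (hA : A ∈ S)
    (ht : ∀ A' ∈ S, (κ A').card ≤ (κ A).card) (hα : A ⊆ α) (hβ : B \ S.biUnion κ ⊆ β)
    (l1 : (α \ A).card ≤ 2) (l2 : (β \ B).card ≤ 2) (hd : Disjoint α β)
    (hs : α.card + β.card ≤ 2 * n) : TzOk n P ρ R κ S B ⟨A, B, α, β⟩ := by
  obtain ⟨h1, h2, h3⟩ := (h.mem A).1 hA
  have hβ' : ∀ p ∈ B, p ∉ β → ∃ A' ∈ S, (κ A').card ≤ (κ A).card ∧ p ∈ κ A' := by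
    intro p hp hp'
    by_contra hc
    refine hp' (hβ (mem_sdiff.2 ⟨hp, fun hh => ?_⟩))
    obtain ⟨A', h4, h5⟩ := mem_biUnion.1 hh
    exact hc ⟨A', h4, ht A' h4, h5⟩
  refine ⟨⟨h1, h.hB, h2, h3, fun p hp _ => hα hp, fun p hp hp' => ?_, l1, l2, hd, hs⟩, hA, rfl, ?_⟩
  · obtain ⟨A', h4, h5⟩ := hβ' p hp hp'
    exact ⟨A', h.inR h4, h5⟩
  · rintro e' h' ⟨h4, h5, h6, _⟩
    have h7 := h.ov1 h' hβ' h5 (h6 ▸ h3)
    obtain ⟨p, hp⟩ := h.int A (h.sub h1) _ h'.hB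
    rw [mem_inter] at hp
    exact disjoint_left.1 h4 (hα hp.1) (h.ov2 h' hA h7.le hp.1 hp.2)

/-- The exceptional subcube, protected by the choice of `B`. -/
theorem TzS.okQ (h : TzS n P ρ R κ S B k1) {A A1 α β : Finset V} (hA : A ∈ S)
    (ht : ∀ A' ∈ S, (κ A').card ≤ (κ A).card) (hk : (κ A).card ≤ k1 + 1) (hA1 : A1 ∈ S)
    (hk1 : (κ A1).card = k1) (hone : (S.filter fun A => (κ A).card = k1).card ≤ 1)
    (hα : ∀ p ∈ A, p ∉ κ A → p ∈ α) (hα1 : ∀ p ∈ A1, p ∉ κ A1 → p ∈ α)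
    (hβ : B \ S.biUnion κ ⊆ β)
    (l1 : (α \ A).card ≤ 2) (l2 : (β \ B).card ≤ 2) (hd : Disjoint α β)
    (hs : α.card + β.card ≤ 2 * n) : TzOk n P ρ R κ S B ⟨A, B, α, β⟩ := by
  obtain ⟨h1, h2, h3⟩ := (h.mem A).1 hA
  have hβ' : ∀ p ∈ B, p ∉ β → ∃ A' ∈ S, (κ A').card ≤ (κ A).card ∧ p ∈ κ A' := by
    intro p hp hp'
    by_contra hc
    refine hp' (hβ (mem_sdiff.2 ⟨hp, fun hh => ?_⟩))
    obtain ⟨A', h4, h5⟩ := mem_biUnion.1 hh
    exact hc ⟨A', h4, ht A' h4, h5⟩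
  refine ⟨⟨h1, h.hB, h2, h3, hα, fun p hp hp' => ?_, l1, l2, hd, hs⟩, hA, rfl, ?_⟩
  · obtain ⟨A', h4, h5⟩ := hβ' p hp hp'
    exact ⟨A', h.inR h4, h5⟩
  · rintro e' h' ⟨h4, h5, h6, h7⟩
    have h8 := h.ov1 h' hβ' h5 (h6 ▸ h3)
    have h9 := mem_sdiff.1 h'.hA
    have h10 := h.min _ h9.1
    have h11 : A1 ∩ e'.B ⊆ κ A1 := by
      intro p hp
      rw [mem_inter] at hp
      by_contra hc
      exact disjoint_left.1 h4 (hα1 p hp.1 hc) (h.ov2 h' hA1 (by omega) hp.1 hp.2)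
    have h12 := (h.max _ h'.hB).trans hone
    rw [card_le_one] at h12
    have h13 := h12 A1 (mem_filter.2 ⟨h.inR hA1, ⟨h11, h7 ▸ ((h.mem A1).1 hA1).2.2⟩, hk1⟩) e'.A
      (mem_filter.2 ⟨h9.1, ⟨h'.val, h'.lt⟩, by omega⟩)
    exact h9.2 (h13 ▸ hA1)

theorem TzS.card_sdiff (h : TzS n P ρ R κ S B k1) {T : Finset (Finset V)} (hT : T ⊆ S) :
    (B \ T.biUnion κ).card + T.card ≤ n := by
  rcases T.eq_empty_or_nonempty with rfl | ⟨A0, hA0⟩
  · simp [h.card B h.hB]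
  have : Nonempty V := ⟨(h.point (hT hA0)).choose⟩
  choose! f hf using fun A (hA : A ∈ S) => h.point hA
  have h1 : T.card ≤ (B ∩ T.biUnion κ).card := by
    refine card_le_card_of_injOn f (fun A hA => ?_) fun A hA A' hA' e => ?_
    · have := hf A (hT hA)
      exact mem_coe.2 (mem_inter.2 ⟨this.2, mem_biUnion.2 ⟨A, hA, this.1⟩⟩)
    · by_contra hne
      have a1 := hf A (hT hA)
      have a2 := hf A' (hT hA')
      have b1 := h.inR (hT hA)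
      have b2 := h.inR (hT hA')
      have c1 := h.p1 A b1 A' b2 hne _ (h.κsub A b1 a1.1) (e ▸ a2.1)
      have c2 := h.p1 A' b2 A b1 (Ne.symm hne) _ (h.κsub A' b2 a2.1) (e ▸ a1.1)
      omega
  have h2 := card_sdiff_add_card_inter B (T.biUnion κ)
  have h3 := h.card B h.hB
  omega

theorem TzS.card_core (h : TzS n P ρ R κ S B k1) {A : Finset V} (hA : A ∈ S) :
    (A \ κ A).card + (κ A).card = n := by
  rw [card_sdiff_add_card_eq_card (h.κsub A (h.inR hA)), h.card A (h.sub (h.inR hA))]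

theorem TzS.notMem (h : TzS n P ρ R κ S B k1) {A A' : Finset V} (hA : A ∈ S) (hA' : A' ∈ S)
    (hne : A ≠ A') (hk : (κ A').card ≤ (κ A).card) {p : V} (hp : p ∈ κ A') : p ∉ A :=
  fun hh => absurd (h.p1 A (h.inR hA) A' (h.inR hA') hne p hh hp) (not_lt.2 hk)

theorem tz_sdiff0 {s t : Finset V} (h : s ⊆ t) : (s \ t).card ≤ 2 := by
  rw [sdiff_eq_empty_iff_subset.2 h]; simp

theorem tz_sdiff1 {s t : Finset V} (h : s ⊆ t) (a : V) : (insert a s \ t).card ≤ 2 := by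
  refine (card_le_card (t := {a}) fun p hp => ?_).trans (by simp)
  rw [mem_sdiff, mem_insert] at hp
  exact mem_singleton.2 (hp.1.resolve_right fun hh => hp.2 (h hh))

theorem tz_sdiff2 {s t : Finset V} (h : s ⊆ t) (a b : V) :
    (insert a (insert b s) \ t).card ≤ 2 := by
  refine (card_le_card (t := {a, b}) fun p hp => ?_).trans card_le_two
  rw [mem_sdiff, mem_insert, mem_insert] at hp
  rw [mem_insert, mem_singleton]
  exact hp.1.imp_right fun h1 => h1.resolve_right fun hh => hp.2 (h hh)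

/-- The first subcube of a group. -/
theorem TzS.lam (h : TzS n P ρ R κ S B k1) {A : Finset V} (hA : A ∈ S) :
    TzOk n P ρ R κ S B ⟨A, B, A \ κ A, B \ (S.filter fun A => (κ A).card = k1).biUnion κ⟩ ∧
    2 ^ ((κ A).card + (S.filter fun A => (κ A).card = k1).card)
      ≤ tzW n ⟨A, B, A \ κ A, B \ (S.filter fun A => (κ A).card = k1).biUnion κ⟩ := by
  have h1 := h.card_core hA
  have h2 := h.card_sdiff (filter_subset (fun A => (κ A).card = k1) S)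
  refine ⟨h.okL hA (fun p hp hp' => mem_sdiff.2 ⟨hp, hp'⟩) (fun p hp hp' => ?_)
    (tz_sdiff0 sdiff_subset) (tz_sdiff0 sdiff_subset) (disjoint_left.2 fun p hp hp' => ?_)
    (by omega), tzW_ge (by dsimp only; omega)⟩
  · rw [mem_sdiff, not_and, not_not] at hp'
    obtain ⟨A', h3, h4⟩ := mem_biUnion.1 (hp' hp)
    exact ⟨A', (mem_filter.1 h3).1, (mem_filter.1 h3).2.le, h4⟩
  · rw [mem_sdiff] at hp hp'
    exact hp.2 (h.inter hA hp.1 hp'.1)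

theorem TzS.disj (h : TzS n P ρ R κ S B k1) {A : Finset V} (hA : A ∈ S) :
    Disjoint A (B \ S.biUnion κ) := by
  refine disjoint_left.2 fun p hp hp' => ?_
  rw [mem_sdiff] at hp'
  exact hp'.2 (mem_biUnion.2 ⟨A, hA, h.inter hA hp hp'.1⟩)

/-- A point of `B` in a cluster that is not of the least size. -/
theorem TzS.late (h : TzS n P ρ R κ S B k1) {A : Finset V} (hA : A ∈ S) (hk : k1 < (κ A).card)
    {p : V} (h1 : p ∈ κ A) (h2 : p ∈ B) :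
    p ∈ B \ (S.filter fun A => (κ A).card = k1).biUnion κ := by
  refine mem_sdiff.2 ⟨h2, fun hh => ?_⟩
  obtain ⟨A', h3, h4⟩ := mem_biUnion.1 hh
  rw [mem_filter] at h3
  exact h.notMem hA h3.1 (fun e => by subst e; omega) (by omega) h4 (h.κsub A (h.inR hA) h1)

end Pool.Agent.P.MP_c09308_co
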