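import Mathlib
import Pool.Agent.P.MP_c09308_co.TzOk
import Pool.Agent.P.MP_c09308_co.TzNum

/-! The subcubes of one group carry the weight of its points. -/

namespace Pool.Agent.P.MP_c09308_co

open Finset

variable {V : Type*} [DecidableEq V] {W : Type*} [LinearOrder W]

/-- A list of at most four protected, pairwise incompatible subcubes of weight at least `N`. -/
def TzL (n : ℕ) (P : Finset (Finset V)) (ρ : Finset V → W) (R : Finset (Finset V))
    (κ : Finset V → Finset V) (S : Finset (Finset V)) (B : Finset V) (N : ℕ) : Prop :=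
  ∃ L : List (TzE V), L.length ≤ 4 ∧ (∀ e ∈ L, TzOk n P ρ R κ S B e) ∧ L.Pairwise (TzI ρ) ∧
    N ≤ (L.map (tzW n)).sum

variable {n k1 : ℕ} {P R S : Finset (Finset V)} {ρ : Finset V → W} {κ : Finset V → Finset V}
  {B : Finset V}

theorem TzL.mono {N N' : ℕ} (h : TzL n P ρ R κ S B N) (hN : N' ≤ N) : TzL n P ρ R κ S B N' := by
  obtain ⟨L, h1, h2, h3, h4⟩ := h
  exact ⟨L, h1, h2, h3, hN.trans h4⟩

theorem TzS.xi (h : TzS n P ρ R κ S B k1) {A : Finset V} (hA : A ∈ S)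
    (ht : ∀ A' ∈ S, (κ A').card ≤ (κ A).card) :
    TzOk n P ρ R κ S B ⟨A, B, A, B \ S.biUnion κ⟩ ∧
      2 ^ S.card ≤ tzW n ⟨A, B, A, B \ S.biUnion κ⟩ := by
  have h1 := h.card A (h.sub (h.inR hA))
  have h2 := h.card_sdiff (Subset.refl S)
  exact ⟨h.okX hA ht (Subset.refl _) (Subset.refl _) (tz_sdiff0 (Subset.refl _))
    (tz_sdiff0 sdiff_subset) (h.disj hA) (by omega), tzW_ge (by dsimp only; omega)⟩

theorem TzS.xi1 (h : TzS n P ρ R κ S B k1) {A A' : Finset V} (hA : A ∈ S) (hA' : A' ∈ S)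
    (hne : A' ≠ A) (ht : ∀ A'' ∈ S, (κ A'').card ≤ (κ A').card) {c : V} (hc : c ∈ κ A) {j : ℕ}
    (hj : S.card = j + 1) :
    TzOk n P ρ R κ S B ⟨A', B, A', insert c (B \ S.biUnion κ)⟩ ∧
      2 ^ j ≤ tzW n ⟨A', B, A', insert c (B \ S.biUnion κ)⟩ := by
  have h1 := h.card A' (h.sub (h.inR hA'))
  have h2 := h.card_sdiff (Subset.refl S)
  have h3 := card_insert_le c (B \ S.biUnion κ)
  exact ⟨h.okX hA' ht (Subset.refl _) (subset_insert _ _) (tz_sdiff0 (Subset.refl _))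
    (tz_sdiff1 sdiff_subset _)
    (disjoint_insert_right.2 ⟨h.notMem hA' hA hne (ht A hA) hc, h.disj hA'⟩) (by omega),
    tzW_ge (by dsimp only; omega)⟩

theorem TzS.xi2 (h : TzS n P ρ R κ S B k1) {A A' : Finset V} (hA : A ∈ S) (hA' : A' ∈ S)
    (hne : A' ≠ A) (ht : ∀ A'' ∈ S, (κ A'').card ≤ (κ A').card) {c x : V} (hc : c ∈ κ A)
    (hx : x ∈ κ A) (hcx : c ≠ x) {j : ℕ} (hj : S.card = j + 2) :
    TzOk n P ρ R κ S B ⟨A', B, insert c A', insert x (B \ S.biUnion κ)⟩ ∧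
      2 ^ j ≤ tzW n ⟨A', B, insert c A', insert x (B \ S.biUnion κ)⟩ := by
  have h1 := h.card A' (h.sub (h.inR hA'))
  have h2 := h.card_sdiff (Subset.refl S)
  have h3 := card_insert_le x (B \ S.biUnion κ)
  have h4 := card_insert_le c A'
  refine ⟨h.okX hA' ht (subset_insert _ _) (subset_insert _ _) (tz_sdiff1 (Subset.refl _) _)
    (tz_sdiff1 sdiff_subset _) ?_ (by omega), tzW_ge (by dsimp only; omega)⟩
  refine disjoint_insert_left.2 ⟨fun hh => ?_,
    disjoint_insert_right.2 ⟨h.notMem hA' hA hne (ht A hA) hx, h.disj hA'⟩⟩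
  rcases mem_insert.1 hh with h5 | h5
  · exact hcx h5
  · exact (mem_sdiff.1 h5).2 (mem_biUnion.2 ⟨A, hA, hc⟩)

theorem TzS.caseU (h : TzS n P ρ R κ S B k1) {A : Finset V} (hA : A ∈ S) :
    TzL n P ρ R κ S B (2 ^ ((κ A).card + (S.filter fun A => (κ A).card = k1).card)) := by
  obtain ⟨a1, a2⟩ := h.lam hA
  exact ⟨[_], by simp, by simpa using a1, by simp, by simpa using a2⟩

theorem TzS.caseS (h : TzS n P ρ R κ S B k1) {A : Finset V} (hA : A ∈ S)
    (ht : ∀ A' ∈ S, (κ A').card ≤ (κ A).card) (hk : k1 < (κ A).card) :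
    TzL n P ρ R κ S B
      (2 ^ ((κ A).card + (S.filter fun A => (κ A).card = k1).card) + 2 ^ S.card) := by
  obtain ⟨a1, a2⟩ := h.lam hA
  obtain ⟨b1, b2⟩ := h.xi hA ht
  obtain ⟨p, hp, hp'⟩ := h.point hA
  refine ⟨[_, _], by simp, by simpa using ⟨a1, b1⟩, ?_, by simpa using Nat.add_le_add a2 b2⟩
  simpa using tzI_right (h.κsub A (h.inR hA) hp) (h.late hA hk hp hp')

theorem TzS.caseD (h : TzS n P ρ R κ S B k1) {A A' : Finset V} (hA : A ∈ S) (hA' : A' ∈ S)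
    (hne : A' ≠ A) (ht : ∀ A'' ∈ S, (κ A'').card ≤ (κ A).card) (he : (κ A').card = (κ A).card)
    (hk : k1 < (κ A).card) (h2 : 2 ≤ (κ A).card) {j : ℕ} (hj : S.card = j + 2) :
    TzL n P ρ R κ S B (2 ^ ((κ A).card + (S.filter fun A => (κ A).card = k1).card)
      + (2 ^ (j + 2) + (2 ^ (j + 1) + 2 ^ j))) := by
  obtain ⟨c, hc, x, hx, hcx⟩ := one_lt_card.1 h2
  obtain ⟨a1, a2⟩ := h.lam hA
  obtain ⟨b1, b2⟩ := h.xi hA ht
  obtain ⟨c1, c2⟩ := h.xi1 hA hA' hne (he ▸ ht) hc (j := j + 1) hj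
  obtain ⟨d1, d2⟩ := h.xi2 hA hA' hne (he ▸ ht) hc hx hcx hj
  obtain ⟨p, hp, hp'⟩ := h.point hA
  obtain ⟨q, hq, hq'⟩ := h.point hA'
  have hq1 := h.κsub A' (h.inR hA') hq
  have hq2 := h.late hA' (he ▸ hk) hq hq'
  rw [hj] at b2
  refine ⟨[_, _, _, _], by simp, by simpa using ⟨a1, b1, c1, d1⟩, ?_,
    by simpa using Nat.add_le_add a2 (Nat.add_le_add b2 (Nat.add_le_add c2 d2))⟩
  simp only [List.pairwise_cons, List.mem_cons, forall_eq_or_imp, List.not_mem_nil, or_false,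
    forall_eq, false_imp_iff, implies_true, List.Pairwise.nil, and_true]
  exact ⟨⟨tzI_right (h.κsub A (h.inR hA) hp) (h.late hA hk hp hp'), tzI_right hq1 hq2,
    tzI_right (mem_insert_of_mem hq1) hq2⟩,
    ⟨tzI_left (h.κsub A (h.inR hA) hc) (mem_insert_self _ _),
      tzI_left (h.κsub A (h.inR hA) hx) (mem_insert_self _ _)⟩,
    tzI_right (mem_insert_self _ _) (mem_insert_self _ _)⟩

theorem tz_third {s : Finset V} (hs : s.card = 3) (a b : V) : ∃ x ∈ s, x ≠ a ∧ x ≠ b := by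
  obtain ⟨x, hx, hx'⟩ := exists_mem_notMem_of_card_lt_card
    (s := ({a, b} : Finset V)) (t := s) (lt_of_le_of_lt card_le_two (by omega))
  exact ⟨x, hx, by simpa using hx'⟩

/-- The fourth subcube in the case of clusters of sizes two, three and three. -/
theorem TzS.extra (h : TzS n P ρ R κ S B 2) {A A' A1 : Finset V} (hA : A ∈ S) (hA' : A' ∈ S)
    (hne : A' ≠ A) (ht : ∀ A'' ∈ S, (κ A'').card ≤ (κ A).card) (h3 : (κ A).card = 3)
    (h3' : (κ A').card = 3) (h1 : (S.filter fun A => (κ A).card = 2) = {A1}) (hj : S.card = 3) :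
    ∃ e, TzOk n P ρ R κ S B e ∧ 2 ^ 2 ≤ tzW n e ∧
      TzI ρ ⟨A, B, A \ κ A, B \ (S.filter fun A => (κ A).card = 2).biUnion κ⟩ e ∧
      (∃ p ∈ A, p ∈ e.β) ∧ ∃ p ∈ A', p ∈ e.β := by
  have hA1 := mem_filter.1 (h1 ▸ mem_singleton_self A1)
  have c1 := h.card_core hA
  have c2 := h.card_core hA1.1
  have c3 := h.card_sdiff (Subset.refl S)
  have c4 := h.card_sdiff (filter_subset (fun A => (κ A).card = 2) S)
  obtain ⟨p, hp, hp'⟩ := h.point hA
  obtain ⟨q, hq, hq'⟩ := h.point hA'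
  have hp2 := h.late hA (by omega) hp hp'
  have hq2 := h.late hA' (by omega) hq hq'
  have hne1 : A ≠ A1 := fun e => by subst e; omega
  by_cases hs : A \ κ A ⊆ A1
  · have hs' : A \ κ A ⊆ A1 \ κ A1 := fun z hz => mem_sdiff.2 ⟨hs hz, fun hh =>
      h.notMem hA hA1.1 hne1 (by omega) hh (mem_sdiff.1 hz).1⟩
    obtain ⟨w, hw, hw'⟩ := exists_mem_notMem_of_card_lt_card
      (s := A \ κ A) (t := A1 \ κ A1) (by omega)
    have ew : insert w (A \ κ A) = A1 \ κ A1 :=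
      eq_of_subset_of_card_le (insert_subset hw hs') (by rw [card_insert_of_notMem hw']; omega)
    obtain ⟨x, hx, hx1, hx2⟩ := tz_third h3 p w
    obtain ⟨y, hy, hy1, hy2⟩ := tz_third h3' p w
    have d1 := card_insert_le w (insert p (A \ κ A))
    have d2 := card_insert_le p (A \ κ A)
    have d3 := card_insert_le x (insert y (B \ S.biUnion κ))
    have d4 := card_insert_le y (B \ S.biUnion κ)
    refine ⟨⟨A, B, insert w (insert p (A \ κ A)), insert x (insert y (B \ S.biUnion κ))⟩,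
      h.okQ hA ht (by omega) hA1.1 hA1.2 (by rw [h1]; simp) ?_ ?_ ?_ (tz_sdiff2 sdiff_subset _ _)
        (tz_sdiff2 sdiff_subset _ _) ?_ (by omega), tzW_ge (by dsimp only; omega),
      tzI_right (p := p) (by simp) hp2, ⟨x, h.κsub A (h.inR hA) hx, by simp⟩,
      y, h.κsub A' (h.inR hA') hy, by simp⟩
    · intro z hz hz'
      simp [hz, hz']
    · intro z hz hz'
      have : z ∈ insert w (A \ κ A) := ew ▸ mem_sdiff.2 ⟨hz, hz'⟩
      exact insert_subset_insert w (subset_insert _ _) this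
    · exact (subset_insert _ _).trans (subset_insert _ _)
    · refine disjoint_left.2 fun z hz hz' => ?_
      simp only [mem_insert, mem_sdiff] at hz hz' hw
      rcases hz with rfl | rfl | hz <;> rcases hz' with rfl | rfl | hz'
      · exact hx2 rfl
      · exact hy2 rfl
      · exact hw.2 (h.inter hA1.1 hw.1 hz'.1)
      · exact hx1 rfl
      · exact hy1 rfl
      · exact hz'.2 (mem_biUnion.2 ⟨A, hA, hp⟩)
      · exact hz.2 hx
      · exact h.notMem hA hA' hne.symm (by omega) hy hz.1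
      · exact hz.2 (h.inter hA hz.1 hz'.1)
  · obtain ⟨w, hw, hw'⟩ := not_subset.1 hs
    have d1 := card_insert_le w (B \ (S.filter fun A => (κ A).card = 2).biUnion κ)
    have d2 : (S.filter fun A => (κ A).card = 2).card = 1 := by rw [h1]; simp
    refine ⟨⟨A1, B, A1 \ κ A1, insert w (B \ (S.filter fun A => (κ A).card = 2).biUnion κ)⟩,
      h.okL hA1.1 (fun z hz hz' => mem_sdiff.2 ⟨hz, hz'⟩) ?_ (tz_sdiff0 sdiff_subset)
        (tz_sdiff1 sdiff_subset _) ?_ (by omega), tzW_ge (by dsimp only; omega),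
      tzI_left hw (mem_insert_self _ _), ⟨p, h.κsub A (h.inR hA) hp, mem_insert_of_mem hp2⟩,
      q, h.κsub A' (h.inR hA') hq, mem_insert_of_mem hq2⟩
    · intro z hz hz'
      rw [mem_insert, not_or, mem_sdiff, not_and, not_not] at hz'
      obtain ⟨A'', h4, h5⟩ := mem_biUnion.1 (hz'.2 hz)
      exact ⟨A'', (mem_filter.1 h4).1, (mem_filter.1 h4).2.le, h5⟩
    · refine disjoint_insert_right.2 ⟨fun hh => hw' (mem_sdiff.1 hh).1,
        disjoint_left.2 fun z hz hz' => ?_⟩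
      rw [mem_sdiff] at hz hz'
      exact hz.2 (h.inter hA1.1 hz.1 hz'.1)

theorem TzS.caseX (h : TzS n P ρ R κ S B 2) {A A' A1 : Finset V} (hA : A ∈ S) (hA' : A' ∈ S)
    (hne : A' ≠ A) (ht : ∀ A'' ∈ S, (κ A'').card ≤ (κ A).card) (h3 : (κ A).card = 3)
    (h3' : (κ A').card = 3) (h1 : (S.filter fun A => (κ A).card = 2) = {A1}) (hj : S.card = 3) :
    TzL n P ρ R κ S B 32 := by
  obtain ⟨a1, a2⟩ := h.lam hA
  obtain ⟨b1, b2⟩ := h.xi hA ht
  obtain ⟨p, hp, hp'⟩ := h.point hA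
  obtain ⟨q, hq, hq'⟩ := h.point hA'
  obtain ⟨c1, c2⟩ := h.xi1 hA hA' hne (by rw [h3', ← h3]; exact ht) hp (j := 2) hj
  obtain ⟨e, d1, d2, d3, ⟨x, hx, hx'⟩, y, hy, hy'⟩ := h.extra hA hA' hne ht h3 h3' h1 hj
  rw [hj] at b2
  rw [h3, show (S.filter fun A => (κ A).card = 2).card = 1 by rw [h1]; simp] at a2
  refine ⟨[_, _, _, e], by simp, by simpa using ⟨a1, b1, c1, d1⟩, ?_,
    by simpa using Nat.add_le_add a2 (Nat.add_le_add b2 (Nat.add_le_add c2 d2))⟩
  simp only [List.pairwise_cons, List.mem_cons, forall_eq_or_imp, List.not_mem_nil, or_false,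
    forall_eq, false_imp_iff, implies_true, List.Pairwise.nil, and_true]
  exact ⟨⟨tzI_right (h.κsub A (h.inR hA) hp) (h.late hA (by omega) hp hp'),
    tzI_right (h.κsub A' (h.inR hA') hq) (h.late hA' (by omega) hq hq'), d3⟩,
    ⟨tzI_left (h.κsub A (h.inR hA) hp) (mem_insert_self _ _), tzI_left hx hx'⟩, tzI_left hy hy'⟩

end Pool.Agent.P.MP_c09308_co
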