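import Mathlib
import Pool.Agent.P.MP_c09308_co.TzStep

/-! The packing theorem: pairwise incompatible subcubes of total weight four times the number of
points. -/

namespace Pool.Agent.P.MP_c09308_co

open Finset

variable {V : Type*} [DecidableEq V] {W : Type*} [LinearOrder W]
variable {n k1 : ℕ} {P R S : Finset (Finset V)} {ρ : Finset V → W} {κ : Finset V → Finset V}
  {B : Finset V}

theorem TzS.group (h : TzS n P ρ R κ S B k1)
    (h1 : (S.filter fun A => (κ A).card = k1).Nonempty) :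
    TzL n P ρ R κ S B (4 * ∑ A ∈ S, (κ A).card) := by
  obtain ⟨A1, hA1⟩ := h1
  have hA1' := mem_filter.1 hA1
  have hm : 1 ≤ (S.filter fun A => (κ A).card = k1).card := card_pos.2 ⟨A1, hA1⟩
  have hk1 : 1 ≤ k1 := by
    obtain ⟨p, hp, _⟩ := h.point hA1'.1
    rw [← hA1'.2]
    exact card_pos.2 ⟨p, hp⟩
  obtain ⟨A, hA, ht⟩ := exists_max_image S (fun A => (κ A).card) ⟨A1, hA1'.1⟩
  have e1 := sum_filter_add_sum_filter_not S (fun A => (κ A).card = k1) fun A => (κ A).card
  have e2 := card_filter_add_card_filter_not (s := S) fun A => (κ A).card = k1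
  have e3 : ∑ A ∈ S with (κ A).card = k1, (κ A).card
      = (S.filter fun A => (κ A).card = k1).card * k1 := by
    rw [sum_congr rfl fun A hA => (mem_filter.1 hA).2, sum_const, smul_eq_mul]
  rcases (h.min A (h.inR hA)).eq_or_lt with hk | hk
  · have e4 : (S.filter fun A => (κ A).card = k1) = S := filter_true_of_mem fun A' hA' =>
      le_antisymm (hk ▸ ht A' hA') (h.min A' (h.inR hA'))
    refine (h.caseU hA).mono ?_
    rw [e4] at e3 ⊢
    rw [e3, ← hk]
    exact tz_numU _ _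
  set T := S.filter fun A => ¬ (κ A).card = k1 with hT
  have hAT : A ∈ T := mem_filter.2 ⟨hA, hk.ne'⟩
  have e5 := add_sum_erase T (fun A => (κ A).card) hAT
  have e6 := card_erase_add_one hAT
  by_cases h2 : ∃ A' ∈ T.erase A, (κ A').card = (κ A).card
  · obtain ⟨A', hA', he⟩ := h2
    have hA'' := mem_erase.1 hA'
    have hA3 := (mem_filter.1 hA''.2).1
    have e7 : 1 ≤ (T.erase A).card := card_pos.2 ⟨A', hA'⟩
    have e8 : ∑ A' ∈ T, (κ A').card ≤ T.card * (κ A).card :=
      sum_le_card_nsmul T _ _ fun A' hA' => ht A' (mem_filter.1 hA').1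
    obtain ⟨q, hq⟩ : ∃ q, T.card = q + 2 := ⟨T.card - 2, by omega⟩
    rw [hq] at e8
    by_cases h3 : (S.filter fun A => (κ A).card = k1).card = 1 ∧ q = 0 ∧ (κ A).card = 3 ∧ k1 = 2
    · obtain ⟨a1, rfl, a3, rfl⟩ := h3
      obtain ⟨A2, hA2⟩ := card_eq_one.1 a1
      refine (h.caseX hA hA3 hA''.1 ht a3 (he.trans a3) hA2 (by omega)).mono ?_
      rw [a1] at e3
      rw [a3] at e8
      omega
    · refine (h.caseD hA hA3 hA''.1 ht he hk (by omega)
        (j := (S.filter fun A => (κ A).card = k1).card + q) (by omega)).mono ?_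
      refine le_trans ?_ (tz_numD hk hk1 hm h3)
      omega
  · have e7 : ∑ A' ∈ T.erase A, (κ A').card ≤ (T.erase A).card * ((κ A).card - 1) := by
      refine sum_le_card_nsmul _ _ _ fun A' hA' => ?_
      have a1 := ht A' (mem_filter.1 (mem_erase.1 hA').2).1
      have a2 : (κ A').card ≠ (κ A).card := fun e => h2 ⟨A', hA', e⟩
      omega
    refine (h.caseS hA ht hk).mono ?_
    rw [show S.card = (S.filter fun A => (κ A).card = k1).card + (T.erase A).card + 1 by omega]
    refine le_trans ?_ (tz_numS hk hk1 hm fun hq => ?_)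
    · omega
    · obtain ⟨A', hA'⟩ := card_pos.1 hq
      have a0 := mem_filter.1 (mem_erase.1 hA').2
      have a1 := ht A' a0.1
      have a2 : (κ A').card ≠ (κ A).card := fun e => h2 ⟨A', hA', e⟩
      have a3 := h.min A' (h.inR a0.1)
      omega

theorem TzC.step (h : TzC n P ρ R κ) (hne : R.Nonempty) :
    ∃ (S : Finset (Finset V)) (B : Finset V), S ⊆ R ∧ S.Nonempty ∧
      (∀ A ∈ R \ S, ¬ (A ∩ B ⊆ κ A ∧ ρ A < ρ B)) ∧
      TzL n P ρ R κ S B (4 * ∑ A ∈ S, (κ A).card) := by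
  obtain ⟨A1, hA1, hmin⟩ := exists_min_image R (fun A => (κ A).card) hne
  obtain ⟨B1, hB1, hv⟩ := h.val A1 hA1
  obtain ⟨B, hB, hmax⟩ := exists_max_image P (fun B => (R.filter fun A =>
    (A ∩ B ⊆ κ A ∧ ρ A < ρ B) ∧ (κ A).card = (κ A1).card).card) ⟨B1, hB1⟩
  have h1 : ((R.filter fun A => A ∩ B ⊆ κ A ∧ ρ A < ρ B).filter
      fun A => (κ A).card = (κ A1).card).Nonempty := by
    rw [filter_filter, ← card_pos]
    exact lt_of_lt_of_le (card_pos.2 ⟨A1, mem_filter.2 ⟨hA1, hv, rfl⟩⟩) (hmax B1 hB1)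
  refine ⟨R.filter fun A => A ∩ B ⊆ κ A ∧ ρ A < ρ B, B, filter_subset _ _,
    h1.mono (filter_subset _ _), fun A hA hh => ?_,
    TzS.group ⟨h, hB, fun A => mem_filter, hmin, fun B' hB' => ?_⟩ h1⟩
  · rw [mem_sdiff] at hA
    exact hA.2 (mem_filter.2 ⟨hA.1, hh⟩)
  · rw [filter_filter]
    exact hmax B' hB'

theorem TzC.pack (h : TzC n P ρ R κ) :
    ∃ L : List (TzE V), (∀ e ∈ L, TzB n P ρ R κ e) ∧ L.Pairwise (TzI ρ) ∧
      4 * ∑ A ∈ R, (κ A).card ≤ (L.map (tzW n)).sum ∧
      (∀ T, L.countP (fun e => e.A = T) ≤ 4) ∧ ∀ T, L.countP (fun e => e.B = T) ≤ 4 := by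
  induction R using Finset.strongInduction with
  | H R ih =>
  rcases R.eq_empty_or_nonempty with rfl | hne
  · exact ⟨[], by simp, by simp, by simp, by simp, by simp⟩
  obtain ⟨S, B, hS, ⟨A0, hA0⟩, hv, L, a1, a2, a3, a4⟩ := h.step hne
  obtain ⟨L', b1, b2, b3, b4, b5⟩ := ih (R \ S)
    ⟨sdiff_subset, fun hh => (mem_sdiff.1 (hh (hS hA0))).2 hA0⟩ (h.mono sdiff_subset)
  refine ⟨L ++ L', fun e he => ?_, ?_, ?_, fun T => ?_, fun T => ?_⟩
  · rcases List.mem_append.1 he with he | he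
    · exact (a2 e he).1
    · exact (b1 e he).mono sdiff_subset
  · exact List.pairwise_append.2 ⟨a3, b2, fun e he e' he' => (a2 e he).2.2.2 e' (b1 e' he')⟩
  · rw [List.map_append, List.sum_append, ← sum_sdiff hS]
    omega
  · rw [List.countP_append]
    by_cases hT : T ∈ S
    · have : L'.countP (fun e => e.A = T) = 0 := List.countP_eq_zero.2 fun e he hh =>
        (mem_sdiff.1 (b1 e he).hA).2 (of_decide_eq_true hh ▸ hT)
      have := List.countP_le_length (p := fun e : TzE V => decide (e.A = T)) (l := L)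
      omega
    · have : L.countP (fun e => e.A = T) = 0 := List.countP_eq_zero.2 fun e he hh =>
        hT (of_decide_eq_true hh ▸ (a2 e he).2.1)
      have := b4 T
      omega
  · rw [List.countP_append]
    by_cases hT : T = B
    · have : L'.countP (fun e => e.B = T) = 0 := List.countP_eq_zero.2 fun e he hh => by
        have e1 : e.B = B := (of_decide_eq_true hh).trans hT
        exact hv _ (b1 e he).hA ⟨e1 ▸ (b1 e he).val, e1 ▸ (b1 e he).lt⟩
      have := List.countP_le_length (p := fun e : TzE V => decide (e.B = T)) (l := L)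
      omega
    · have : L.countP (fun e => e.B = T) = 0 := List.countP_eq_zero.2 fun e he hh =>
        hT ((of_decide_eq_true hh).symm.trans (a2 e he).2.2.1)
      have := b5 T
      omega

/-- The packing theorem. -/
theorem tz_pack (hc : ∀ S ∈ P, S.card = n) (hi : ∀ S ∈ P, ∀ T ∈ P, (S ∩ T).Nonempty)
    (Y : Finset V) (hY : ∀ x ∈ Y, ∃ A ∈ P, ∃ B ∈ P, A ∩ B = {x} ∧ ρ A < ρ B) :
    ∃ G : Finset (TzE V),
      (∀ e ∈ G, e.A ∈ P ∧ e.B ∈ P ∧ ρ e.A < ρ e.B ∧ e.A \ Y ⊆ e.α ∧ e.B \ Y ⊆ e.β ∧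
        (e.α \ e.A).card ≤ 2 ∧ (e.β \ e.B).card ≤ 2 ∧ Disjoint e.α e.β ∧
        e.α.card + e.β.card ≤ 2 * n) ∧
      (∀ e ∈ G, ∀ e' ∈ G, e ≠ e' → TzI ρ e e') ∧ 4 * Y.card ≤ ∑ e ∈ G, tzW n e ∧
      ∀ T, (G.filter fun e => e.A = T ∨ e.B = T).card ≤ 8 := by
  classical
  obtain ⟨R, κ, h, hκ, hs⟩ := tz_clusters hc hi Y hY
  obtain ⟨L, a1, a2, a3, a4, a5⟩ := h.pack
  have hn : L.Nodup := a2.imp_of_mem fun {e e'} he _ hI hh => by
    subst hh
    exact hI ⟨(a1 e he).dis, (a1 e he).dis, rfl, rfl⟩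
  refine ⟨L.toFinset, fun e he => ?_, fun e he e' he' hne => ?_, ?_, fun T => ?_⟩
  · have b := a1 e (List.mem_toFinset.1 he)
    refine ⟨h.sub b.hA, b.hB, b.lt, fun p hp => ?_, fun p hp => ?_, b.lα, b.lβ, b.dis, b.sz⟩
    · rw [mem_sdiff] at hp
      exact b.left p hp.1 fun hh => hp.2 (hκ _ b.hA hh)
    · rw [mem_sdiff] at hp
      by_contra hh
      obtain ⟨A', c1, _, c2⟩ := b.right p hp.1 hh
      exact hp.2 (hκ _ c1 c2)
  · have : Std.Symm (TzI ρ) := ⟨fun _ _ => TzI.symm⟩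
    exact a2.forall (List.mem_toFinset.1 he) (List.mem_toFinset.1 he') hne
  · rw [List.sum_toFinset _ hn]
    exact (Nat.mul_le_mul_left 4 hs).trans a3
  · have key : ∀ p : TzE V → Prop, ∀ [DecidablePred p],
        (L.toFinset.filter p).card ≤ L.countP fun e => p e := by
      intro p _
      rw [List.countP_eq_length_filter]
      refine le_trans (card_le_card fun e he => ?_) (List.toFinset_card_le _)
      simpa using he
    rw [filter_or]
    have b1 := card_union_le (L.toFinset.filter fun e => e.A = T)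
      (L.toFinset.filter fun e => e.B = T)
    have b2 := (key fun e => e.A = T).trans (a4 T)
    have b3 := (key fun e => e.B = T).trans (a5 T)
    omega

end Pool.Agent.P.MP_c09308_co
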