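import Mathlib
import Pool.Agent.P.MP_c09308_co.Clean
import Pool.Agent.P.MP_c09308_co.TzPack

/-! From subcubes to events about a random ordering. -/

namespace Pool.Agent.P.MP_c09308_co

open Finset

variable {V : Type*} [Fintype V] [LinearOrder V]

theorem tz_sum_le {ι : Type*} {N k l R : ℕ} {η : ℝ} (hk : 1 ≤ k)
    (hη : 1 / ((k + (k + l)).choose k : ℝ) ≤ η * pp N) (E : Finset ι) (α β : ι → Finset V)
    (hα : ∀ j ∈ E, k ≤ (α j).card) (hβ : ∀ j ∈ E, k ≤ (β j).card)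
    (hp : ∀ i ∈ E, pp N ≤ pr (Ev (α i) (β i)))
    (hN : ∀ i ∈ E, ∃ M ⊆ E, M.card ≤ R ∧
      ∀ j ∈ E, ∀ σ ∈ Ev (α i) (β i), σ ∈ Ev (α j) (β j) → j ∈ M)
    (hI : ∀ i ∈ E, ∀ j ∈ E, i ≠ j → Disjoint (α i) (β j) → Disjoint (α j) (β i) →
      (α i \ α j).card < l → (β i \ β j).card < l → False) :
    (1 - R * (2 * l / k + 6 * η)) * ∑ i ∈ E, pr (Ev (α i) (β i)) ≤ 1 := by
  classical
  have hc : (0 : ℝ) < ((k + (k + l)).choose k : ℝ) := by
    exact_mod_cast Nat.choose_pos (Nat.le_add_right _ _)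
  have hη0 : 0 ≤ η := by
    by_contra hneg
    have := mul_neg_of_neg_of_pos (not_le.1 hneg) (pp_pos N)
    have h2 : (0 : ℝ) < 1 / ((k + (k + l)).choose k : ℝ) := by positivity
    linarith
  set G : ι → Finset (Equiv.Perm V) := fun i => (Cl E α β i).filter fun σ =>
    ∀ j ∈ E, σ ∈ Ev (α j) (β j) → (α i \ α j).card < l ∧ (β i \ β j).card < l with hG
  have h1 := (sum_pr_le_of_disjoint E G univ (by
    intro i hi j hj hij
    refine disjoint_left.2 fun σ h1 h2 => ?_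
    have a1 := mem_filter.1 h1
    have a2 := Cl_subset E α β j (mem_filter.1 h2).1
    have a3 := (mem_Cl.1 a1.1).2 j hj a2
    have a4 := a1.2 j hj a2
    exact hI i hi j hj hij (disjoint_of_mem_Ev (a3.mem_right a2))
      (disjoint_of_mem_Ev (a3.mem_left a2)) a4.1 a4.2) fun _ _ => subset_univ _).trans
    (pr_le_one _)
  rw [mul_sum]
  refine le_trans (sum_le_sum fun i hi => ?_) h1
  obtain ⟨M, hM, hR, hM'⟩ := hN i hi
  have a1 := pr_Cl_ge hk hη E M α β hα hβ hi (hp i hi) hM hR hM'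
  have a2 := pr_le_sum_of_cover M
    (fun j => if (α i \ α j).card < l ∧ (β i \ β j).card < l then ∅
      else Ev (α i) (β i) ∩ Ev (α j) (β j)) (Cl E α β i \ G i) (by
      intro σ hσ
      rw [mem_sdiff, hG, mem_filter, not_and] at hσ
      have b1 := hσ.2 hσ.1
      simp only [not_forall] at b1
      obtain ⟨j, hj, b2, b3⟩ := b1
      have b4 := Cl_subset E α β i hσ.1
      exact ⟨j, hM' j hj σ b4 b2, by rw [if_neg b3]; exact mem_inter.2 ⟨b4, b2⟩⟩)
  have hE := pr_nonneg (Ev (α i) (β i))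
  have a3 : pr (Cl E α β i \ G i) ≤ ∑ _j ∈ M, 2 * η * pr (Ev (α i) (β i)) := by
    refine a2.trans (sum_le_sum fun j hj => ?_)
    have b0 : 2 / ((k + (k + l)).choose k : ℝ) ≤ 2 * η * pr (Ev (α i) (β i)) := by
      have := mul_le_mul_of_nonneg_left (hp i hi) hη0
      calc _ = 2 * (1 / ((k + (k + l)).choose k : ℝ)) := by ring
        _ ≤ _ := by linarith
    split_ifs with b1
    · rw [pr_empty]; positivity
    · rcases not_and_or.1 b1 with b2 | b2
      · exact (far_left (hβ i hi) (hα j (hM hj)) (hβ j (hM hj)) (not_lt.1 b2)).trans b0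
      · exact (far_right (hα i hi) (hα j (hM hj)) (hβ j (hM hj)) (not_lt.1 b2)).trans b0
  rw [sum_const, nsmul_eq_mul] at a3
  have a4 := pr_sdiff_add_inter (Cl E α β i) (G i)
  rw [inter_eq_right.2 (filter_subset _ _)] at a4
  have a5 : (M.card : ℝ) * (2 * η * pr (Ev (α i) (β i))) ≤ R * (2 * η * pr (Ev (α i) (β i))) :=
    mul_le_mul_of_nonneg_right (by exact_mod_cast hR) (by positivity)
  nlinarith

theorem tz_pr_ge {n K : ℕ} {a b : Finset V} (hd : Disjoint a b) (h1 : a.card + b.card ≤ 2 * n)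
    (h2 : 2 * n ≤ a.card + b.card + K) :
    pp (n + 1) ≤ pr (Ev a b) ∧ (1 - ((K + 1 : ℕ) : ℝ) / ((n + 1 : ℕ) : ℝ)) * pp (n + 1) *
      ((2 ^ (2 * n - (a.card + b.card)) : ℕ) : ℝ) ≤ pr (Ev a b) := by
  rw [pr_Ev hd]
  obtain ⟨s, hs⟩ : ∃ s, s = (a.card + b.card) / 2 := ⟨_, rfl⟩
  obtain ⟨t, ht⟩ : ∃ t, a.card + b.card = s + t := ⟨a.card + b.card - s, by omega⟩
  have c0 : (0 : ℝ) < ((a.card + b.card).choose a.card : ℝ) := by
    exact_mod_cast Nat.choose_pos (Nat.le_add_right _ _)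
  have c1 : (a.card + b.card).choose a.card ≤ (s + t).choose s := by
    rw [← ht, hs]
    exact Nat.choose_le_middle _ _
  have c2 : 1 / ((s + t).choose s : ℝ) ≤ 1 / ((a.card + b.card).choose a.card : ℝ) :=
    one_div_le_one_div_of_le c0 (by exact_mod_cast c1)
  constructor
  · refine le_trans ?_ c2
    unfold pp
    refine one_div_le_one_div_of_le (c0.trans_le (by exact_mod_cast c1)) ?_
    rw [show 2 * (n + 1) - 2 = n + n by omega, Nat.add_sub_cancel]
    exact_mod_cast choose_add_mono (by omega) (by omega)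
  · have c3 := weight_bound (n := n + 1) (K := K + 1) (s := s) (t := t) (i := n + 1 - s)
      (j := n + 1 - t) (by omega) (by omega) (by omega) (by omega) (by omega)
    rw [show n + 1 - s + (n + 1 - t) - 2 = 2 * n - (a.card + b.card) by omega] at c3
    have c4 : (1 / 2 : ℝ) ^ (2 * n - (a.card + b.card)) * 2 ^ (2 * n - (a.card + b.card)) = 1 := by
      rw [← mul_pow]; norm_num
    push_cast at c3 ⊢
    refine le_trans (mul_le_mul_of_nonneg_right c3 (by positivity)) ?_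
    rw [mul_right_comm, c4, one_mul]
    exact c2

/-- The data of a subcube, read in one of the two orientations. -/
def tzO (a : TzE V × Bool) : TzE V := cond a.2 a.1 ⟨a.1.B, a.1.A, a.1.β, a.1.α⟩

theorem tz_prob {W : Type*} [LinearOrder W] {n K D l : ℕ} {η : ℝ} (hk : K < n)
    (hη : 1 / (((n - K) + ((n - K) + l)).choose (n - K) : ℝ) ≤ η * pp (n + 1))
    (hu : 0 ≤ 1 - ((32 * K * D : ℕ) : ℝ) * (2 * l / ((n - K : ℕ) : ℝ) + 6 * η))
    (hn : 2 * K ≤ n) {P : Finset (Finset V)} {ρ : Finset V → W} {Y Z : Finset V} (hYZ : Y ⊆ Z)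
    (hc : ∀ S ∈ P, S.card = n) (hi : ∀ S ∈ P, ∀ T ∈ P, (S ∩ T).Nonempty)
    (hK : ∀ S ∈ P, (S ∩ Z).card ≤ K) (hD : ∀ p ∈ Z, (P.filter fun S => p ∈ S).card ≤ D)
    (hY : ∀ x ∈ Y, ∃ A ∈ P, ∃ B ∈ P, A ∩ B = {x} ∧ ρ A < ρ B)
    (hg : ∀ S ∈ P, ∀ S' ∈ P, ∀ T ∈ P, (∃ p ∈ Z, p ∈ S ∧ p ∈ T) → (∃ p ∈ Z, p ∈ S' ∧ p ∈ T) →
      (S \ S').card ≤ l + K + 2 → ρ S = ρ S') :
    (1 - ((32 * K * D : ℕ) : ℝ) * (2 * l / ((n - K : ℕ) : ℝ) + 6 * η)) *
      ((1 - ((2 * K + 1 : ℕ) : ℝ) / ((n + 1 : ℕ) : ℝ)) * pp (n + 1) * (8 * Y.card)) ≤ 1 := by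
  classical
  obtain ⟨G, g1, g2, g3, g4⟩ := tz_pack (ρ := ρ) hc hi Y hY
  have f : ∀ a ∈ G ×ˢ (univ : Finset Bool), (tzO a).A ∈ P ∧ (tzO a).B ∈ P ∧
      (tzO a).A \ Y ⊆ (tzO a).α ∧ (tzO a).B \ Y ⊆ (tzO a).β ∧
      ((tzO a).α \ (tzO a).A).card ≤ 2 ∧ ((tzO a).β \ (tzO a).B).card ≤ 2 ∧
      Disjoint (tzO a).α (tzO a).β ∧ (tzO a).α.card + (tzO a).β.card ≤ 2 * n := by
    rintro ⟨e, t⟩ ha
    obtain ⟨a1, a2, _, a4, a5, a6, a7, a8, a9⟩ := g1 e (mem_product.1 ha).1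
    cases t
    · exact ⟨a2, a1, a5, a4, a7, a6, a8.symm, (add_comm _ _).trans_le a9⟩
    · exact ⟨a1, a2, a4, a5, a6, a7, a8, a9⟩
  have big : ∀ S ∈ P, ∀ s : Finset V, S \ Y ⊆ s → n - K ≤ s.card := by
    intro S hS s hs
    have a1 := card_le_card ((sdiff_subset_sdiff (Subset.refl S) hYZ).trans hs)
    have a2 := card_sdiff_add_card_inter S Z
    have a3 := hK S hS
    have a4 := hc S hS
    omega
  have meet : ∀ a ∈ G ×ˢ (univ : Finset Bool), ∀ b ∈ G ×ˢ (univ : Finset Bool),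
      Disjoint (tzO a).α (tzO b).β → ∃ p ∈ Z, p ∈ (tzO a).A ∧ p ∈ (tzO b).B := by
    intro a ha b hb hd
    obtain ⟨p, hp⟩ := hi _ (f a ha).1 _ (f b hb).2.1
    rw [mem_inter] at hp
    refine ⟨p, hYZ ?_, hp⟩
    by_contra hh
    exact disjoint_left.1 hd ((f a ha).2.2.1 (mem_sdiff.2 ⟨hp.1, hh⟩))
      ((f b hb).2.2.2.1 (mem_sdiff.2 ⟨hp.2, hh⟩))
  have near : ∀ S ∈ P, ∀ S' s s' : Finset V, S \ Y ⊆ s → (s' \ S').card ≤ 2 → (s \ s').card < l →
      (S \ S').card ≤ l + K + 2 := by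
    intro S hS S' s s' a1 a2 a3
    have a4 : S \ S' ⊆ (S ∩ Z) ∪ ((s \ s') ∪ (s' \ S')) := by
      intro p hp
      rw [mem_sdiff] at hp
      simp only [mem_union, mem_inter, mem_sdiff]
      by_cases b1 : p ∈ Y
      · exact Or.inl ⟨hp.1, hYZ b1⟩
      · by_cases b2 : p ∈ s'
        · exact Or.inr (Or.inr ⟨b2, hp.2⟩)
        · exact Or.inr (Or.inl ⟨a1 (mem_sdiff.2 ⟨hp.1, b1⟩), b2⟩)
    have a5 := card_le_card a4
    have a6 := card_union_le (S ∩ Z) ((s \ s') ∪ (s' \ S'))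
    have a7 := card_union_le (s \ s') (s' \ S')
    have a8 := hK S hS
    omega
  have prb : ∀ a ∈ G ×ˢ (univ : Finset Bool), _ := fun a ha =>
    tz_pr_ge (K := 2 * K) (f a ha).2.2.2.2.2.2.1 (f a ha).2.2.2.2.2.2.2 (by
      have a1 := big _ (f a ha).1 _ (f a ha).2.2.1
      have a2 := big _ (f a ha).2.1 _ (f a ha).2.2.2.1
      omega)
  have main := tz_sum_le (R := 32 * K * D) (by omega) hη (G ×ˢ (univ : Finset Bool))
    (fun a => (tzO a).α) (fun a => (tzO a).β)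
    (fun a ha => big _ (f a ha).1 _ (f a ha).2.2.1)
    (fun a ha => big _ (f a ha).2.1 _ (f a ha).2.2.2.1) (fun a ha => (prb a ha).1)
    (by
      intro a ha
      refine ⟨(((tzO a).A ∩ Z) ∪ ((tzO a).B ∩ Z)).biUnion fun p =>
        (P.filter fun S => p ∈ S).biUnion fun T =>
          (G.filter fun e => e.A = T ∨ e.B = T) ×ˢ (univ : Finset Bool), ?_, ?_, ?_⟩
      · exact biUnion_subset.2 fun p _ => biUnion_subset.2 fun T _ =>
          product_subset_product_left (filter_subset _ _)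
      · refine (card_biUnion_le_card_mul _ _ (D * 16) fun p hp => ?_).trans ?_
        · refine (card_biUnion_le_card_mul _ _ 16 fun T _ => ?_).trans
            (Nat.mul_le_mul_right _ (hD p ?_))
          · rw [card_product]
            exact Nat.mul_le_mul_right 2 (g4 T)
          · rcases mem_union.1 hp with h | h <;> exact (mem_inter.1 h).2
        · have a1 := card_union_le ((tzO a).A ∩ Z) ((tzO a).B ∩ Z)
          have a2 := hK _ (f a ha).1
          have a3 := hK _ (f a ha).2.1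
          calc _ ≤ (2 * K) * (D * 16) := Nat.mul_le_mul_right _ (by omega)
            _ = _ := by ring
      · rintro ⟨e, t⟩ hb σ h1 h2
        have he := (mem_product.1 hb).1
        rcases co_occur h1 h2 with hd | hd
        · obtain ⟨p, a1, a2, a3⟩ := meet a ha _ hb hd
          refine mem_biUnion.2 ⟨p, mem_union_left _ (mem_inter.2 ⟨a2, a1⟩), mem_biUnion.2
            ⟨_, mem_filter.2 ⟨(f _ hb).2.1, a3⟩, mem_product.2 ⟨mem_filter.2 ⟨he, ?_⟩, mem_univ _⟩⟩⟩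
          cases t
          · exact Or.inl rfl
          · exact Or.inr rfl
        · obtain ⟨p, a1, a2, a3⟩ := meet _ hb a ha hd
          refine mem_biUnion.2 ⟨p, mem_union_right _ (mem_inter.2 ⟨a3, a1⟩), mem_biUnion.2
            ⟨_, mem_filter.2 ⟨(f _ hb).1, a2⟩, mem_product.2 ⟨mem_filter.2 ⟨he, ?_⟩, mem_univ _⟩⟩⟩
          cases t
          · exact Or.inr rfl
          · exact Or.inl rfl)
    (by
      intro a ha b hb hne d1 d2 n1 n2
      have m1 := meet a ha a ha (f a ha).2.2.2.2.2.2.1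
      have r1 := hg _ (f a ha).1 _ (f b hb).1 _ (f a ha).2.1 m1 (meet b hb a ha d2)
        (near _ (f a ha).1 _ _ _ (f a ha).2.2.1 (f b hb).2.2.2.2.1 n1)
      have r2 := hg _ (f a ha).2.1 _ (f b hb).2.1 _ (f a ha).1
        (m1.imp fun _ h => ⟨h.1, h.2.symm⟩) ((meet a ha b hb d1).imp fun _ h => ⟨h.1, h.2.symm⟩)
        (near _ (f a ha).2.1 _ _ _ (f a ha).2.2.2.1 (f b hb).2.2.2.2.2.1 n2)
      obtain ⟨e, t⟩ := a
      obtain ⟨e', t'⟩ := b
      have he := (mem_product.1 ha).1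
      have he' := (mem_product.1 hb).1
      have l1 := (g1 e he).2.2.1
      have l2 := (g1 e' he').2.2.1
      cases t <;> cases t'
      · exact g2 e he e' he' (fun h => hne (h ▸ rfl)) ⟨d2.symm, d1.symm, r2, r1⟩
      · exact lt_asymm l1 (lt_of_eq_of_lt r1 (lt_of_lt_of_eq l2 r2.symm))
      · exact lt_asymm l2 (lt_of_eq_of_lt r1.symm (lt_of_lt_of_eq l1 r2))
      · exact g2 e he e' he' (fun h => hne (h ▸ rfl)) ⟨d1, d2, r1, r2⟩)
  refine le_trans (mul_le_mul_of_nonneg_left ?_ hu) main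
  refine le_trans ?_ (sum_le_sum fun a ha => (prb a ha).2)
  rw [← mul_sum]
  refine mul_le_mul_of_nonneg_left ?_ (mul_nonneg ?_ (pp_pos _).le)
  · rw [sum_product]
    have : 8 * Y.card ≤ ∑ e ∈ G, ∑ t : Bool,
        2 ^ (2 * n - ((tzO (e, t)).α.card + (tzO (e, t)).β.card)) := by
      have e1 : ∀ e : TzE V, ∑ t : Bool, 2 ^ (2 * n - ((tzO (e, t)).α.card + (tzO (e, t)).β.card))
          = 2 * tzW n e := by
        intro e
        simp only [Fintype.sum_bool, tzO, tzW, cond_true, cond_false, add_comm e.β.card]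
        ring
      rw [sum_congr rfl fun e _ => e1 e, ← mul_sum]
      omega
    exact_mod_cast this
  · rw [sub_nonneg, div_le_one (by positivity)]
    exact_mod_cast Nat.succ_le_succ hn

end Pool.Agent.P.MP_c09308_co
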