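import Mathlib
import Pool.Agent.P.MP_c09308_co.Red
import Pool.Agent.P.MP_c09308_co.TzProb
import Pool.Agent.P.MP_c09308_co.TzGood

/-! The number of one-point intersections of an intersecting family. -/

namespace Pool.Agent.P.MP_c09308_co

open Finset

theorem tz_pp {n : ℕ} (hn : 1 ≤ n) : pp n ≤ 4 * pp (n + 1) := by
  have h := num_cb (n - 1) 1
  rw [Nat.centralBinom_eq_two_mul_choose, Nat.centralBinom_eq_two_mul_choose,
    Nat.sub_add_cancel hn, show 2 * (n - 1) = 2 * n - 2 by omega] at h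
  unfold pp
  rw [show 2 * (n + 1) - 2 = 2 * n by omega, Nat.add_sub_cancel, mul_one_div,
    div_le_div_iff₀ (by exact_mod_cast Nat.choose_pos (by omega))
      (by exact_mod_cast Nat.choose_pos (by omega)), one_mul]
  exact_mod_cast h

theorem tz_small {m n k η : ℝ} (hm : 10 ^ 6 ≤ m) (hmn : m ^ 9 ≤ n) (hk : k = n - m)
    (hη : 10 ^ 6 * n * m ^ 3 * η ≤ 1) :
    32 * m * (2 * m ^ 2) * (2 * (4 * m) / k + 6 * (4 * η)) ≤ 1 / m ∧
      (2 * m + 1) / (n + 1) ≤ 1 / m ∧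
      2 * ((m * (2 * m ^ 2)) ^ 2 * (2 * (4 * m + m + 2) / k)) ≤ 1 / m := by
  have hm0 : (0 : ℝ) < m := by linarith [show (0 : ℝ) < 10 ^ 6 by norm_num]
  have hm1 : (1 : ℝ) ≤ m := by linarith [show (1 : ℝ) ≤ 10 ^ 6 by norm_num]
  have h8 : m ^ 8 * 10 ^ 6 ≤ n :=
    (mul_le_mul_of_nonneg_left hm (by positivity)).trans (by rw [← pow_succ]; exact hmn)
  have h18 : m ≤ m ^ 8 := le_self_pow₀ hm1 (by norm_num)
  have h28 : m ^ 2 ≤ m ^ 8 := pow_le_pow_right₀ hm1 (by norm_num)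
  have h58 : m ^ 5 ≤ m ^ 8 := pow_le_pow_right₀ hm1 (by norm_num)
  have h78 : m ^ 7 ≤ m ^ 8 := pow_le_pow_right₀ hm1 (by norm_num)
  have hk0 : 0 < k := by nlinarith
  have hn0 : 0 < n := by linarith
  refine ⟨?_, ?_, ?_⟩
  · have a1 : 512 * m ^ 4 / k ≤ 1 / (2 * m) := by
      rw [div_le_div_iff₀ hk0 (by positivity)]
      nlinarith
    have a2 : 1536 * (m ^ 3 * η) ≤ 1 / (2 * m) := by
      have b1 : m ^ 3 * η ≤ 1 / (10 ^ 6 * n) := by
        rw [le_div_iff₀ (by positivity)]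
        linarith
      have b2 : 1536 * (1 / (10 ^ 6 * n)) ≤ 1 / (2 * m) := by
        rw [mul_one_div, div_le_div_iff₀ (by positivity) (by positivity)]
        nlinarith
      linarith
    calc _ = 512 * m ^ 4 / k + 1536 * (m ^ 3 * η) := by ring
      _ ≤ 1 / (2 * m) + 1 / (2 * m) := add_le_add a1 a2
      _ = 1 / m := by field_simp; ring
  · rw [div_le_div_iff₀ (by positivity) hm0]
    nlinarith
  · rw [show 2 * ((m * (2 * m ^ 2)) ^ 2 * (2 * (4 * m + m + 2) / k))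
      = (80 * m ^ 7 + 32 * m ^ 6) / k by ring, div_le_div_iff₀ hk0 hm0]
    nlinarith

theorem tz_fin {x y i' i z Z C p q u δ β : ℝ} (hx0 : 0 ≤ x) (hx : x ≤ 1 / 10) (hy : 0 ≤ y)
    (hi : 0 ≤ i) (hi' : 0 ≤ i') (hZ : 0 ≤ Z) (hq : 0 < q) (hpq : p ≤ 4 * q) (hC : 0 < C)
    (hp : p = 1 / C) (hu : u ≤ x) (hδ : δ ≤ x) (hβ : β ≤ x)
    (h1 : (1 - u) * ((1 - δ) * q * (8 * y)) ≤ 1) (h2 : i' ≤ y + i' * β) (h3 : z ≤ 3 * x * i)
    (h4 : i ≤ i' + z + Z) : (1 - 6 * x) * i ≤ C / 2 + Z := by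
  have a1 : (1 - x) * ((1 - x) * q * (8 * y)) ≤ 1 := by
    refine le_trans ?_ h1
    have : 0 ≤ 1 - x := by linarith
    have : 0 ≤ 1 - u := by linarith
    gcongr
  have a2 : (1 - x) * (1 - x) * (2 * y) * p ≤ 1 := by
    have : 0 ≤ (1 - x) * (1 - x) * (2 * y) := by
      have : 0 ≤ 1 - x := by linarith
      positivity
    nlinarith
  have a3 : (1 - x) * (1 - x) * (2 * y) ≤ C := by
    rwa [hp, mul_one_div, div_le_one hC] at a2
  have a4 : (1 - x) * i' ≤ y := by nlinarith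
  have a5 : (1 - 2 * x) * y ≤ C / 2 := by nlinarith [mul_nonneg (sq_nonneg x) hy]
  have a6 : (1 - 3 * x) * i' ≤ C / 2 := by
    have := mul_le_mul_of_nonneg_left a4 (show 0 ≤ 1 - 2 * x by linarith)
    nlinarith [mul_nonneg (sq_nonneg x) hi']
  have a7 : (1 - 3 * x) * i ≤ i' + Z := by linarith
  have a8 := mul_le_mul_of_nonneg_left a7 (show 0 ≤ 1 - 3 * x by linarith)
  nlinarith [mul_nonneg (sq_nonneg x) hi, mul_nonneg hx0 hZ]

variable {V : Type*} [Fintype V] [LinearOrder V]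

theorem tz_stage (n m : ℕ) (hm : 10 ^ 6 ≤ m) (hmn : m ^ 9 ≤ n)
    (hη : 10 ^ 6 * (n : ℝ) * (m : ℝ) ^ 3 * (64 / 81 : ℝ) ^ m ≤ 1) (I : Finset V)
    (A B : V → Finset V) (hA : ∀ x ∈ I, (A x).card = n) (hB : ∀ x ∈ I, (B x).card = n)
    (hx : ∀ x ∈ I, A x ∩ B x = {x}) (hAA : ∀ x ∈ I, ∀ y ∈ I, (A x ∩ A y).Nonempty)
    (hAB : ∀ x ∈ I, ∀ y ∈ I, (A x ∩ B y).Nonempty)
    (hBB : ∀ x ∈ I, ∀ y ∈ I, (B x ∩ B y).Nonempty) :
    (1 - 6 * (1 / (m : ℝ))) * I.card ≤ ((2 * n - 2).choose (n - 1) : ℝ) / 2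
      + 2 * n * ((n * m : ℕ) : ℝ) * 4 ^ n / 2 ^ m := by
  have hm1 : 1 ≤ m := le_trans (by norm_num) hm
  have h5 : 5 * m ≤ n := by
    have : m ^ 2 ≤ m ^ 9 := Nat.pow_le_pow_right hm1 (by norm_num)
    nlinarith
  have hmR : (10 : ℝ) ^ 6 ≤ m := by exact_mod_cast hm
  have hm0 : (0 : ℝ) < m := by exact_mod_cast hm1
  have hn0 : (0 : ℝ) < n := by exact_mod_cast (by omega : 0 < n)
  obtain ⟨Y0, I', _, r2, r3, r4, r5, r6⟩ := red n (n * m) m (m ^ 2)
    (Nat.mul_pos (by omega) hm1) (Nat.pow_pos hm1) I I A B (Subset.refl _) hA hB hx hAB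
  have hI' : I' ⊆ I := r2.trans sdiff_subset
  have memP : ∀ {J : Finset V} {S : Finset V}, S ∈ J.image A ∪ J.image B →
      ∃ x ∈ J, S = A x ∨ S = B x := by
    intro J S hS
    rcases mem_union.1 hS with h | h <;> obtain ⟨x, hx, rfl⟩ := mem_image.1 h
    · exact ⟨x, hx, Or.inl rfl⟩
    · exact ⟨x, hx, Or.inr rfl⟩
  have hc : ∀ S ∈ I'.image A ∪ I'.image B, S.card = n := by
    intro S hS
    obtain ⟨x, hx, rfl | rfl⟩ := memP hS
    · exact hA x (hI' hx)
    · exact hB x (hI' hx)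
  have hi : ∀ S ∈ I'.image A ∪ I'.image B, ∀ T ∈ I'.image A ∪ I'.image B, (S ∩ T).Nonempty := by
    intro S hS T hT
    obtain ⟨x, hx, rfl | rfl⟩ := memP hS <;> obtain ⟨y, hy, rfl | rfl⟩ := memP hT
    · exact hAA x (hI' hx) y (hI' hy)
    · exact hAB x (hI' hx) y (hI' hy)
    · rw [inter_comm]; exact hAB y (hI' hy) x (hI' hx)
    · exact hBB x (hI' hx) y (hI' hy)
  have hK : ∀ S ∈ I'.image A ∪ I'.image B, (S ∩ (I \ Y0)).card ≤ m := by
    intro S hS
    obtain ⟨x, hx, rfl | rfl⟩ := memP hS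
    · exact (card_le_card (inter_subset_inter_right subset_union_left)).trans (r5 x hx)
    · exact (card_le_card (inter_subset_inter_right subset_union_right)).trans (r5 x hx)
  have hD : ∀ p ∈ I \ Y0, ((I'.image A ∪ I'.image B).filter fun S => p ∈ S).card ≤ 2 * m ^ 2 := by
    intro p hp
    have a1 := r6 p hp
    have a2 : ((I'.image A ∪ I'.image B).filter fun S => p ∈ S)
        ⊆ (I'.filter fun x => p ∈ A x ∪ B x).image A ∪ (I'.filter fun x => p ∈ A x ∪ B x).image B := by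
      intro S hS
      obtain ⟨x, hx, rfl | rfl⟩ := memP (mem_filter.1 hS).1
      · exact mem_union_left _ (mem_image_of_mem _
          (mem_filter.2 ⟨hx, mem_union_left _ (mem_filter.1 hS).2⟩))
      · exact mem_union_right _ (mem_image_of_mem _
          (mem_filter.2 ⟨hx, mem_union_right _ (mem_filter.1 hS).2⟩))
    have a3 := (card_le_card a2).trans (card_union_le _ _)
    have a4 := card_image_le (s := I'.filter fun x => p ∈ A x ∪ B x) (f := A)
    have a5 := card_image_le (s := I'.filter fun x => p ∈ A x ∪ B x) (f := B)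
    omega
  obtain ⟨π, Y, g1, g2, g3⟩ := tz_good (l := 4 * m + m + 2) (by omega) hc hK hD I' A B
    (fun x hx => mem_union_left _ (mem_image_of_mem _ hx))
    (fun x hx => mem_union_right _ (mem_image_of_mem _ hx))
  have hP : Y.image A ∪ Y.image B ⊆ I'.image A ∪ I'.image B :=
    union_subset_union (image_subset_image g1) (image_subset_image g1)
  obtain ⟨s1, s2, s3⟩ := tz_small (k := ((n - m : ℕ) : ℝ)) hmR (by exact_mod_cast hmn)
    (by rw [Nat.cast_sub (by omega)]) hη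
  have hx1 : 1 / (m : ℝ) ≤ 1 / 10 := one_div_le_one_div_of_le (by norm_num) (by linarith)
  have hpp := tz_pp (n := n) (by omega)
  have main := tz_prob (n := n) (K := m) (D := 2 * m ^ 2) (l := 4 * m)
    (η := 4 * (64 / 81 : ℝ) ^ m) (ρ := tzR π (I \ Y0)) (P := Y.image A ∪ Y.image B) (by omega)
    ((far_bound hm1 h5).trans (by
      rw [mul_comm 4, mul_assoc]
      exact mul_le_mul_of_nonneg_left hpp (by positivity)))
    (by push_cast; linarith) (by omega) (g1.trans r2) (fun S hS => hc S (hP hS))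
    (fun S hS T hT => hi S (hP hS) T (hP hT)) (fun S hS => hK S (hP hS))
    (fun p hp => (card_le_card (filter_subset_filter _ hP)).trans (hD p hp))
    (by
      intro x hxY
      have a1 : A x ∈ Y.image A ∪ Y.image B := mem_union_left _ (mem_image_of_mem _ hxY)
      have a2 : B x ∈ Y.image A ∪ Y.image B := mem_union_right _ (mem_image_of_mem _ hxY)
      have a3 := hx x (hI' (g1 hxY))
      have a4 := card_sdiff_add_card_inter (A x) (I \ Y0)
      have a5 := hK _ (hP a1)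
      have a6 := hc _ (hP a1)
      rcases (tzR_ne π (Z := I \ Y0) (S := A x) (T := B x)
        (by rw [a3]; exact singleton_subset_iff.2 (r2 (g1 hxY)))
        (card_pos.1 (by omega))).lt_or_gt with h | h
      · exact ⟨_, a1, _, a2, a3, h⟩
      · exact ⟨_, a2, _, a1, (inter_comm _ _).trans a3, h⟩)
    (fun S hS S' hS' T hT => g3 S hS S' (hP hS') T (hP hT))
  push_cast at main g2
  refine tz_fin (by positivity) hx1 (Nat.cast_nonneg _) (Nat.cast_nonneg _) (Nat.cast_nonneg _)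
    (by positivity) (pp_pos _) hpp (by exact_mod_cast Nat.choose_pos (by omega)) rfl s1 s2 s3
    main g2 (r3.trans (le_of_eq ?_)) r4
  push_cast
  field_simp
  ring

end Pool.Agent.P.MP_c09308_co
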