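import Mathlib
import Pool.Agent.P.MP_c09308_co.Final
import Pool.Agent.P.MP_c09308_co.TzMain

/-! The asymptotic bounds for one-point intersections and for kernels. -/

namespace Pool.Agent.P.MP_c09308_co

open Finset

theorem tz_nat (n m : ℕ) (hm : 10 ^ 6 ≤ m) (hmn : m ^ 9 ≤ n)
    (hη : 10 ^ 6 * (n : ℝ) * (m : ℝ) ^ 3 * (64 / 81 : ℝ) ^ m ≤ 1) (I : Finset ℕ)
    (A B : ℕ → Finset ℕ) (hA : ∀ x ∈ I, (A x).card = n) (hB : ∀ x ∈ I, (B x).card = n)
    (hx : ∀ x ∈ I, A x ∩ B x = {x}) (hAA : ∀ x ∈ I, ∀ y ∈ I, (A x ∩ A y).Nonempty)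
    (hAB : ∀ x ∈ I, ∀ y ∈ I, (A x ∩ B y).Nonempty)
    (hBB : ∀ x ∈ I, ∀ y ∈ I, (B x ∩ B y).Nonempty) :
    (1 - 6 * (1 / (m : ℝ))) * I.card ≤ ((2 * n - 2).choose (n - 1) : ℝ) / 2
      + 2 * n * ((n * m : ℕ) : ℝ) * 4 ^ n / 2 ^ m := by
  obtain ⟨N, hN⟩ : ∃ N : ℕ, ∀ p ∈ I.biUnion fun x => A x ∪ B x, p < N :=
    ⟨(I.biUnion fun x => A x ∪ B x).sup id + 1,
      fun p hp => Nat.lt_succ_of_le (le_sup (f := id) hp)⟩
  have hA' : ∀ x ∈ I, ∀ p ∈ A x, p < N := fun x hx p hp =>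
    hN p (mem_biUnion.2 ⟨x, hx, mem_union_left _ hp⟩)
  have hB' : ∀ x ∈ I, ∀ p ∈ B x, p < N := fun x hx p hp =>
    hN p (mem_biUnion.2 ⟨x, hx, mem_union_right _ hp⟩)
  have hI : ∀ x ∈ I, x < N := fun x h =>
    hA' x h x (mem_inter.1 (hx x h ▸ mem_singleton_self x)).1
  have key : ∀ S T : Finset ℕ, (∀ p ∈ S, p < N) → (S ∩ T).Nonempty →
      ((univ.filter fun i : Fin N => i.val ∈ S) ∩ univ.filter fun i : Fin N => i.val ∈ T).Nonempty := by
    rintro S T hS ⟨p, hp⟩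
    rw [mem_inter] at hp
    exact ⟨⟨p, hS p hp.1⟩, by simpa using hp⟩
  have h := tz_stage (V := Fin N) n m hm hmn hη (univ.filter fun i : Fin N => i.val ∈ I)
    (fun x => univ.filter fun i : Fin N => i.val ∈ A x.val)
    (fun x => univ.filter fun i : Fin N => i.val ∈ B x.val)
    (fun x h => by rw [card_fin_filter (hA' _ (mem_filter.1 h).2), hA _ (mem_filter.1 h).2])
    (fun x h => by rw [card_fin_filter (hB' _ (mem_filter.1 h).2), hB _ (mem_filter.1 h).2])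
    (by
      intro x h
      ext i
      simp only [mem_inter, mem_filter, mem_univ, true_and, mem_singleton]
      rw [← mem_inter, hx _ (mem_filter.1 h).2, mem_singleton, Fin.ext_iff])
    (fun x h y h' => key _ _ (hA' _ (mem_filter.1 h).2)
      (hAA _ (mem_filter.1 h).2 _ (mem_filter.1 h').2))
    (fun x h y h' => key _ _ (hA' _ (mem_filter.1 h).2)
      (hAB _ (mem_filter.1 h).2 _ (mem_filter.1 h').2))
    (fun x h y h' => key _ _ (hB' _ (mem_filter.1 h).2)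
      (hBB _ (mem_filter.1 h).2 _ (mem_filter.1 h').2))
  rwa [card_fin_filter hI] at h

theorem tz_pad {M a r : ℕ} {S : Finset ℕ} (hS : ∀ p ∈ S, p < M) (hr : S.card ≤ r) :
    (S ∪ Ico (M + a) (M + a + (r - S.card))).card = r := by
  rw [card_union_of_disjoint (disjoint_left.2 fun p hp hp' => by
    have := hS p hp
    have := (mem_Ico.1 hp').1
    omega), Nat.card_Ico]
  omega

theorem tz_rank (n m : ℕ) (hm : 10 ^ 6 ≤ m) (hmn : m ^ 9 ≤ n)
    (hη : 10 ^ 6 * (n : ℝ) * (m : ℝ) ^ 3 * (64 / 81 : ℝ) ^ m ≤ 1) (F : Finset (Finset ℕ))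
    (hF : ∀ S ∈ F, S.card ≤ n) (hi : ∀ S ∈ F, ∀ T ∈ F, (S ∩ T).Nonempty) (I : Finset ℕ)
    (hI : ∀ x ∈ I, ∃ A ∈ F, ∃ B ∈ F, A ∩ B = {x}) :
    (1 - 6 * (1 / (m : ℝ))) * I.card ≤ ((2 * n - 2).choose (n - 1) : ℝ) / 2
      + 2 * n * ((n * m : ℕ) : ℝ) * 4 ^ n / 2 ^ m := by
  obtain ⟨M, hM⟩ : ∃ M : ℕ, ∀ p ∈ F.biUnion id, p < M :=
    ⟨(F.biUnion id).sup id + 1, fun p hp => Nat.lt_succ_of_le (le_sup (f := id) hp)⟩
  have hM' : ∀ S ∈ F, ∀ p ∈ S, p < M := fun S hS p hp => hM p (mem_biUnion.2 ⟨S, hS, hp⟩)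
  choose! A hA B hB hx using hI
  refine tz_nat n m hm hmn hη I
    (fun x => A x ∪ Ico (M + 0) (M + 0 + (n - (A x).card)))
    (fun x => B x ∪ Ico (M + n) (M + n + (n - (B x).card)))
    (fun x h => tz_pad (hM' _ (hA x h)) (hF _ (hA x h)))
    (fun x h => tz_pad (hM' _ (hB x h)) (hF _ (hB x h))) (fun x h => ?_)
    (fun x h y h' => (hi _ (hA x h) _ (hA y h')).mono
      (inter_subset_inter subset_union_left subset_union_left))
    (fun x h y h' => (hi _ (hA x h) _ (hB y h')).mono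
      (inter_subset_inter subset_union_left subset_union_left))
    (fun x h y h' => (hi _ (hB x h) _ (hB y h')).mono
      (inter_subset_inter subset_union_left subset_union_left))
  rw [← hx x h]
  ext p
  have a1 := hM' _ (hA x h) p
  have a2 := hM' _ (hB x h) p
  simp only [mem_inter, mem_union, mem_Ico]
  constructor
  · rintro ⟨b1 | b1, b2 | b2⟩
    · exact ⟨b1, b2⟩
    · have := a1 b1; omega
    · have := a2 b2; omega
    · omega
  · exact fun b => ⟨Or.inl b.1, Or.inl b.2⟩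

theorem tz_singletons {ε : ℝ} (hε : 0 < ε) : ∃ N : ℕ, ∀ n : ℕ, N ≤ n →
    ∀ F : Finset (Finset ℕ), (∀ S ∈ F, S.card ≤ n) → (∀ S ∈ F, ∀ T ∈ F, (S ∩ T).Nonempty) →
      ∀ I : Finset ℕ, (∀ x ∈ I, ∃ A ∈ F, ∃ B ∈ F, A ∩ B = {x}) →
        (I.card : ℝ) ≤ (1 + ε) * (((2 * n - 2).choose (n - 1) : ℝ) / 2) := by
  obtain ⟨N, hN⟩ := asymp (half_pos hε)
  obtain ⟨M, hM⟩ := exists_nat_ge (12 * (1 + ε) / ε)
  refine ⟨max N (2 ^ M), fun n hn F hF hi I hI => ?_⟩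
  obtain ⟨m, hm, hmn, hη, h⟩ := hN n (le_of_max_le_left hn)
  have a1 := tz_rank n m hm hmn hη F hF hi I hI
  have hm1 : (1 : ℝ) ≤ m := by exact_mod_cast le_trans (by norm_num) hm
  have hn1 : (1 : ℝ) ≤ n := by
    exact_mod_cast le_trans (Nat.one_le_pow _ _ (lt_of_lt_of_le (by norm_num) hm)) hmn
  have hMm : M ≤ m := by
    have b1 : ((2 ^ M : ℕ) : ℝ) ≤ n := by exact_mod_cast le_of_max_le_right hn
    have b2 : (n : ℝ) * (1 / 2) ^ m ≤ 1 := by
      refine le_trans ?_ hη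
      have b3 : (1 : ℝ) ≤ (m : ℝ) ^ 3 := one_le_pow₀ hm1
      refine mul_le_mul ?_ (pow_le_pow_left₀ (by norm_num) (by norm_num) m) (by positivity)
        (by positivity)
      nlinarith [mul_le_mul_of_nonneg_left b3 (zero_le_one.trans hn1)]
    rw [one_div_pow, mul_one_div, div_le_one (by positivity)] at b2
    have b4 : 2 ^ M ≤ 2 ^ m := by exact_mod_cast b1.trans b2
    exact (Nat.pow_le_pow_iff_right (by norm_num)).1 b4
  have a2 : 6 * (1 / (m : ℝ)) * (1 + ε) ≤ ε / 2 := by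
    have b1 : 12 * (1 + ε) / ε ≤ m := hM.trans (by exact_mod_cast hMm)
    rw [div_le_iff₀ hε] at b1
    rw [mul_one_div, div_mul_eq_mul_div, div_le_iff₀ (by linarith)]
    linarith
  have a3 : 0 ≤ 6 * (1 / (m : ℝ)) := by positivity
  have a4 : 0 < 1 - 6 * (1 / (m : ℝ)) := by nlinarith
  have a5 := h ((1 - 6 * (1 / (m : ℝ))) * I.card) (by
    refine le_trans (mul_le_of_le_one_left (by positivity) (sub_le_self _ (by positivity)))
      (a1.trans (add_le_add le_rfl ?_))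
    push_cast
    refine div_le_div_of_nonneg_right (mul_le_mul_of_nonneg_right ?_ (by positivity))
      (by positivity)
    nlinarith [mul_nonneg (mul_nonneg (sq_nonneg (n : ℝ)) (sub_nonneg.2 hn1)) (zero_le_one.trans hm1),
      mul_nonneg (sq_nonneg (n : ℝ)) (zero_le_one.trans hm1)])
  have a6 : (0 : ℝ) ≤ ((2 * n - 2).choose (n - 1) : ℝ) / 2 := by positivity
  have a7 : ε / 2 / n ≤ ε / 2 := div_le_self (half_pos hε).le hn1
  refine le_of_mul_le_mul_left (a5.trans ?_) a4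
  rw [← mul_assoc]
  exact mul_le_mul_of_nonneg_right (by nlinarith) a6

/-- A smallest kernel consists of one-point intersections of the traces. -/
theorem tz_kernel (F : Finset (Finset ℕ)) (hi : ∀ S ∈ F, ∀ T ∈ F, (S ∩ T).Nonempty) :
    ∃ Y : Finset ℕ, (∀ S ∈ F, ∀ T ∈ F, (S ∩ T ∩ Y).Nonempty) ∧
      ∀ y ∈ Y, ∃ S ∈ F, ∃ T ∈ F, (S ∩ Y) ∩ (T ∩ Y) = {y} := by
  classical
  obtain ⟨Y, hY, hmin⟩ := exists_min_image ((F.biUnion id).powerset.filter
    fun Y => ∀ S ∈ F, ∀ T ∈ F, (S ∩ T ∩ Y).Nonempty) card ⟨F.biUnion id,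
      mem_filter.2 ⟨mem_powerset_self _, fun S hS T hT => (hi S hS T hT).mono
        (subset_inter (Subset.refl _) (inter_subset_left.trans (subset_biUnion_of_mem id hS)))⟩⟩
  rw [mem_filter, mem_powerset] at hY
  refine ⟨Y, hY.2, fun y hy => ?_⟩
  by_contra hc
  have h := hmin (Y.erase y) (mem_filter.2 ⟨mem_powerset.2 ((erase_subset _ _).trans hY.1), ?_⟩)
  · exact absurd h (not_le.2 (card_erase_lt_of_mem hy))
  intro S hS T hT
  by_contra hn
  refine hc ⟨S, hS, T, hT, ?_⟩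
  have key : ∀ p ∈ S ∩ T ∩ Y, p = y := fun p hp => by
    by_contra hne
    exact hn ⟨p, mem_inter.2 ⟨(mem_inter.1 hp).1, mem_erase.2 ⟨hne, (mem_inter.1 hp).2⟩⟩⟩
  rw [inter_inter_inter_comm, inter_self]
  obtain ⟨p, hp⟩ := hY.2 S hS T hT
  exact eq_singleton_iff_unique_mem.2 ⟨key p hp ▸ hp, key⟩

end Pool.Agent.P.MP_c09308_co
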